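import Pool.Agent.H195_lech.Spec2

/-!
# Stirling refinement of Lech's inequality (MP_eae75b_ag): from the pieces to the theorem
-/

set_option autoImplicit false

namespace Pool.Agent.H195L

open Finset Filter Topology
open scoped BigOperators

theorem exists_M (k : Type) [Field k] (n : ℕ) (I : Ideal (MvPowerSeries (Fin n) k))
    (hI : I.radical = Ideal.span (Set.range (MvPowerSeries.X : Fin n → MvPowerSeries (Fin n) k))) :
    ∃ M : ℕ, ∀ a : Fin n →₀ ℕ, M ≤ a.degree → MvPowerSeries.monomial a (1 : k) ∈ I := by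
  classical
  have h1 : ∀ i : Fin n, ∃ m : ℕ, (MvPowerSeries.X i : MvPowerSeries (Fin n) k) ^ m ∈ I := by
    intro i
    have : (MvPowerSeries.X i : MvPowerSeries (Fin n) k) ∈ I.radical := by
      rw [hI]
      exact Ideal.subset_span ⟨i, rfl⟩
    exact Ideal.mem_radical_iff.1 this
  choose m hm using h1
  refine ⟨∑ i, m i + 1, fun a ha => ?_⟩
  obtain ⟨i, hi⟩ : ∃ i, m i ≤ a i := by
    by_contra hcon
    push Not at hcon
    have h2 : a.degree = ∑ i, a i := Finsupp.degree_eq_sum a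
    have h3 : ∑ i, a i ≤ ∑ i, m i := Finset.sum_le_sum fun i _ => (hcon i).le
    omega
  have h4 : MvPowerSeries.monomial a (1 : k) =
      (MvPowerSeries.X i : MvPowerSeries (Fin n) k) ^ m i *
        MvPowerSeries.monomial (a - Finsupp.single i (m i)) (1 : k) := by
    rw [MvPowerSeries.X_pow_eq, MvPowerSeries.monomial_mul_monomial, one_mul,
      add_tsub_cancel_of_le]
    exact Finsupp.single_le_iff.2 hi
  rw [h4]
  exact I.mul_mem_right _ (hm i)

theorem exists_row (k : Type) [Field k] [Infinite k] (d : ℕ)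
    (Q : MvPolynomial (Fin (d + 1) × Fin (d + 1)) k) (hQ : Q ≠ 0) :
    ∃ (lam : Fin (d + 1) → k) (P : MvPolynomial (Fin d × Fin (d + 1)) k), P ≠ 0 ∧
      ∀ c : Fin d → Fin (d + 1) → k,
        MvPolynomial.eval (fun p => (Fin.snoc (α := fun _ => Fin (d + 1) → k) c lam :
          Fin (d + 1) → Fin (d + 1) → k) p.1 p.2) Q = MvPolynomial.eval (fun p => c p.1 p.2) P := by
  obtain ⟨g, hg⟩ : ∃ g : Fin (d + 1) × Fin (d + 1) → k, MvPolynomial.eval g Q ≠ 0 := by
    by_contra hcon
    push Not at hcon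
    apply hQ
    apply MvPolynomial.funext
    intro x
    rw [hcon x, map_zero]
  obtain ⟨sub, hsub⟩ : ∃ sub : Fin (d + 1) × Fin (d + 1) → MvPolynomial (Fin d × Fin (d + 1)) k,
      sub = fun p => Fin.snoc (α := fun _ => Fin (d + 1) → MvPolynomial (Fin d × Fin (d + 1)) k)
        (fun j t => MvPolynomial.X (j, t)) (fun t => MvPolynomial.C (g (Fin.last d, t))) p.1 p.2 :=
    ⟨_, rfl⟩
  have key : ∀ c : Fin d → Fin (d + 1) → k,
      MvPolynomial.eval (fun p => (Fin.snoc (α := fun _ => Fin (d + 1) → k) c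
          (fun t => g (Fin.last d, t)) : Fin (d + 1) → Fin (d + 1) → k) p.1 p.2) Q =
        MvPolynomial.eval (fun p => c p.1 p.2) (MvPolynomial.bind₁ sub Q) := by
    intro c
    have h1 : (MvPolynomial.eval fun p => c p.1 p.2) (MvPolynomial.bind₁ sub Q) =
        MvPolynomial.eval (fun i => MvPolynomial.eval (fun p => c p.1 p.2) (sub i)) Q :=
      MvPolynomial.eval₂Hom_bind₁ (RingHom.id k) _ _ _
    rw [h1]
    congr 2
    funext p
    rcases p with ⟨j, t⟩
    rw [hsub]
    refine Fin.lastCases ?_ (fun j => ?_) j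
    · simp
    · simp
  refine ⟨fun t => g (Fin.last d, t), MvPolynomial.bind₁ sub Q, ?_, key⟩
  intro h0
  apply hg
  have h2 := key (fun j t => g (j.castSucc, t))
  rw [h0, map_zero] at h2
  have h3 : g = fun p => (Fin.snoc (α := fun _ => Fin (d + 1) → k)
      (fun (j : Fin d) t => g (j.castSucc, t))
          (fun t => g (Fin.last d, t)) : Fin (d + 1) → Fin (d + 1) → k) p.1 p.2 := by
    funext p
    rcases p with ⟨j, t⟩
    refine Fin.lastCases ?_ (fun j => ?_) j
    · simp
    · simp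
  rw [h3]
  exact h2

theorem det_ne (k : Type) [Field k] (n : ℕ) :
    ∃ D : MvPolynomial (Fin n × Fin n) k, D ≠ 0 ∧ ∀ γ : Fin n → Fin n → k,
      MvPolynomial.eval (fun p => γ p.1 p.2) D = Matrix.det (Matrix.of γ) := by
  have key : ∀ γ : Fin n → Fin n → k,
      MvPolynomial.eval (fun p => γ p.1 p.2) (Matrix.det (Matrix.of fun i j =>
        (MvPolynomial.X (i, j) : MvPolynomial (Fin n × Fin n) k))) = Matrix.det (Matrix.of γ) := by
    intro γ
    rw [RingHom.map_det]
    congr 1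
    ext i j
    simp
  refine ⟨_, ?_, key⟩
  intro h0
  have h1 := key (1 : Matrix (Fin n) (Fin n) k)
  rw [h0, map_zero] at h1
  have h2 : Matrix.det (Matrix.of (1 : Matrix (Fin n) (Fin n) k)) = 1 := Matrix.det_one
  rw [h2] at h1
  exact zero_ne_one h1

theorem isMu_nonneg {k : ℕ} {G : Set E} {e : ℝ} (h : IsMu k G e) : 0 ≤ e :=
  ge_of_tendsto' h fun N => by positivity

theorem isMu_shift {k : ℕ} {G : Set E} {e : ℝ} (h : IsMu k G e) (c : ℕ) :
    Tendsto (fun N : ℕ => (k.factorial : ℝ) * (hh k G G (N + c) 0 : ℝ) / (N : ℝ) ^ k) atTop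
      (𝓝 e) := by
  have h1 : Tendsto (fun N : ℕ => (k.factorial : ℝ) * (hh k G G (N + c) 0 : ℝ) /
      ((N + c : ℕ) : ℝ) ^ k) atTop (𝓝 e) :=
    (tendsto_add_atTop_iff_nat (f := fun N : ℕ => (k.factorial : ℝ) * (hh k G G N 0 : ℝ) /
      (N : ℝ) ^ k) c).2 h
  have h2 : Tendsto (fun N : ℕ => (((N + c : ℕ) : ℝ) / (N : ℝ)) ^ k) atTop (𝓝 (1 ^ k)) := by
    apply Tendsto.pow
    have h3 : Tendsto (fun N : ℕ => 1 + (c : ℝ) / (N : ℝ)) atTop (𝓝 (1 + 0)) :=
      tendsto_const_nhds.add (tendsto_const_div_atTop_nhds_zero_nat (c : ℝ))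
    rw [add_zero] at h3
    refine h3.congr' ?_
    filter_upwards [eventually_gt_atTop 0] with N hN
    have : (N : ℝ) ≠ 0 := by exact_mod_cast hN.ne'
    push_cast
    field_simp
  have h4 := h1.mul h2
  rw [one_pow, mul_one] at h4
  refine h4.congr' ?_
  filter_upwards [eventually_gt_atTop 0] with N hN
  have h5 : (N : ℝ) ≠ 0 := by exact_mod_cast hN.ne'
  have h6 : ((N + c : ℕ) : ℝ) ≠ 0 := by
    have : 0 < N + c := by omega
    exact_mod_cast this.ne'
  rw [div_pow]
  field_simp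

theorem final (hmain : S_MAIN) (hgin : S_GIN) (hlen : S_LEN) (hfin : S_FIN) (hclo : S_CLO) :
  ∀ (k : Type) [Field k] [Infinite k] (d : ℕ) (I : Ideal (MvPowerSeries (Fin (d+1)) k)),
    I.radical = Ideal.span (Set.range (MvPowerSeries.X : Fin (d+1) → MvPowerSeries (Fin (d+1)) k)) →
    ∃ P : MvPolynomial (Fin d × Fin (d+1)) k, P ≠ 0 ∧
      ∀ c : Fin d → Fin (d+1) → k, MvPolynomial.eval (fun p => c p.1 p.2) P ≠ 0 →
        ∀ e : Fin d → ℝ,
          (∀ i : Fin d, Filter.Tendsto
            (fun n : ℕ => ((Nat.factorial (d+1-i.val) : ℝ) *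
              ((Module.length (MvPowerSeries (Fin (d+1)) k)
                (MvPowerSeries (Fin (d+1)) k ⧸
                  (I ^ n ⊔ Ideal.span {f : MvPowerSeries (Fin (d+1)) k |
                    ∃ j : Fin d, j.val < i.val ∧
                      f = ∑ t : Fin (d+1), c j t • (MvPowerSeries.X t : MvPowerSeries (Fin (d+1)) k)}))).toNat : ℝ))
              / (n : ℝ) ^ (d+1-i.val))
            Filter.atTop (nhds (e i))) →
          ∑ i : Fin d, ((ascPochhammer ℕ (d+1)).coeff (d+1-i.val) : ℝ) * e i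
            ≤ (Nat.factorial (d+1) : ℝ) *
              ((Module.length (MvPowerSeries (Fin (d+1)) k)
                (MvPowerSeries (Fin (d+1)) k ⧸ I)).toNat : ℝ) := by
  classical
  intro k _ _ d I hI
  obtain ⟨M, hM⟩ := exists_M k (d + 1) I hI
  set I' : Ideal (MvPolynomial (Fin (d + 1)) k) :=
    I.comap (MvPolynomial.coeToMvPowerSeries.ringHom : MvPolynomial (Fin (d + 1)) k →+* _) with hI'
  have hM' : ∀ a : Fin (d + 1) →₀ ℕ, M ≤ a.degree → MvPolynomial.monomial a (1 : k) ∈ I' := by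
    intro a ha
    rw [hI', Ideal.mem_comap]
    have : (MvPolynomial.coeToMvPowerSeries.ringHom : MvPolynomial (Fin (d + 1)) k →+* _)
        (MvPolynomial.monomial a 1) = MvPowerSeries.monomial a (1 : k) := by
      rw [MvPolynomial.coeToMvPowerSeries.ringHom_apply]
      exact MvPolynomial.coe_monomial a 1
    rw [this]
    exact hM a ha
  obtain ⟨G, hG, hE, hGf, hGc, Q, hQ, hsp⟩ := hgin k (d + 1) M I' hM'
  obtain ⟨D, hD, hdet⟩ := det_ne k (d + 1)
  obtain ⟨lam, P, hP, hPe⟩ := exists_row k d (Q * D) (mul_ne_zero hQ hD)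
  obtain ⟨B, hB, hS, hBf, hBc, cc, hcc⟩ := hclo (d + 1) G hG hE hGf
  obtain ⟨e', he', hsum⟩ := hmain (d + 1) B hB hS hBf
  refine ⟨P, hP, fun c hc e he => ?_⟩
  rw [← hPe c, map_mul] at hc
  set γ : Fin (d + 1) → Fin (d + 1) → k := Fin.snoc (α := fun _ => Fin (d + 1) → k) c lam with hγ
  have hQγ := left_ne_zero_of_mul hc
  have hDγ := right_ne_zero_of_mul hc
  rw [hdet γ] at hDγ
  have hF : ∀ a ∈ G, ∃ F : MvPolynomial (Fin (d + 1)) k, Lead F a ∧
      ((chg γ F : MvPolynomial (Fin (d + 1)) k) : MvPowerSeries (Fin (d + 1)) k) ∈ I := by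
    intro a ha
    obtain ⟨F, h1, h2⟩ := hsp γ hQγ a ha
    exact ⟨F, h1, h2⟩
  have hle : ∀ i : Fin d, e i ≤ e' (d + 1 - i.val) := by
    intro i
    have h1 := isMu_shift (he' (d + 1 - i.val) (by omega)) cc
    refine le_of_tendsto_of_tendsto' (he i) h1 fun N => ?_
    have h2 := hlen k (d + 1) M I hM γ hDγ G hG hGf hF i.val N (by omega)
    have h3 := hcc i.val N (by omega)
    have h4 : {f : MvPowerSeries (Fin (d+1)) k | ∃ j : Fin (d + 1), j.val < i.val ∧
          f = ∑ t : Fin (d+1), γ j t • (MvPowerSeries.X t : MvPowerSeries (Fin (d+1)) k)} =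
        {f : MvPowerSeries (Fin (d+1)) k | ∃ j : Fin d, j.val < i.val ∧
          f = ∑ t : Fin (d+1), c j t • (MvPowerSeries.X t : MvPowerSeries (Fin (d+1)) k)} := by
      ext f
      constructor
      · rintro ⟨j, hj, rfl⟩
        obtain ⟨j', rfl⟩ : ∃ j' : Fin d, j = j'.castSucc :=
          ⟨⟨j.val, by have := i.isLt; omega⟩, rfl⟩
        refine ⟨j', hj, ?_⟩
        have : γ j'.castSucc = c j' := by
          rw [hγ, Fin.snoc_castSucc]
        rw [this]
      · rintro ⟨j, hj, rfl⟩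
        refine ⟨j.castSucc, hj, ?_⟩
        have : γ j.castSucc = c j := by
          rw [hγ, Fin.snoc_castSucc]
        rw [this]
    rw [h4] at h2
    have h5 : (Module.length (MvPowerSeries (Fin (d+1)) k)
                (MvPowerSeries (Fin (d+1)) k ⧸
                  (I ^ N ⊔ Ideal.span {f : MvPowerSeries (Fin (d+1)) k |
                    ∃ j : Fin d, j.val < i.val ∧
                      f = ∑ t : Fin (d+1), c j t • (MvPowerSeries.X t : MvPowerSeries (Fin (d+1)) k)}))).toNat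
        ≤ hh (d + 1 - i.val) B B (N + cc) 0 := by
      refine le_trans ?_ h3
      exact ENat.toNat_le_of_le_natCast h2
    gcongr
  have hcoef : ∀ k : ℕ, 0 ≤ ((ascPochhammer ℕ (d+1)).coeff k : ℝ) := fun k => Nat.cast_nonneg _
  calc ∑ i : Fin d, ((ascPochhammer ℕ (d+1)).coeff (d+1-i.val) : ℝ) * e i
      ≤ ∑ i : Fin d, ((ascPochhammer ℕ (d+1)).coeff (d+1-i.val) : ℝ) * e' (d + 1 - i.val) :=
        Finset.sum_le_sum fun i _ => mul_le_mul_of_nonneg_left (hle i) (hcoef _)
    _ = ∑ k ∈ (univ : Finset (Fin d)).image (fun i : Fin d => d + 1 - i.val),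
          ((ascPochhammer ℕ (d+1)).coeff k : ℝ) * e' k := by
        rw [Finset.sum_image]
        intro i _ j _ hij
        apply Fin.ext
        have h1 : d + 1 - i.val = d + 1 - j.val := hij
        omega
    _ ≤ ∑ k ∈ range (d + 1 + 1), ((ascPochhammer ℕ (d + 1)).coeff k : ℝ) * e' k := by
        apply Finset.sum_le_sum_of_subset_of_nonneg
        · intro k hk
          obtain ⟨i, -, rfl⟩ := Finset.mem_image.1 hk
          rw [Finset.mem_range]
          omega
        · intro k hk _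
          rw [Finset.mem_range] at hk
          exact mul_nonneg (hcoef _) (isMu_nonneg (he' k (by omega)))
    _ ≤ ((d + 1).factorial : ℝ) * ((co (d + 1) B).ncard : ℝ) := hsum
    _ ≤ _ := by
        have h6 := hfin k (d + 1) M I hM
        have h7 : (co (d + 1) B).ncard ≤ (Module.length (MvPowerSeries (Fin (d+1)) k)
                (MvPowerSeries (Fin (d+1)) k ⧸ I)).toNat := hBc.trans (hGc.trans h6)
        gcongr

end Pool.Agent.H195L
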