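import Pool.Agent.H195_lech.Spec2

/-!
# Stirling refinement of Lech's inequality (MP_eae75b_ag): algebraic inequality
-/

set_option autoImplicit false

namespace Pool.Agent.H195L.L01

open Finset Filter Topology
open scoped BigOperators

namespace SALG

open Polynomial

/-- cut off array -/
noncomputable def cc (d : ℕ) (c : ℕ → ℕ → ℝ) (a b : ℕ) : ℝ := if a + b ≤ d then c a b else 0

/-- the functional on products `p(x) r(y)` -/
noncomputable def LL (d : ℕ) (c : ℕ → ℕ → ℝ) (p r : ℝ[X]) : ℝ :=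
  ∑ a ∈ range (d + 1), ∑ b ∈ range (d + 1), p.coeff a * r.coeff b * cc d c a b

variable {d : ℕ} {c : ℕ → ℕ → ℝ}

theorem cc_big {a b : ℕ} (h : d < a + b) : cc d c a b = 0 := by
  unfold cc; rw [if_neg (by omega)]

theorem cc_le {a b : ℕ} (h : a + b ≤ d) : cc d c a b = c a b := by
  unfold cc; rw [if_pos h]

theorem LL_add_left (p p' r : ℝ[X]) : LL d c (p + p') r = LL d c p r + LL d c p' r := by
  unfold LL
  simp only [coeff_add, add_mul, sum_add_distrib]

theorem LL_add_right (p r r' : ℝ[X]) : LL d c p (r + r') = LL d c p r + LL d c p r' := by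
  unfold LL
  simp only [coeff_add, mul_add, add_mul, sum_add_distrib]

theorem LL_C_left (k : ℝ) (p r : ℝ[X]) : LL d c (C k * p) r = k * LL d c p r := by
  unfold LL
  simp only [coeff_C_mul, mul_sum]
  refine sum_congr rfl fun a _ => sum_congr rfl fun b _ => ?_
  ring

theorem LL_C_right (k : ℝ) (p r : ℝ[X]) : LL d c p (C k * r) = k * LL d c p r := by
  unfold LL
  simp only [coeff_C_mul, mul_sum]
  refine sum_congr rfl fun a _ => sum_congr rfl fun b _ => ?_
  ring

theorem LL_X_left (p r : ℝ[X]) : LL d c (X * p) r =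
    ∑ a ∈ range (d + 1), ∑ b ∈ range (d + 1), p.coeff a * r.coeff b * cc d c (a + 1) b := by
  unfold LL
  rw [sum_range_succ', sum_range_succ (fun a => ∑ b ∈ range (d + 1),
    p.coeff a * r.coeff b * cc d c (a + 1) b)]
  have h1 : ∑ b ∈ range (d + 1), (X * p).coeff 0 * r.coeff b * cc d c 0 b = 0 := by
    apply sum_eq_zero
    intro b _
    simp
  have h2 : ∑ b ∈ range (d + 1), p.coeff d * r.coeff b * cc d c (d + 1) b = 0 := by
    apply sum_eq_zero
    intro b _
    rw [cc_big (by omega)]; ring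
  rw [h1, h2]
  simp only [coeff_X_mul]

theorem LL_X_right (p r : ℝ[X]) : LL d c p (X * r) =
    ∑ a ∈ range (d + 1), ∑ b ∈ range (d + 1), p.coeff a * r.coeff b * cc d c a (b + 1) := by
  unfold LL
  refine sum_congr rfl fun a _ => ?_
  rw [sum_range_succ', sum_range_succ (fun b => p.coeff a * r.coeff b * cc d c a (b + 1))]
  have h1 : p.coeff a * (X * r).coeff 0 * cc d c a 0 = 0 := by simp
  have h2 : p.coeff a * r.coeff d * cc d c a (d + 1) = 0 := by
    rw [cc_big (by omega)]; ring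
  rw [h1, h2]
  simp only [coeff_X_mul]

/-- `A_j = ∏_{i<j} (y+i)` -/
noncomputable def AA (j : ℕ) : ℝ[X] := ∏ i ∈ range j, (X + C (i : ℝ))

/-- `B_j = ∏_{j≤i<d} (x+i)` -/
noncomputable def BB (d j : ℕ) : ℝ[X] := ∏ i ∈ Ico j d, (X + C (i : ℝ))

theorem AA_succ (j : ℕ) : AA (j + 1) = (X + C (j : ℝ)) * AA j := by
  unfold AA; rw [prod_range_succ, mul_comm]

theorem BB_pred {j : ℕ} (h : j < d) : BB d j = (X + C (j : ℝ)) * BB d (j + 1) := by
  unfold BB; rw [prod_eq_prod_Ico_succ_bot h]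

theorem BB_top : BB d d = 1 := by unfold BB; simp

theorem BB_zero : BB d 0 = AA d := by unfold BB AA; rw [range_eq_Ico]

theorem nonneg_prod (s : Finset ℕ) (n : ℕ) :
    0 ≤ (∏ i ∈ s, (X + C (i : ℝ)) : ℝ[X]).coeff n := by
  classical
  induction s using Finset.induction_on generalizing n with
  | empty =>
    rw [prod_empty, coeff_one]
    split_ifs <;> norm_num
  | insert a s ha ih =>
    rw [prod_insert ha, add_mul, coeff_add, coeff_C_mul]
    have h1 : 0 ≤ (X * ∏ i ∈ s, (X + C (i : ℝ)) : ℝ[X]).coeff n := by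
      cases n with
      | zero => simp
      | succ n => rw [coeff_X_mul]; exact ih n
    have h2 := ih n
    positivity

theorem monic_prod' (s : Finset ℕ) : (∏ i ∈ s, (X + C (i : ℝ)) : ℝ[X]).Monic :=
  monic_prod_of_monic _ _ fun i _ => monic_X_add_C _

theorem deg_prod (s : Finset ℕ) : (∏ i ∈ s, (X + C (i : ℝ)) : ℝ[X]).natDegree = s.card := by
  rw [natDegree_prod_of_monic _ _ fun i _ => monic_X_add_C _]
  have h : ∀ i ∈ s, (X + C (i : ℝ) : ℝ[X]).natDegree = 1 := fun i _ => natDegree_X_add_C _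
  rw [sum_congr rfl h]
  simp

theorem AA_deg (j : ℕ) : (AA j).natDegree = j := by
  unfold AA; rw [deg_prod, card_range]

theorem BB_deg (j : ℕ) : (BB d j).natDegree = d - j := by
  unfold BB; rw [deg_prod, Nat.card_Ico]

theorem AA_lead (j : ℕ) : (AA j).coeff j = 1 := by
  have h := monic_prod' (range j)
  have h2 : (AA j).coeff (AA j).natDegree = 1 := h
  rwa [AA_deg] at h2

theorem BB_lead (j : ℕ) : (BB d j).coeff (d - j) = 1 := by
  have h := monic_prod' (Ico j d)
  have h2 : (BB d j).coeff (BB d j).natDegree = 1 := h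
  rwa [BB_deg] at h2

/-- the summand of the telescoping sum -/
noncomputable def TT (d : ℕ) (c : ℕ → ℕ → ℝ) (j : ℕ) : ℝ :=
  LL d c (BB d j) (X * AA j) + LL d c (BB d j) (AA j) - LL d c (X * BB d j) (AA j)

theorem TT_lower (hc : ∀ a b, a + b + 1 ≤ d → 0 ≤ c a (b + 1) - c (a + 1) b + c a b) {j : ℕ}
    (hj : j ≤ d) : c (d - j) j ≤ TT d c j := by
  have e : TT d c j = ∑ a ∈ range (d + 1), ∑ b ∈ range (d + 1),
      (BB d j).coeff a * (AA j).coeff b * (cc d c a (b + 1) + cc d c a b - cc d c (a + 1) b) := by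
    unfold TT
    rw [LL_X_left, LL_X_right]
    unfold LL
    rw [← sum_add_distrib, ← sum_sub_distrib]
    refine sum_congr rfl fun a _ => ?_
    rw [← sum_add_distrib, ← sum_sub_distrib]
    refine sum_congr rfl fun b _ => ?_
    ring
  have e2 : c (d - j) j = ∑ a ∈ range (d + 1), ∑ b ∈ range (d + 1),
      (if a = d - j then (if b = j then c (d - j) j else 0) else 0) := by
    have h1 : ∀ a ∈ range (d + 1), ∑ b ∈ range (d + 1),
        (if a = d - j then (if b = j then c (d - j) j else 0) else 0) =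
        if a = d - j then c (d - j) j else 0 := by
      intro a _
      split_ifs with h
      · rw [sum_ite_eq' (range (d + 1)) j]
        rw [if_pos (by rw [mem_range]; omega)]
      · simp
    rw [sum_congr rfl h1, sum_ite_eq' (range (d + 1)) (d - j), if_pos (by rw [mem_range]; omega)]
  rw [e, e2]
  refine sum_le_sum fun a _ => sum_le_sum fun b _ => ?_
  rcases lt_or_ge (d - j) a with ha | ha
  · have h1 : (BB d j).coeff a = 0 := coeff_eq_zero_of_natDegree_lt (by rw [BB_deg]; exact ha)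
    rw [h1, if_neg (by omega)]
    simp
  rcases lt_or_ge j b with hb | hb
  · have h1 : (AA j).coeff b = 0 := coeff_eq_zero_of_natDegree_lt (by rw [AA_deg]; exact hb)
    rw [h1, if_neg (show ¬ b = j by omega)]
    simp
  by_cases h : a = d - j ∧ b = j
  · obtain ⟨h1, h2⟩ := h
    subst h1
    subst h2
    rw [if_pos rfl, if_pos rfl, BB_lead, AA_lead, cc_big (by omega), cc_le (by omega),
      cc_big (by omega)]
    simp
  · have hlt : a + b + 1 ≤ d := by omega
    have h0 : (if a = d - j then (if b = j then c (d - j) j else 0) else 0) = (0 : ℝ) := by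
      split_ifs with h1 h2
      · exact absurd ⟨h1, h2⟩ h
      · rfl
      · rfl
    rw [h0, cc_le (by omega), cc_le (by omega), cc_le (by omega)]
    have h3 := hc a b hlt
    have h4 : 0 ≤ (BB d j).coeff a := nonneg_prod _ _
    have h5 : 0 ≤ (AA j).coeff b := nonneg_prod _ _
    have h6 : 0 ≤ c a (b + 1) + c a b - c (a + 1) b := by linarith
    positivity

theorem TT_eq {j : ℕ} (hj : j < d) : TT d c (j + 1) =
    LL d c (BB d (j + 1)) (AA (j + 2)) - LL d c (BB d j) (AA (j + 1)) := by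
  unfold TT
  rw [AA_succ (j + 1), BB_pred hj, add_mul, add_mul, LL_add_right, LL_add_left, LL_C_left,
    LL_C_right]
  push_cast
  ring

theorem TT_zero : TT d c 0 = LL d c (BB d 0) (AA 1) + LL d c (AA d) 1 -
    LL d c (X * AA d) 1 := by
  unfold TT
  have h0 : AA 0 = 1 := by unfold AA; simp
  have h1 : AA 1 = X * AA 0 := by
    rw [AA_succ 0]; simp
  rw [h1, h0, BB_zero]

theorem TT_sum : ∑ j ∈ range (d + 1), TT d c j =
    LL d c 1 (AA (d + 1)) - LL d c (AA (d + 1)) 1 + (d + 1) * LL d c (AA d) 1 := by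
  have h1 : ∀ n, n ≤ d → ∑ j ∈ range (n + 1), TT d c j =
      LL d c (BB d n) (AA (n + 1)) + LL d c (AA d) 1 - LL d c (X * AA d) 1 := by
    intro n hn
    induction n with
    | zero => rw [sum_range_one, TT_zero]
    | succ n ih =>
      rw [sum_range_succ, ih (by omega), TT_eq (by omega)]
      ring
  rw [h1 d le_rfl, BB_top, AA_succ d, add_mul, LL_add_left, LL_C_left]
  ring

theorem AA_asc (n k : ℕ) : (AA n).coeff k = ((ascPochhammer ℕ n).coeff k : ℝ) := by
  have h1 : AA n = ascPochhammer ℝ n := by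
    induction n with
    | zero => unfold AA; simp
    | succ n ih =>
      rw [AA_succ, ih, ascPochhammer_succ_right, mul_comm]
      simp
  rw [h1, ← ascPochhammer_map (Nat.castRingHom ℝ) n, coeff_map]
  simp

theorem LL_one_right (p : ℝ[X]) : LL d c p 1 = ∑ k ∈ range (d + 1), p.coeff k * c k 0 := by
  unfold LL
  refine sum_congr rfl fun a ha => ?_
  rw [mem_range] at ha
  rw [sum_eq_single 0]
  · rw [cc_le (by omega), coeff_one_zero]; ring
  · intro b _ hb
    rw [coeff_one, if_neg hb]; ring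
  · intro h
    exact absurd (mem_range.2 (by omega)) h

theorem LL_one_left (r : ℝ[X]) : LL d c 1 r = ∑ k ∈ range (d + 1), r.coeff k * c 0 k := by
  unfold LL
  rw [sum_eq_single 0]
  · refine sum_congr rfl fun b hb => ?_
    rw [mem_range] at hb
    rw [cc_le (by omega), coeff_one_zero]; ring
  · intro a _ ha
    apply sum_eq_zero
    intro b _
    rw [coeff_one, if_neg ha]; ring
  · intro h
    exact absurd (mem_range.2 (by omega)) h

theorem range_Icc (n : ℕ) (f : ℕ → ℝ) (h0 : f 0 = 0) :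
    ∑ k ∈ range (n + 1), f k = ∑ k ∈ Icc 1 n, f k := by
  rw [range_eq_Ico, sum_eq_sum_Ico_succ_bot (by omega), h0, zero_add]
  rfl

end SALG

/-! TARGET (S_ALG), pure algebra; the definitions above are not needed.
Plain proof. Let `F = ascPochhammer (d+1) = t(t+1)⋯(t+d)`, `P = ascPochhammer d = t(t+1)⋯(t+d-1)`.
Let `Λ` be the linear functional on polynomials in two variables `x, y` with `Λ(x^a y^b) = c a b` if
`a + b ≤ d` and `0` if `a + b > d`. Put `A_j(y) = ∏_{i<j} (y+i)`, `B_j(x) = ∏_{i=j}^{d-1} (x+i)` and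
`G = ∑_{j=0}^{d} A_j(y) B_j(x)`.
Telescoping: `(y + 1 - x) G = F(y) - (x-1) P(x)`: for `j ≥ 1`,
`(y+j - (x+j-1)) A_j B_j = A_{j+1} B_j - A_j B_{j-1}`, and for `j = 0`,
`(y - (x-1)) A_0 B_0 = A_1 B_0 - (x-1) B_0`; sum up (`B_d = 1`, `A_{d+1} = F(y)`, `B_0 = P(x)`).
Also `(x-1) P(x) = (x+d) P(x) - (d+1) P(x) = F(x) - (d+1) P(x)`.
So `Λ(F(y)) - Λ(F(x)) + (d+1) Λ(P(x)) = Λ((y+1-x) G)`. Write `G = ∑ g_{ab} x^a y^b`, `g_{ab} ≥ 0`,
total degree `d`, and the part of degree `d` is `∑_{a+b=d} x^a y^b`. For `a+b < d`,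
`Λ((y+1-x) x^a y^b) = c a (b+1) + c a b - c (a+1) b ≥ 0`; for `a+b = d` it is `c a b` (the terms of
degree `d+1` are killed). Hence `Λ((y+1-x)G) ≥ ∑_{a+b=d} c a b`. Finally
`Λ(F(y)) = ∑_{k≤d} F_k c 0 k`, `Λ(F(x)) = ∑_{k≤d} F_k c k 0`, `F_0 = 0`, `Λ(P(x)) = ∑_k P_k c k 0`.
(`d = 0` is trivial.) One may represent polynomials in two variables by `Polynomial (Polynomial ℝ)`,
by `MvPolynomial (Fin 2) ℝ`, or work with coefficient sums directly. -/
theorem s_alg (d : ℕ) (c : ℕ → ℕ → ℝ)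
    (hc : ∀ a b, a + b + 1 ≤ d → 0 ≤ c a (b + 1) - c (a + 1) b + c a b) :
    ∑ ab ∈ antidiagonal d, c ab.1 ab.2 +
      ∑ k ∈ Icc 1 d, ((ascPochhammer ℕ (d + 1)).coeff k : ℝ) * (c k 0 - c 0 k) ≤
      (d + 1 : ℝ) * ∑ k ∈ range (d + 1), ((ascPochhammer ℕ d).coeff k : ℝ) * c k 0 := by
  have h1 : ∑ j ∈ range (d + 1), c (d - j) j ≤ ∑ j ∈ range (d + 1), SALG.TT d c j := by
    refine sum_le_sum fun j hj => ?_
    rw [mem_range] at hj
    exact SALG.TT_lower hc (by omega)
  have h2 : ∑ ab ∈ antidiagonal d, c ab.1 ab.2 = ∑ j ∈ range (d + 1), c (d - j) j := by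
    rw [← Finset.Nat.sum_antidiagonal_swap]
    exact Finset.Nat.sum_antidiagonal_eq_sum_range_succ (fun i j => c j i) d
  have hF0 : (SALG.AA (d + 1)).coeff 0 = 0 := by
    rw [SALG.AA_asc, ascPochhammer_succ_left, Polynomial.mul_coeff_zero]
    simp
  have h3 : ∑ k ∈ range (d + 1), (SALG.AA (d + 1)).coeff k * c 0 k =
      ∑ k ∈ Icc 1 d, (SALG.AA (d + 1)).coeff k * c 0 k :=
    SALG.range_Icc d _ (by rw [hF0, zero_mul])
  have h4 : ∑ k ∈ range (d + 1), (SALG.AA (d + 1)).coeff k * c k 0 =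
      ∑ k ∈ Icc 1 d, (SALG.AA (d + 1)).coeff k * c k 0 :=
    SALG.range_Icc d _ (by rw [hF0, zero_mul])
  rw [SALG.TT_sum, SALG.LL_one_left, SALG.LL_one_right, SALG.LL_one_right, h3, h4, ← h2] at h1
  simp only [SALG.AA_asc] at h1
  simp only [mul_sub, sum_sub_distrib]
  linarith

end Pool.Agent.H195L.L01
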