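import Pool.Agent.H195_lech.Spec2

/-!
# Stirling refinement of Lech's inequality (MP_eae75b_ag): finiteness and growth
-/

set_option autoImplicit false

namespace Pool.Agent.H195L.L06

open Finset Filter Topology
open scoped BigOperators

lemma dom (x : E) (m : ℕ) (hm : m ≤ x.degree) : ∃ y ≤ x, y.degree = m := by
  induction m with
  | zero => exact ⟨0, by simp, by simp⟩
  | succ m ih =>
    obtain ⟨y, hy, hd⟩ := ih (by omega)
    have h1 : (x - y) + y = x := tsub_add_cancel_of_le hy
    have h2 : (x - y).degree + y.degree = x.degree := by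
      rw [← map_add, h1]
    have h3 : x - y ≠ 0 := by
      intro h
      rw [h, map_zero] at h2
      omega
    obtain ⟨i, hi⟩ := Finsupp.ne_iff.1 h3
    refine ⟨y + Finsupp.single i 1, ?_, ?_⟩
    · calc y + Finsupp.single i 1 ≤ y + (x - y) := by
            gcongr
            rw [Finsupp.single_le_iff]
            have : (x - y) i ≠ 0 := by simpa using hi
            omega
        _ = x := by rw [add_comm, h1]
    · rw [map_add, hd]
      simp

lemma split (d M : ℕ) (n : ℕ) : ∀ x : E, (∀ j, d ≤ j → x j = 0) → n * M ≤ x.degree →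
    ∃ f : Fin n → E, (∀ i, M ≤ (f i).degree ∧ ∀ j, d ≤ j → (f i) j = 0) ∧ ∑ i, f i ≤ x := by
  induction n with
  | zero => intro x _ _; exact ⟨fun i => i.elim0, fun i => i.elim0, by simp⟩
  | succ n ih =>
    intro x hx hd
    rw [add_mul, one_mul] at hd
    obtain ⟨y, hy, hyd⟩ := dom x M (by omega)
    have h1 : (x - y) + y = x := tsub_add_cancel_of_le hy
    have h2 : (x - y).degree + y.degree = x.degree := by
      rw [← map_add, h1]
    obtain ⟨f, hf, hs⟩ := ih (x - y) (fun j hj => by
      have := hx j hj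
      have h3 : (x - y) j ≤ x j := by simp
      omega) (by omega)
    refine ⟨Fin.cons y f, ?_, ?_⟩
    · intro i
      refine Fin.cases ?_ (fun i => ?_) i
      · refine ⟨by simp [hyd], fun j hj => ?_⟩
        have h3 : y j ≤ x j := hy j
        have := hx j hj
        simp only [Fin.cons_zero]
        omega
      · simpa using hf i
    · rw [Fin.sum_univ_succ]
      simp only [Fin.cons_zero, Fin.cons_succ]
      calc y + ∑ i, f i ≤ y + (x - y) := by gcongr
        _ = x := by rw [add_comm, h1]

lemma coord_le_degree (x : E) (j : ℕ) : x j ≤ x.degree := by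
  by_cases h : j ∈ x.support
  · exact Finset.single_le_sum (f := fun i => x i) (fun i _ => Nat.zero_le _) h
  · rw [Finsupp.notMem_support_iff.1 h]; exact Nat.zero_le _

/-! TARGET (S_GROW), finiteness and growth.
Plain proof. `M` := one more than all degrees of the elements of the finite sets `co d J`, `co d K`; this
gives the first claim. Second claim: a vector `x` supported in `[0,d)` of degree at least
`(α+β) M` is at least a sum of `α+β` vectors of degree `M` (induction on `α+β`: a vector of degree
`≥ M` dominates a vector of degree exactly `M`, e.g. by removing unit vectors one at a time), and each of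
them is in `J` and in `K` by the first claim. Third claim: an element of `co k (ms J K α β)` is supported in
`[0,k) ⊆ [0,d)` and has degree `< (α+β) M` by the second claim, so each of its `k` coordinates is at most
`(α+β) M`; there are at most `((α+β)M+1)^k` such vectors. -/
theorem s_grow (d : ℕ) (J K : Set E) (hJ : IsUpperSet J) (hK : IsUpperSet K)
    (fJ : (co d J).Finite) (fK : (co d K).Finite) :
    ∃ M : ℕ, (∀ x : E, (∀ j, d ≤ j → x j = 0) → M ≤ x.degree → x ∈ J ∧ x ∈ K) ∧
    (∀ α β : ℕ, ∀ x : E, (∀ j, d ≤ j → x j = 0) → (α + β) * M ≤ x.degree → x ∈ ms J K α β) ∧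
    (∀ k α β : ℕ, k ≤ d → (co k (ms J K α β)).Finite ∧ hh k J K α β ≤ ((α + β) * M + 1) ^ k) := by
  obtain ⟨bJ, hbJ⟩ := (fJ.image (fun x : E => x.degree)).bddAbove
  obtain ⟨bK, hbK⟩ := (fK.image (fun x : E => x.degree)).bddAbove
  have key1 : ∀ x : E, (∀ j, d ≤ j → x j = 0) → max bJ bK + 1 ≤ x.degree → x ∈ J ∧ x ∈ K := by
    intro x hx hd
    constructor
    · by_contra hc
      have : x.degree ≤ bJ := hbJ ⟨x, ⟨hx, hc⟩, rfl⟩
      have := le_max_left bJ bK
      omega
    · by_contra hc
      have : x.degree ≤ bK := hbK ⟨x, ⟨hx, hc⟩, rfl⟩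
      have := le_max_right bJ bK
      omega
  have key2 : ∀ α β : ℕ, ∀ x : E, (∀ j, d ≤ j → x j = 0) →
      (α + β) * (max bJ bK + 1) ≤ x.degree → x ∈ ms J K α β := by
    intro α β x hx hd
    obtain ⟨f, hf, hs⟩ := split d (max bJ bK + 1) (α + β) x hx hd
    refine ⟨fun i => f (Fin.castAdd β i), fun i => f (Fin.natAdd α i), fun i => ?_, fun i => ?_, ?_⟩
    · exact (key1 _ (hf _).2 (hf _).1).1
    · exact (key1 _ (hf _).2 (hf _).1).2
    · rw [Fin.sum_univ_add] at hs
      exact hs
  refine ⟨max bJ bK + 1, key1, key2, ?_⟩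
  intro k α β hk
  set B := (α + β) * (max bJ bK + 1) with hB
  have hsub : ∀ x ∈ co k (ms J K α β), (∀ j, k ≤ j → x j = 0) ∧ ∀ j, x j ≤ B := by
    intro x hx
    refine ⟨hx.1, fun j => ?_⟩
    have h1 : ¬ B ≤ x.degree := fun h => hx.2 (key2 α β x (fun j hj => hx.1 j (hk.trans hj)) h)
    have := coord_le_degree x j
    omega
  let φ : E → (Fin k → Fin (B + 1)) := fun x i => ⟨min (x i) B, by omega⟩
  have hinj : Set.InjOn φ (co k (ms J K α β)) := by
    intro x hx y hy hxy
    ext j
    by_cases hj : k ≤ j
    · rw [(hsub x hx).1 j hj, (hsub y hy).1 j hj]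
    · have h1 := congrFun hxy ⟨j, by omega⟩
      have h2 : min (x j) B = min (y j) B := congrArg Fin.val h1
      rw [min_eq_left ((hsub x hx).2 j), min_eq_left ((hsub y hy).2 j)] at h2
      exact h2
  refine ⟨Set.Finite.of_injOn (fun x _ => Set.mem_univ _) hinj Set.finite_univ, ?_⟩
  have h := Set.ncard_le_ncard_of_injOn φ (t := Set.univ) (fun x _ => Set.mem_univ _) hinj
    Set.finite_univ
  rw [Set.ncard_univ, Nat.card_eq_fintype_card, Fintype.card_fun, Fintype.card_fin,
    Fintype.card_fin] at h
  exact h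

end Pool.Agent.H195L.L06
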