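import Pool.Agent.H195_lech.Spec2
import Pool.Agent.H195_lech.L06

/-!
# Stirling refinement of Lech's inequality (MP_eae75b_ag): slicing inequality
-/

set_option autoImplicit false

namespace Pool.Agent.H195L.L02

open Finset Filter Topology
open scoped BigOperators
open Pool.Agent.H195L.L06 (s_grow)



theorem ms_glue (G : Set E) (d t a b : ℕ) (y : E)
    (h : y ∈ ms (slice d t G) (slice d (t + 1) G) a b) :
    y + Finsupp.single d ((a + b) * t + b) ∈ ms G G (a + b) 0 := by
  obtain ⟨f, g, hf, hg, hle⟩ := h
  refine ⟨Fin.append (fun i => f i + Finsupp.single d t) (fun i => g i + Finsupp.single d (t + 1)),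
    fun i => i.elim0, ?_, fun i => i.elim0, ?_⟩
  · intro i
    refine Fin.addCases (fun i => ?_) (fun i => ?_) i
    · rw [Fin.append_left]
      exact hf i
    · rw [Fin.append_right]
      exact hg i
  · rw [Fin.sum_univ_add]
    simp only [Fin.append_left, Fin.append_right, Finset.univ_eq_empty, Finset.sum_empty, add_zero,
      Finset.sum_add_distrib, Finset.sum_const, Finset.card_univ, Fintype.card_fin]
    have h1 : (∑ i, f i + a • (Finsupp.single d t : E)) + (∑ i, g i + b • Finsupp.single d (t + 1)) =
        (∑ i, f i + ∑ i, g i) + Finsupp.single d ((a + b) * t + b) := by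
      rw [Finsupp.smul_single, Finsupp.smul_single, add_add_add_comm, ← Finsupp.single_add]
      congr 2
      simp only [smul_eq_mul]
      ring
    rw [h1]
    exact add_le_add_left hle _

/-! TARGET (S_M1), the slicing inequality.
Plain proof. If `N = 0` the left side is `0` (`ms G G 0 0 = univ`). Let `N ≥ 1`. Let `x` be supported in
`[0,d]`, `x ∉ N G` (i.e. `x ∉ ms G G N 0`), `u = x d`, `x'` = `x` with the coordinate `d` erased.
Then `u < N T`, since otherwise `x ≥ N • single d T` which is a sum of `N` elements of `G`.
Write `u = N t + s`, `t < T`, `s < N`. Then `x' ∉ ms (slice d t G) (slice d (t+1) G) (N-s) s`: if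
`x' ≥ ∑ f + ∑ g` with `N - s` elements `f i` of `slice d t G` and `s` elements `g i` of
`slice d (t+1) G` then `x = x' + single d u ≥ ∑ (f i + single d t) + ∑ (g i + single d (t+1))`,
a sum of `N` elements of `G`, as `(N-s) t + s (t+1) = u`. The map
`x ↦ (t, s, x')` is injective, and the sets `co d (ms (slice d t G) (slice d (t+1) G) (N-s) s)` are
finite (`s_grow` for `d` and the slices, which are upper sets, and `co d (slice d t G)` is finite as
`x ↦ x + single d t` maps it injectively into `co (d+1) G`). Count. -/
theorem s_m1 (d T : ℕ) (G : Set E) (hG : IsUpperSet G) (fG : (co (d + 1) G).Finite)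
    (hT : Finsupp.single d T ∈ G) (N : ℕ) :
    hh (d + 1) G G N 0 ≤ ∑ t ∈ range T, ∑ s ∈ range N,
      hh d (slice d t G) (slice d (t + 1) G) (N - s) s := by
  have hslU : ∀ t, IsUpperSet (slice d t G) := by
    intro t a b hab ha
    exact hG (add_le_add_left hab _) ha
  have hslF : ∀ t, (co d (slice d t G)).Finite := by
    intro t
    have hinj : Set.InjOn (fun x : E => x + Finsupp.single d t) (co d (slice d t G)) := by
      intro a _ b _ hab
      exact add_right_cancel hab
    refine Set.Finite.of_finite_image (fG.subset ?_) hinj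
    rintro _ ⟨x, hx, rfl⟩
    refine ⟨fun j hj => ?_, hx.2⟩
    have h1 : x j = 0 := hx.1 j (by omega)
    have h2 : (Finsupp.single d t : E) j = 0 := Finsupp.single_eq_of_ne (by omega)
    show (x + Finsupp.single d t) j = 0
    rw [Finsupp.add_apply, h1, h2]
  have hfin : ∀ t a b, (co d (ms (slice d t G) (slice d (t + 1) G) a b)).Finite := by
    intro t a b
    obtain ⟨M, _, _, h3⟩ := s_grow d _ _ (hslU t) (hslU (t + 1)) (hslF t) (hslF (t + 1))
    exact (h3 d a b le_rfl).1
  have hsub : co (d + 1) (ms G G N 0) ⊆ ⋃ t ∈ range T, ⋃ s ∈ range N,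
      (fun x : E => x + Finsupp.single d (N * t + s)) ''
        (co d (ms (slice d t G) (slice d (t + 1) G) (N - s) s)) := by
    intro x hx
    have hu : x d < N * T := by
      by_contra hcon
      push Not at hcon
      apply hx.2
      refine ⟨fun _ => Finsupp.single d T, fun i => i.elim0, fun _ => hT, fun i => i.elim0, ?_⟩
      intro j
      simp only [Finset.sum_const, Finset.card_univ, Fintype.card_fin, Finset.univ_eq_empty,
        Finset.sum_empty, add_zero, Finsupp.smul_apply, smul_eq_mul]
      by_cases hj : j = d
      · subst hj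
        rw [Finsupp.single_eq_same]
        exact hcon
      · rw [Finsupp.single_eq_of_ne hj]
        simp
    have hN : 0 < N := by
      rcases Nat.eq_zero_or_pos N with h | h
      · subst h
        simp at hu
      · exact h
    have ht : x d / N < T := Nat.div_lt_of_lt_mul hu
    have hs : x d % N < N := Nat.mod_lt _ hN
    have hx' : x.erase d + Finsupp.single d (x d) = x := Finsupp.erase_add_single d x
    simp only [Set.mem_iUnion, Set.mem_image, Finset.mem_range]
    refine ⟨x d / N, ht, x d % N, hs, x.erase d, ⟨fun j hj => ?_, ?_⟩, ?_⟩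
    · by_cases h : j = d
      · subst h
        exact Finsupp.erase_same
      · rw [Finsupp.erase_ne h]
        exact hx.1 j (by omega)
    · rintro ⟨f, g, hf, hg, hle⟩
      apply hx.2
      generalize htt : x d / N = t at *
      generalize hss : x d % N = s at *
      have hdm : N * t + s = x d := by
        rw [← htt, ← hss]
        exact Nat.div_add_mod (x d) N
      have hm : x.erase d ∈ ms (slice d t G) (slice d (t + 1) G) (N - s) s := ⟨f, g, hf, hg, hle⟩
      have h1 := ms_glue G d t (N - s) s (x.erase d) hm
      have h2 : N - s + s = N := Nat.sub_add_cancel hs.le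
      rw [h2, hdm, hx'] at h1
      exact h1
    · show x.erase d + Finsupp.single d (N * (x d / N) + x d % N) = x
      rw [Nat.div_add_mod]
      exact hx'
  have hbig : (⋃ t ∈ range T, ⋃ s ∈ range N,
      (fun x : E => x + Finsupp.single d (N * t + s)) ''
        (co d (ms (slice d t G) (slice d (t + 1) G) (N - s) s))).Finite := by
    refine Set.Finite.biUnion (Finset.finite_toSet _) fun t _ => ?_
    refine Set.Finite.biUnion (Finset.finite_toSet _) fun s _ => ?_
    exact (hfin t (N - s) s).image _
  calc hh (d + 1) G G N 0 ≤ _ := Set.ncard_le_ncard hsub hbig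
    _ ≤ ∑ t ∈ range T, (⋃ s ∈ range N,
      (fun x : E => x + Finsupp.single d (N * t + s)) ''
        (co d (ms (slice d t G) (slice d (t + 1) G) (N - s) s))).ncard :=
        Finset.set_ncard_biUnion_le _ _
    _ ≤ _ := by
      refine Finset.sum_le_sum fun t _ => ?_
      refine (Finset.set_ncard_biUnion_le _ _).trans ?_
      refine Finset.sum_le_sum fun s _ => ?_
      exact Set.ncard_image_le (hfin t (N - s) s)

end Pool.Agent.H195L.L02
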