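import Pool.Agent.H195_lech.Spec2

/-!
# Stirling refinement of Lech's inequality (MP_eae75b_ag): counting outside an upper set
-/

set_option autoImplicit false

namespace Pool.Agent.H195L.L03

open Finset Filter Topology
open scoped BigOperators


/-- `m f w p` -/
def mm (f w p : ℕ) : ℕ := if w ≤ p then Nat.multichoose f (p - w) else 0

theorem mm_shift (f w j p : ℕ) : (if j ≤ p then mm f w (p - j) else 0) = mm f (w + j) p := by
  unfold mm
  by_cases h1 : j ≤ p
  · rw [if_pos h1]
    by_cases h2 : w + j ≤ p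
    · rw [if_pos h2, if_pos (by omega), show p - j - w = p - (w + j) by omega]
    · rw [if_neg h2, if_neg (by omega)]
  · rw [if_neg h1, if_neg (by omega)]

theorem mm_succ (f w p : ℕ) : mm (f + 1) w (p + 1) = mm f w (p + 1) + mm (f + 1) w p := by
  unfold mm
  rcases lt_trichotomy w (p + 1) with h | h | h
  · rw [if_pos (by omega), if_pos (by omega), if_pos (by omega),
      show p + 1 - w = (p - w) + 1 by omega, Nat.multichoose_succ_succ]
  · subst h
    rw [if_pos le_rfl, if_pos le_rfl, if_neg (by omega)]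
    simp
  · rw [if_neg (by omega), if_neg (by omega), if_neg (by omega)]

theorem mm_sum (f w p : ℕ) : ∑ x ∈ range (p + 1), mm f w (p - x) = mm (f + 1) w p := by
  have h1 : ∑ x ∈ range (p + 1), mm f w (p - x) = ∑ x ∈ range (p + 1), mm f w x := by
    rw [← Finset.sum_range_reflect]
    refine Finset.sum_congr rfl fun x hx => ?_
    rw [Finset.mem_range] at hx
    congr 1
    omega
  rw [h1]
  induction p with
  | zero =>
    rw [Finset.sum_range_one]
    unfold mm
    by_cases h : w ≤ 0
    · have : w = 0 := by omega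
      subst this
      simp
    · rw [if_neg h, if_neg h]
  | succ p ih =>
    rw [Finset.sum_range_succ, ih (by
      rw [← Finset.sum_range_reflect]
      refine Finset.sum_congr rfl fun x hx => ?_
      rw [Finset.mem_range] at hx
      congr 1
      omega), mm_succ]
    ring

/-- the class of functions -/
def InS (h : ℕ → ℕ → ℕ) : Prop := ∃ L : List (ℕ × ℕ × ℕ × ℕ), ∀ p q,
  h p q = (L.map fun t => mm t.1 t.2.1 p * mm t.2.2.1 t.2.2.2 q).sum

theorem InS.congr {h h' : ℕ → ℕ → ℕ} (hh : InS h) (e : ∀ p q, h' p q = h p q) : InS h' := by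
  obtain ⟨L, hL⟩ := hh
  exact ⟨L, fun p q => (e p q).trans (hL p q)⟩

theorem InS.zero : InS fun _ _ => 0 := ⟨[], fun p q => by simp⟩

theorem InS.add {h h' : ℕ → ℕ → ℕ} (hh : InS h) (hh' : InS h') : InS fun p q => h p q + h' p q := by
  obtain ⟨L, hL⟩ := hh
  obtain ⟨L', hL'⟩ := hh'
  exact ⟨L ++ L', fun p q => by simp only [hL, hL', List.map_append, List.sum_append]⟩

theorem InS.fsum {h : ℕ → ℕ → ℕ → ℕ} (n : ℕ) (hh : ∀ j, j < n → InS (h j)) :
    InS fun p q => ∑ j ∈ range n, h j p q := by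
  induction n with
  | zero => exact InS.zero.congr fun p q => by simp
  | succ n ih =>
    refine ((ih fun j hj => hh j (by omega)).add (hh n (by omega))).congr fun p q => ?_
    rw [Finset.sum_range_succ]

theorem InS.swap {h : ℕ → ℕ → ℕ} (hh : InS h) : InS fun p q => h q p := by
  obtain ⟨L, hL⟩ := hh
  refine ⟨L.map fun t => (t.2.2.1, t.2.2.2, t.1, t.2.1), fun p q => ?_⟩
  have e1 := hL q p
  dsimp only at e1 ⊢
  rw [e1, List.map_map]
  congr 1
  refine List.map_congr_left fun t _ => ?_
  simp only [Function.comp]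
  ring

theorem list_sum_if {α : Type} (c : Prop) [Decidable c] (L : List α) (F : α → ℕ) :
    (if c then (L.map F).sum else 0) = (L.map fun t => if c then F t else 0).sum := by
  by_cases h : c
  · simp [h]
  · simp [h]

theorem InS.shift {h : ℕ → ℕ → ℕ} (hh : InS h) (j : ℕ) :
    InS fun p q => if j ≤ p then h (p - j) q else 0 := by
  obtain ⟨L, hL⟩ := hh
  refine ⟨L.map fun t => (t.1, t.2.1 + j, t.2.2.1, t.2.2.2), fun p q => ?_⟩
  have e1 := hL (p - j) q
  dsimp only at e1 ⊢
  rw [e1, list_sum_if, List.map_map]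
  congr 1
  refine List.map_congr_left fun t _ => ?_
  simp only [Function.comp]
  rw [← mm_shift]
  by_cases hc : j ≤ p
  · rw [if_pos hc, if_pos hc]
  · rw [if_neg hc, if_neg hc, zero_mul]

theorem list_sum_comm {α : Type} (s : Finset ℕ) (L : List α) (F : ℕ → α → ℕ) :
    ∑ x ∈ s, (L.map (F x)).sum = (L.map fun t => ∑ x ∈ s, F x t).sum := by
  induction L with
  | nil => simp
  | cons a L ih =>
    simp only [List.map_cons, List.sum_cons, Finset.sum_add_distrib, ih]

theorem InS.cum {h : ℕ → ℕ → ℕ} (hh : InS h) :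
    InS fun p q => ∑ x ∈ range (p + 1), h (p - x) q := by
  obtain ⟨L, hL⟩ := hh
  refine ⟨L.map fun t => (t.1 + 1, t.2.1, t.2.2.1, t.2.2.2), fun p q => ?_⟩
  simp only [hL]
  rw [list_sum_comm, List.map_map]
  congr 1
  refine List.map_congr_left fun t _ => ?_
  simp only [Function.comp]
  rw [← Finset.sum_mul, mm_sum]

/-- the counting set -/
def cset {r : ℕ} (c : Fin r → Bool) (U : Set (Fin r → ℕ)) (p q : ℕ) : Set (Fin r → ℕ) :=
  {a | ∑ i, (if c i then a i else 0) = p ∧ ∑ i, (if c i then 0 else a i) = q ∧ a ∉ U}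

theorem cset_finite {r : ℕ} (c : Fin r → Bool) (U : Set (Fin r → ℕ)) (p q : ℕ) :
    (cset c U p q).Finite := by
  refine Set.Finite.subset (Set.Finite.pi' (t := fun _ : Fin r => Set.Iic (p + q)) fun _ =>
    Set.finite_Iic _) ?_
  rintro a ⟨h1, h2, -⟩ i
  have h3 : (if c i then a i else 0) ≤ p := by
    rw [← h1]
    exact Finset.single_le_sum (f := fun i => if c i then a i else 0) (fun _ _ => Nat.zero_le _)
      (Finset.mem_univ i)
  have h4 : (if c i then 0 else a i) ≤ q := by
    rw [← h2]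
    exact Finset.single_le_sum (f := fun i => if c i then 0 else a i) (fun _ _ => Nat.zero_le _)
      (Finset.mem_univ i)
  change a i ≤ p + q
  by_cases hc : c i
  · rw [if_pos hc] at h3
    omega
  · rw [if_neg hc] at h4
    omega

theorem cset_swap {r : ℕ} (c : Fin r → Bool) (U : Set (Fin r → ℕ)) (p q : ℕ) :
    cset c U p q = cset (fun i => !(c i)) U q p := by
  ext a
  simp only [cset, Set.mem_ofPred_eq]
  have h1 : ∀ i, (if (!(c i)) = true then a i else 0) = (if c i = true then 0 else a i) := by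
    intro i
    cases c i <;> simp
  have h2 : ∀ i, (if (!(c i)) = true then 0 else a i) = (if c i = true then a i else 0) := by
    intro i
    cases c i <;> simp
  simp only [h1, h2]
  tauto

/-- the slices -/
def slice {r : ℕ} (U : Set (Fin (r + 1) → ℕ)) (j : ℕ) : Set (Fin r → ℕ) :=
  {a | (Fin.cons j a : Fin (r + 1) → ℕ) ∈ U}

theorem slice_upper {r : ℕ} {U : Set (Fin (r + 1) → ℕ)} (hU : IsUpperSet U) (j : ℕ) :
    IsUpperSet (slice U j) := by
  intro a b hab ha
  refine hU ?_ ha
  intro i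
  refine Fin.cases ?_ (fun i => ?_) i
  · simp
  · simpa using hab i

theorem slice_mono {r : ℕ} {U : Set (Fin (r + 1) → ℕ)} (hU : IsUpperSet U) {j k : ℕ}
    (hjk : j ≤ k) : slice U j ⊆ slice U k := by
  intro a ha
  refine hU ?_ ha
  intro i
  refine Fin.cases ?_ (fun i => ?_) i
  · simpa using hjk
  · simp

theorem stabilise {r : ℕ} (V : ℕ → Set (Fin r → ℕ)) (hV : ∀ j, IsUpperSet (V j))
    (hm : ∀ j k, j ≤ k → V j ⊆ V k) : ∃ j₀, ∀ j, j₀ ≤ j → V j = V j₀ := by
  by_contra hcon
  push Not at hcon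
  have h1 : ∀ j, ∃ k, j < k ∧ ∃ x, x ∈ V k ∧ x ∉ V j := by
    intro j
    obtain ⟨k, hk, hne⟩ := hcon j
    have h2 : j < k := by
      rcases hk.lt_or_eq with h | h
      · exact h
      · exact absurd (by rw [h]) hne
    refine ⟨k, h2, ?_⟩
    by_contra h3
    push Not at h3
    exact hne (Set.Subset.antisymm h3 (hm j k hk))
  choose g hg x hx1 hx2 using h1
  let s : ℕ → ℕ := fun n => Nat.rec 0 (fun _ m => g m) n
  have hs : ∀ n, s (n + 1) = g (s n) := fun n => rfl
  have hsm : StrictMono s := strictMono_nat_of_lt_succ fun n => by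
    rw [hs]
    exact hg _
  obtain ⟨m, n, hmn, hle⟩ := (wellQuasiOrdered_le : WellQuasiOrdered
    (fun a b : Fin r → ℕ => a ≤ b)) (fun n => x (s n))
  have h4 : x (s m) ∈ V (s n) := by
    have h5 : x (s m) ∈ V (g (s m)) := hx1 (s m)
    rw [← hs] at h5
    exact hm _ _ (hsm.monotone (by omega : m + 1 ≤ n)) h5
  exact hx2 (s n) (hV _ hle h4)

theorem ncard_cset_succ {r : ℕ} (c : Fin (r + 1) → Bool) (hc : c 0 = true)
    (U : Set (Fin (r + 1) → ℕ)) (p q : ℕ) :
    (cset c U p q).ncard =
      ∑ j ∈ range (p + 1), (cset (fun i => c i.succ) (slice U j) (p - j) q).ncard := by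
  have key : cset c U p q =
      ⋃ j ∈ range (p + 1), (fun a : Fin r → ℕ => (Fin.cons j a : Fin (r + 1) → ℕ)) ''
        (cset (fun i => c i.succ) (slice U j) (p - j) q) := by
    ext a
    simp only [Set.mem_iUnion, Set.mem_image, exists_prop, Finset.mem_range]
    constructor
    · rintro ⟨h1, h2, h3⟩
      rw [Fin.sum_univ_succ, hc] at h1 h2
      simp only [if_true] at h1 h2
      have h1' : ∑ i : Fin r, (if (fun i : Fin r => c i.succ) i = true then
          (fun i : Fin r => a i.succ) i else 0) = p - a 0 := by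
        dsimp only
        omega
      have h2' : ∑ i : Fin r, (if (fun i : Fin r => c i.succ) i = true then 0 else
          (fun i : Fin r => a i.succ) i) = q := by
        dsimp only
        omega
      refine ⟨a 0, by omega, fun i => a i.succ, ⟨h1', h2', ?_⟩, ?_⟩
      · intro h4
        apply h3
        have h5 : (Fin.cons (a 0) (fun i => a i.succ) : Fin (r + 1) → ℕ) ∈ U := h4
        have h6 : (Fin.cons (a 0) (fun i => a i.succ) : Fin (r + 1) → ℕ) = a := Fin.cons_self_tail a
        rwa [h6] at h5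
      · exact Fin.cons_self_tail a
    · rintro ⟨j, hj, b, ⟨h1, h2, h3⟩, rfl⟩
      dsimp only at h1 h2
      refine ⟨?_, ?_, h3⟩
      · rw [Fin.sum_univ_succ, hc]
        simp only [if_true, Fin.cons_zero, Fin.cons_succ]
        omega
      · rw [Fin.sum_univ_succ, hc]
        simp only [if_true, Fin.cons_zero, Fin.cons_succ]
        omega
  have hinj : ∀ j : ℕ, Function.Injective
      (fun a : Fin r → ℕ => (Fin.cons j a : Fin (r + 1) → ℕ)) := fun j =>
    Fin.cons_right_injective (α := fun _ => ℕ) j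
  have hfin : ∀ j : ℕ, ((fun a : Fin r → ℕ => (Fin.cons j a : Fin (r + 1) → ℕ)) ''
        (cset (fun i => c i.succ) (slice U j) (p - j) q)).Finite := fun j =>
    (cset_finite _ _ _ _).image _
  have hdisj : (↑(range (p + 1)) : Set ℕ).PairwiseDisjoint fun j =>
      (fun a : Fin r → ℕ => (Fin.cons j a : Fin (r + 1) → ℕ)) ''
        (cset (fun i => c i.succ) (slice U j) (p - j) q) := by
    intro j _ k _ hjk
    rw [Function.onFun, Set.disjoint_left]
    rintro a ⟨b, _, rfl⟩ ⟨b', _, hb'⟩
    have h1 := congrFun hb' 0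
    simp only [Fin.cons_zero] at h1
    exact hjk h1.symm
  have h1 := Set.Finite.ncard_biUnion (Finset.finite_toSet (range (p + 1)))
    (fun j _ => hfin j) hdisj
  rw [finsum_mem_coe_finset] at h1
  simp only [Finset.mem_coe] at h1
  rw [key, h1]
  refine Finset.sum_congr rfl fun j _ => ?_
  exact Set.ncard_image_of_injective _ (hinj j)

theorem inS_true {r : ℕ} (ih : ∀ (c : Fin r → Bool) (U : Set (Fin r → ℕ)), IsUpperSet U →
    InS fun p q => (cset c U p q).ncard) (c : Fin (r + 1) → Bool) (hc : c 0 = true)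
    (U : Set (Fin (r + 1) → ℕ)) (hU : IsUpperSet U) : InS fun p q => (cset c U p q).ncard := by
  obtain ⟨j₀, hj₀⟩ := stabilise (slice U) (slice_upper hU) fun j k h => slice_mono hU h
  set H : ℕ → ℕ → ℕ → ℕ := fun j p q => (cset (fun i => c i.succ) (slice U j) p q).ncard with hH
  have hHS : ∀ j, InS (H j) := fun j => ih _ _ (slice_upper hU j)
  have hHc : ∀ j, j₀ ≤ j → H j = H j₀ := fun j hj => by
    simp only [hH, hj₀ j hj]
  have h1 : InS fun p q => ∑ j ∈ range j₀, if j ≤ p then H j (p - j) q else 0 :=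
    InS.fsum (h := fun j p q => if j ≤ p then H j (p - j) q else 0) j₀ fun j _ => (hHS j).shift j
  have h2 : InS fun p q => if j₀ ≤ p then
      (fun p q => ∑ x ∈ range (p + 1), H j₀ (p - x) q) (p - j₀) q else 0 := ((hHS j₀).cum).shift j₀
  refine (h1.add h2).congr fun p q => ?_
  rw [ncard_cset_succ c hc]
  change ∑ j ∈ range (p + 1), H j (p - j) q = _
  simp only
  by_cases hp : j₀ ≤ p
  · rw [if_pos hp]
    have h3 : p + 1 = j₀ + (p - j₀ + 1) := by omega
    rw [h3, Finset.sum_range_add]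
    congr 1
    · refine Finset.sum_congr rfl fun j hj => ?_
      rw [Finset.mem_range] at hj
      rw [if_pos (by omega)]
    · refine Finset.sum_congr rfl fun x hx => ?_
      rw [hHc _ (by omega), show p - (j₀ + x) = p - j₀ - x by omega]
  · rw [if_neg hp, add_zero]
    push Not at hp
    have h3 : j₀ = (p + 1) + (j₀ - (p + 1)) := by omega
    conv_rhs => rw [h3]
    rw [Finset.sum_range_add (fun j => if j ≤ p then H j (p - j) q else 0)]
    have h4 : ∑ x ∈ range (j₀ - (p + 1)),
        (if p + 1 + x ≤ p then H (p + 1 + x) (p - (p + 1 + x)) q else 0) = 0 := by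
      refine Finset.sum_eq_zero fun x _ => ?_
      rw [if_neg (by omega)]
    rw [h4, add_zero]
    refine Finset.sum_congr rfl fun j hj => ?_
    rw [Finset.mem_range] at hj
    rw [if_pos (by omega)]

theorem inS_all (r : ℕ) : ∀ (c : Fin r → Bool) (U : Set (Fin r → ℕ)), IsUpperSet U →
    InS fun p q => (cset c U p q).ncard := by
  induction r with
  | zero =>
    intro c U _
    by_cases hU : (fun i => i.elim0 : Fin 0 → ℕ) ∈ U
    · refine InS.zero.congr fun p q => ?_
      have : cset c U p q = ∅ := by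
        ext a
        simp only [cset, Set.mem_ofPred_eq, Set.mem_empty_iff_false, iff_false]
        rintro ⟨-, -, h⟩
        exact h (by rwa [Subsingleton.elim a (fun i => i.elim0)])
      rw [this, Set.ncard_empty]
    · refine ⟨[(0, 0, 0, 0)], fun p q => ?_⟩
      have h1 : cset c U p q = if p = 0 ∧ q = 0 then Set.univ else ∅ := by
        ext a
        by_cases hpq : p = 0 ∧ q = 0
        · rw [if_pos hpq]
          simp only [cset, Set.mem_ofPred_eq, Set.mem_univ, iff_true]
          refine ⟨by simp [hpq.1], by simp [hpq.2], ?_⟩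
          rwa [Subsingleton.elim a (fun i => i.elim0)]
        · rw [if_neg hpq]
          simp only [cset, Set.mem_ofPred_eq, Set.mem_empty_iff_false, iff_false]
          rintro ⟨h2, h3, -⟩
          apply hpq
          simp only [Finset.univ_eq_empty, Finset.sum_empty] at h2 h3
          exact ⟨h2.symm, h3.symm⟩
      dsimp only
      rw [h1]
      simp only [List.map_cons, List.map_nil, List.sum_cons, List.sum_nil, add_zero, mm,
        Nat.zero_le, if_true, Nat.sub_zero]
      rcases Nat.eq_zero_or_pos p with hp | hp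
      · rcases Nat.eq_zero_or_pos q with hq | hq
        · subst hp
          subst hq
          simp
        · obtain ⟨q', rfl⟩ : ∃ q', q = q' + 1 := ⟨q - 1, by omega⟩
          simp
      · obtain ⟨p', rfl⟩ : ∃ p', p = p' + 1 := ⟨p - 1, by omega⟩
        simp
  | succ r ih =>
    intro c U hU
    by_cases hc : c 0 = true
    · exact inS_true ih c hc U hU
    · have h1 := (inS_true ih (fun i => !(c i)) (by simpa using hc) U hU).swap
      refine h1.congr fun p q => ?_
      rw [cset_swap]

/-- eventual combinations, with padding -/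
def NNs (h : ℕ → ℕ → ℕ) : Prop := ∃ (L : ℕ) (γ : ℕ → ℕ → ℕ), ∀ L', L ≤ L' → ∀ α β : ℕ,
  h α β = ∑ a ∈ range L', ∑ b ∈ range L', γ a b * (α.choose a * β.choose b)

/-- one variable version -/
def N1 (h : ℕ → ℕ) : Prop := ∃ (L : ℕ) (γ : ℕ → ℕ), ∀ L', L ≤ L' → ∀ α : ℕ,
  h α = ∑ a ∈ range L', γ a * α.choose a

theorem N1.mul {g h : ℕ → ℕ} (hg : N1 g) (hh : N1 h) : NNs fun α β => g α * h β := by
  obtain ⟨L, γ, h1⟩ := hg
  obtain ⟨M, δ, h2⟩ := hh
  refine ⟨max L M, fun a b => γ a * δ b, fun L' hL' α β => ?_⟩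
  have e1 := h1 L' ((le_max_left _ _).trans hL') α
  have e2 := h2 L' ((le_max_right _ _).trans hL') β
  dsimp only at e1 e2 ⊢
  rw [e1, e2, Finset.sum_mul_sum]
  refine Finset.sum_congr rfl fun a _ => Finset.sum_congr rfl fun b _ => ?_
  ring

theorem NNs.add {g h : ℕ → ℕ → ℕ} (hg : NNs g) (hh : NNs h) : NNs fun α β => g α β + h α β := by
  obtain ⟨L, γ, h1⟩ := hg
  obtain ⟨M, δ, h2⟩ := hh
  refine ⟨max L M, fun a b => γ a b + δ a b, fun L' hL' α β => ?_⟩
  have e1 := h1 L' ((le_max_left _ _).trans hL') α β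
  have e2 := h2 L' ((le_max_right _ _).trans hL') α β
  dsimp only at e1 e2 ⊢
  rw [e1, e2, ← Finset.sum_add_distrib]
  refine Finset.sum_congr rfl fun a _ => ?_
  rw [← Finset.sum_add_distrib]
  refine Finset.sum_congr rfl fun b _ => ?_
  ring

theorem NNs.zero : NNs fun _ _ => 0 := ⟨0, fun _ _ => 0, fun L' _ α β => by simp⟩

theorem n1_mm (f w N : ℕ) (h : w < N) : N1 fun α => mm f w (N + α) := by
  rcases Nat.eq_zero_or_pos f with hf | hf
  · subst hf
    refine ⟨0, fun _ => 0, fun L' _ α => ?_⟩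
    unfold mm
    dsimp only
    rw [if_pos (by omega)]
    obtain ⟨k, hk⟩ : ∃ k, N + α - w = k + 1 := ⟨N + α - w - 1, by omega⟩
    rw [hk, Nat.multichoose_zero_succ]
    simp
  · obtain ⟨g, rfl⟩ : ∃ g, f = g + 1 := ⟨f - 1, by omega⟩
    refine ⟨g + 1, fun a => if a ≤ g then (g + (N - w)).choose (g - a) else 0,
      fun L' hL' α => ?_⟩
    unfold mm
    dsimp only
    rw [if_pos (by omega), Nat.multichoose_eq,
      show g + 1 + (N + α - w) - 1 = (g + (N - w)) + α by omega]
    have h1 : ((g + (N - w)) + α).choose (N + α - w) = ((g + (N - w)) + α).choose g := by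
      rw [← Nat.choose_symm (by omega : N + α - w ≤ (g + (N - w)) + α)]
      congr 1
      omega
    rw [h1, Nat.add_choose_eq, Finset.Nat.sum_antidiagonal_eq_sum_range_succ_mk,
      ← Finset.sum_range_reflect]
    have h2 : ∑ a ∈ range L', (if a ≤ g then (g + (N - w)).choose (g - a) else 0) * α.choose a =
        ∑ a ∈ range (g + 1),
          (if a ≤ g then (g + (N - w)).choose (g - a) else 0) * α.choose a := by
      refine (Finset.sum_subset (Finset.range_mono hL') fun a _ ha => ?_).symm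
      rw [Finset.mem_range] at ha
      rw [if_neg (by omega), zero_mul]
    rw [h2]
    refine Finset.sum_congr rfl fun a ha => ?_
    rw [Finset.mem_range] at ha
    simp only
    rw [if_pos (by omega), show g + 1 - 1 - a = g - a by omega, show g - (g - a) = a by omega]

theorem InS.nn {h : ℕ → ℕ → ℕ} (hh : InS h) : ∃ N₀ : ℕ, ∀ N, N₀ ≤ N →
    NNs fun α β => h (N + α) (N + β) := by
  obtain ⟨L, hL⟩ := hh
  have key : ∀ L : List (ℕ × ℕ × ℕ × ℕ), ∃ N₀ : ℕ, ∀ N, N₀ ≤ N → NNs fun α β =>
      (L.map fun t => mm t.1 t.2.1 (N + α) * mm t.2.2.1 t.2.2.2 (N + β)).sum := by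
    intro L
    induction L with
    | nil => exact ⟨0, fun N _ => by simpa using NNs.zero⟩
    | cons t L ih =>
      obtain ⟨N₀, hN₀⟩ := ih
      refine ⟨max N₀ (max (t.2.1 + 1) (t.2.2.2 + 1)), fun N hN => ?_⟩
      simp only [List.map_cons, List.sum_cons]
      exact ((n1_mm t.1 t.2.1 N (by omega)).mul (n1_mm t.2.2.1 t.2.2.2 N (by omega))).add
        (hN₀ N (by omega))
  obtain ⟨N₀, hN₀⟩ := key L
  refine ⟨N₀, fun N hN => ?_⟩
  simp only [hL]
  exact hN₀ N hN

/-! TARGET (S_STAN), counting outside an upper set (a Stanley decomposition, at the level of counting).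
Plain proof. For `f w p : ℕ` let `m f w p = if w ≤ p then Nat.multichoose f (p - w) else 0`. Let `𝒮` be the
class of functions `h p q = ∑_{(f₁,w₁,f₂,w₂) ∈ L} m f₁ w₁ p * m f₂ w₂ q`, `L` a finite list.
(1) Claim: for every coloring of `Fin r` by two colours and every upper set `U` of `Fin r → ℕ` the function
`h p q = #{a ∉ U, the sum of `a` over colour 1 is p, over colour 2 is q}` is in `𝒮`. Induction on `r`.
`r = 0`: `h = 0` or `h p q = m 0 0 p * m 0 0 q` (`Nat.multichoose 0 0 = 1`, `Nat.multichoose 0 (n+1) = 0`).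
Step: let the last coordinate have colour 1 (say). The slices `U_j = {a' | (a', j) ∈ U}` are upper sets,
increasing in `j`, and stabilise: `U_j = U_{j₀}` for `j ≥ j₀` (Dickson: `⋃ U_j` is an upper set, so it is
generated by finitely many minimal elements, `Set.isPWO`/well-quasi-order of `Fin r → ℕ`; see the proof of
`evPoly_image` in the starting tree file Pool/Agent/R686/MU/Ex1.lean for the generation by minimal
elements). Then `h p q = ∑_{j<j₀} [j ≤ p] h_j (p-j) q + ∑_{j₀ ≤ j ≤ p} h_{j₀} (p-j) q`, and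
`[j ≤ p] m f w (p-j) = m f (w+j) p`, `∑_{j₀ ≤ j ≤ p} m f w (p-j) = m (f+1) (w+j₀) p` (hockey stick for
`multichoose`). The same with colour 2.
(2) Every function in `𝒮` satisfies `NN`: let `N₀` be larger than all `w`. For `N ≥ N₀`,
`m f w (N+α) = multichoose f (N-w+α)`, which is `0` for `f = 0` and for `f = g+1` is
`choose (N-w+g+α) g = ∑_{a ≤ g} choose (N-w+g) (g-a) * choose α a` (`Nat.add_choose_eq`, Vandermonde). `NN` functions
are closed under finite sums (pad `γ` by zeros to a common `L`).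
(3) Transfer from `Fin r` (or do the induction directly on finite types) to `ι₁ ⊕ ι₂`. -/
theorem s_stan (ι₁ ι₂ : Type) [Fintype ι₁] [Fintype ι₂] (U : Set (ι₁ ⊕ ι₂ → ℕ)) (hU : IsUpperSet U) :
    NN fun p q => {a : ι₁ ⊕ ι₂ → ℕ |
      ∑ i, a (Sum.inl i) = p ∧ ∑ i, a (Sum.inr i) = q ∧ a ∉ U}.ncard := by
  classical
  let e : Fin (Fintype.card (ι₁ ⊕ ι₂)) ≃ ι₁ ⊕ ι₂ := (Fintype.equivFin (ι₁ ⊕ ι₂)).symm
  let c : Fin (Fintype.card (ι₁ ⊕ ι₂)) → Bool := fun i => (e i).isLeft
  let V : Set (Fin (Fintype.card (ι₁ ⊕ ι₂)) → ℕ) := {a | (fun x => a (e.symm x)) ∈ U}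
  have hV : IsUpperSet V := by
    intro a b hab ha
    exact hU (fun x => hab (e.symm x)) ha
  obtain ⟨N₀, hN₀⟩ := (inS_all _ c V hV).nn
  refine ⟨N₀, fun N hN => ?_⟩
  obtain ⟨L, γ, hγ⟩ := hN₀ N hN
  refine ⟨L, γ, fun α β => ?_⟩
  rw [← hγ L le_rfl α β]
  dsimp only
  have hinj : Function.Injective (fun (a : Fin (Fintype.card (ι₁ ⊕ ι₂)) → ℕ) (x : ι₁ ⊕ ι₂) =>
      a (e.symm x)) := by
    intro a b hab
    funext i
    have := congrFun hab (e i)
    simpa using this
  rw [← Set.ncard_image_of_injective (cset c V (N + α) (N + β)) hinj]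
  congr 1
  ext a
  simp only [Set.mem_image, cset, Set.mem_ofPred_eq]
  have hsum1 : ∀ b : Fin (Fintype.card (ι₁ ⊕ ι₂)) → ℕ,
      ∑ i, (if c i then b i else 0) = ∑ i : ι₁, b (e.symm (Sum.inl i)) := by
    intro b
    rw [← Equiv.sum_comp e.symm, Fintype.sum_sum_type]
    simp [c]
  have hsum2 : ∀ b : Fin (Fintype.card (ι₁ ⊕ ι₂)) → ℕ,
      ∑ i, (if c i then 0 else b i) = ∑ i : ι₂, b (e.symm (Sum.inr i)) := by
    intro b
    rw [← Equiv.sum_comp e.symm, Fintype.sum_sum_type]
    simp [c]
  constructor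
  · rintro ⟨h1, h2, h3⟩
    refine ⟨fun i => a (e i), ⟨?_, ?_, ?_⟩, ?_⟩
    · rw [hsum1]
      simpa using h1
    · rw [hsum2]
      simpa using h2
    · intro h4
      apply h3
      have h5 : (fun x => a (e (e.symm x))) ∈ U := h4
      simpa using h5
    · funext x
      simp
  · rintro ⟨b, ⟨h1, h2, h3⟩, rfl⟩
    rw [hsum1] at h1
    rw [hsum2] at h2
    exact ⟨h1, h2, h3⟩

end Pool.Agent.H195L.L03
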