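import Pool.Agent.H195_lech.Spec2
import Pool.Agent.H195_lech.L03

/-!
# Stirling refinement of Lech's inequality (MP_eae75b_ag): counting an image outside a bad set
-/

set_option autoImplicit false

namespace Pool.Agent.H195L.L04

open Finset Filter Topology
open scoped BigOperators
open Pool.Agent.H195L.L03 (s_stan)



theorem s_cnt (ι₁ ι₂ : Type) [Fintype ι₁] [Fintype ι₂] (val : (ι₁ ⊕ ι₂ → ℕ) →+ E)
    (Bad : ℕ → ℕ → Set E)
    (hB : ∀ p q x a, x ∈ Bad p q →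
      x + val a ∈ Bad (p + ∑ i, a (Sum.inl i)) (q + ∑ i, a (Sum.inr i))) :
    NN fun p q => {x : E | (∃ a : ι₁ ⊕ ι₂ → ℕ, ∑ i, a (Sum.inl i) = p ∧ ∑ i, a (Sum.inr i) = q ∧
      val a = x) ∧ x ∉ Bad p q}.ncard := by
  classical
  obtain ⟨n, ⟨e⟩⟩ : ∃ n, Nonempty ((ι₁ ⊕ ι₂) ≃ Fin n) := ⟨_, ⟨Fintype.equivFin _⟩⟩
  obtain ⟨lex, hlexd⟩ : ∃ lex : (ι₁ ⊕ ι₂ → ℕ) → Lex (Fin n → ℕ),
      lex = fun a => toLex fun j => a (e.symm j) := ⟨_, rfl⟩
  have hladd : ∀ a b, lex (a + b) = lex a + lex b := by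
    intro a b
    rw [hlexd]
    rfl
  have hlinj : Function.Injective lex := by
    intro a b hab
    rw [hlexd] at hab
    funext p
    have h1 := congrFun (toLex.injective hab) (e p)
    simpa using h1
  obtain ⟨d1, hd1⟩ : ∃ d1 : (ι₁ ⊕ ι₂ → ℕ) → ℕ, d1 = fun a => ∑ i, a (Sum.inl i) := ⟨_, rfl⟩
  obtain ⟨d2, hd2⟩ : ∃ d2 : (ι₁ ⊕ ι₂ → ℕ) → ℕ, d2 = fun a => ∑ i, a (Sum.inr i) := ⟨_, rfl⟩
  have hd1a : ∀ a b, d1 (a + b) = d1 a + d1 b := by
    intro a b
    rw [hd1]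
    simp [Finset.sum_add_distrib]
  have hd2a : ∀ a b, d2 (a + b) = d2 a + d2 b := by
    intro a b
    rw [hd2]
    simp [Finset.sum_add_distrib]
  obtain ⟨U, hU⟩ : ∃ U : Set (ι₁ ⊕ ι₂ → ℕ),
      U = {a | val a ∈ Bad (d1 a) (d2 a) ∨
        ∃ b, d1 b = d1 a ∧ d2 b = d2 a ∧ val b = val a ∧ lex b < lex a} := ⟨_, rfl⟩
  have hup : IsUpperSet U := by
    intro a a' haa' ha
    rw [hU] at ha ⊢
    have haa : a + (a' - a) = a' := add_tsub_cancel_of_le haa'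
    rcases ha with ha | ⟨b, h1, h2, h3, h4⟩
    · left
      have h1 := hB _ _ _ (a' - a) ha
      have e1 : d1 a + ∑ i, (a' - a) (Sum.inl i) = d1 a' := by
        have := hd1a a (a' - a)
        rw [haa] at this
        rw [this, hd1]
      have e2 : d2 a + ∑ i, (a' - a) (Sum.inr i) = d2 a' := by
        have := hd2a a (a' - a)
        rw [haa] at this
        rw [this, hd2]
      rw [e1, e2, ← map_add, haa] at h1
      exact h1
    · right
      refine ⟨b + (a' - a), ?_, ?_, ?_, ?_⟩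
      · rw [hd1a, h1, ← hd1a, haa]
      · rw [hd2a, h2, ← hd2a, haa]
      · rw [map_add, h3, ← map_add, haa]
      · have h5 : lex a' = lex a + lex (a' - a) := by
          rw [← hladd, haa]
        rw [hladd, h5]
        exact add_lt_add_left h4 _
  have hfin : ∀ p q : ℕ, {a : ι₁ ⊕ ι₂ → ℕ | d1 a = p ∧ d2 a = q}.Finite := by
    intro p q
    refine (Set.finite_Iic (fun _ : ι₁ ⊕ ι₂ => p + q)).subset ?_
    rintro a ⟨h1, h2⟩
    rw [hd1] at h1
    rw [hd2] at h2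
    intro i
    rcases i with i | i
    · have := Finset.single_le_sum (f := fun i => a (Sum.inl i)) (fun _ _ => Nat.zero_le _)
        (Finset.mem_univ i)
      simp only at this h1 h2 ⊢
      omega
    · have := Finset.single_le_sum (f := fun i => a (Sum.inr i)) (fun _ _ => Nat.zero_le _)
        (Finset.mem_univ i)
      simp only at this h1 h2 ⊢
      omega
  have key := s_stan ι₁ ι₂ U hup
  have hEq : (fun p q => {x : E | (∃ a : ι₁ ⊕ ι₂ → ℕ, ∑ i, a (Sum.inl i) = p ∧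
      ∑ i, a (Sum.inr i) = q ∧ val a = x) ∧ x ∉ Bad p q}.ncard) =
      fun p q => {a : ι₁ ⊕ ι₂ → ℕ |
      ∑ i, a (Sum.inl i) = p ∧ ∑ i, a (Sum.inr i) = q ∧ a ∉ U}.ncard := by
    funext p q
    have h1 : {x : E | (∃ a : ι₁ ⊕ ι₂ → ℕ, ∑ i, a (Sum.inl i) = p ∧
      ∑ i, a (Sum.inr i) = q ∧ val a = x) ∧ x ∉ Bad p q} =
      val '' {a : ι₁ ⊕ ι₂ → ℕ | ∑ i, a (Sum.inl i) = p ∧ ∑ i, a (Sum.inr i) = q ∧ a ∉ U} := by
      apply Set.Subset.antisymm
      · rintro x ⟨⟨a, ha1, ha2, rfl⟩, hx⟩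
        have h3 : {b | (d1 b = p ∧ d2 b = q) ∧ val b = val a}.Finite :=
          (hfin p q).subset fun b hb => hb.1
        obtain ⟨b, hb, hbmin⟩ := Set.exists_min_image _ lex h3
          ⟨a, ⟨by rw [hd1]; exact ha1, by rw [hd2]; exact ha2⟩, rfl⟩
        obtain ⟨⟨hb1, hb2⟩, hb3⟩ := hb
        refine ⟨b, ⟨by rw [← hb1, hd1], by rw [← hb2, hd2], fun h4 => ?_⟩, hb3⟩
        rw [hU] at h4
        rcases h4 with h4 | ⟨c, h5, h6, h7, h8⟩
        · rw [hb1, hb2, hb3] at h4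
          exact hx h4
        · exact absurd (hbmin c ⟨⟨h5.trans hb1, h6.trans hb2⟩, h7.trans hb3⟩) (not_le.2 h8)
      · rintro _ ⟨a, ⟨ha1, ha2, ha3⟩, rfl⟩
        refine ⟨⟨a, ha1, ha2, rfl⟩, fun h4 => ha3 ?_⟩
        rw [hU]
        left
        have e1 : d1 a = p := by rw [hd1]; exact ha1
        have e2 : d2 a = q := by rw [hd2]; exact ha2
        rw [e1, e2]
        exact h4
    rw [h1]
    refine Set.InjOn.ncard_image ?_
    rintro a ⟨ha1, ha2, ha'⟩ b ⟨hb1, hb2, hb'⟩ hab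
    have ea1 : d1 a = p := by rw [hd1]; exact ha1
    have ea2 : d2 a = q := by rw [hd2]; exact ha2
    have eb1 : d1 b = p := by rw [hd1]; exact hb1
    have eb2 : d2 b = q := by rw [hd2]; exact hb2
    rcases lt_trichotomy (lex a) (lex b) with h3 | h3 | h3
    · exact absurd (by rw [hU]; right; exact ⟨a, ea1.trans eb1.symm, ea2.trans eb2.symm, hab, h3⟩) hb'
    · exact hlinj h3
    · exact absurd (by rw [hU]; right; exact ⟨b, eb1.trans ea1.symm, eb2.trans ea2.symm, hab.symm, h3⟩) ha'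
  rw [hEq]
  exact key

end Pool.Agent.H195L.L04
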