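import Pool.Agent.H195_lech.Spec2

/-!
# Stirling refinement of Lech's inequality (MP_eae75b_ag): counting outside Delta + B
-/

set_option autoImplicit false

namespace Pool.Agent.H195L.L05

open Finset Filter Topology
open scoped BigOperators

namespace s_greedy_aux

theorem zero_not_dl (B : Set E) : (0 : E) ∉ dl B := by
  rintro ⟨y, -, i, hi⟩
  have h := hi i
  simp at h

theorem co_zero (G : Set E) (h0 : (0 : E) ∉ G) : co 0 G = {0} := by
  ext x
  constructor
  · rintro ⟨h, -⟩
    exact Finsupp.ext fun j => h j (Nat.zero_le j)
  · rintro rfl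
    exact ⟨fun _ _ => rfl, h0⟩

theorem co_succ (B : Set E) (k : ℕ) (hB : IsUpperSet B) (hS : SS B) :
    co (k + 1) (dl B) = co k (dl B) ∪ (fun x : E => x + Finsupp.single k 1) '' co (k + 1) B := by
  ext x
  constructor
  · rintro ⟨h1, h2⟩
    by_cases hk : x k = 0
    · left
      refine ⟨fun j hj => ?_, h2⟩
      rcases Nat.eq_or_lt_of_le hj with rfl | h
      · exact hk
      · exact h1 j h
    · right
      have hle : Finsupp.single k 1 ≤ x := by
        rw [Finsupp.single_le_iff]
        omega
      have hx : (x - Finsupp.single k 1) + Finsupp.single k 1 = x := tsub_add_cancel_of_le hle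
      refine ⟨x - Finsupp.single k 1, ⟨fun j hj => ?_, fun hb => h2 ?_⟩, hx⟩
      · rw [Finsupp.tsub_apply, h1 j hj, zero_tsub]
      · exact ⟨x - Finsupp.single k 1, hb, k, hx.le⟩
  · rintro (⟨h1, h2⟩ | ⟨x', ⟨h1, h2⟩, rfl⟩)
    · exact ⟨fun j hj => h1 j (by omega), h2⟩
    · refine ⟨fun j hj => ?_, ?_⟩
      · show (x' + Finsupp.single k 1 : E) j = 0
        rw [Finsupp.add_apply, h1 j hj, Finsupp.single_eq_of_ne (by omega), add_zero]
      · rintro ⟨y, hy, i, hi⟩
        apply h2
        obtain ⟨z, hz⟩ : ∃ z : E, x' + Finsupp.single k 1 = (y + z) + Finsupp.single i 1 := by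
          obtain ⟨z, hz⟩ := exists_add_of_le hi
          have hz' : x' + Finsupp.single k 1 = (y + Finsupp.single i 1) + z := hz
          exact ⟨z, by rw [hz']; abel⟩
        have hyz : y + z ∈ B := hB (self_le_add_right y z) hy
        rcases lt_trichotomy i k with h | h | h
        · -- move mass
          have h3 : 1 ≤ (y + z) k := by
            have h4 := DFunLike.congr_fun hz k
            rw [Finsupp.add_apply, Finsupp.add_apply, Finsupp.single_eq_same,
              Finsupp.single_eq_of_ne (by omega)] at h4
            omega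
          have hle : Finsupp.single k 1 ≤ y + z := by
            rw [Finsupp.single_le_iff]
            exact h3
          obtain ⟨w, hw⟩ := exists_add_of_le hle
          have h5 : w + Finsupp.single k 1 ∈ B := by
            rw [add_comm, ← hw]
            exact hyz
          have h6 := hS w i k h h5
          have h7 : x' = w + Finsupp.single i 1 := by
            apply add_right_cancel (b := Finsupp.single k 1)
            rw [hz, hw]
            abel
          rw [h7]
          exact h6
        · subst h
          rw [add_right_cancel hz]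
          exact hyz
        · exfalso
          have h4 := DFunLike.congr_fun hz i
          rw [Finsupp.add_apply, Finsupp.add_apply, Finsupp.single_eq_same,
            Finsupp.single_eq_of_ne (by omega), h1 i (by omega)] at h4
          omega

theorem co_mono (B : Set E) (k : ℕ) : co k B ⊆ co (k + 1) B :=
  fun _ hx => ⟨fun j hj => hx.1 j (by omega), hx.2⟩

theorem main (B : Set E) (k : ℕ) (hB : IsUpperSet B) (hS : SS B) (h0 : (0 : E) ∉ B)
    (hf : (co k B).Finite) :
    (co k (dl B)).Finite ∧ (co k (dl B)).ncard = ∑ i ∈ range (k + 1), (co i B).ncard := by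
  induction k with
  | zero =>
    rw [co_zero _ (zero_not_dl B)]
    simp [co_zero _ h0]
  | succ k ih =>
    obtain ⟨ih1, ih2⟩ := ih (hf.subset (co_mono B k))
    have hinj : Function.Injective (fun x : E => x + Finsupp.single k 1) :=
      fun a b hab => add_right_cancel hab
    have hfi : ((fun x : E => x + Finsupp.single k 1) '' co (k + 1) B).Finite := hf.image _
    rw [co_succ B k hB hS]
    refine ⟨ih1.union hfi, ?_⟩
    rw [Set.ncard_union_eq _ ih1 hfi, ih2, Set.ncard_image_of_injective _ hinj, sum_range_succ _ (k + 1)]
    rw [Set.disjoint_left]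
    rintro x ⟨hx, -⟩ ⟨x', -, rfl⟩
    have := hx k le_rfl
    simp at this

end s_greedy_aux

/-! TARGET (S_GREEDY), counting outside `Δ + B`, `B` strongly stable.
Plain proof. Let `x ≠ 0` be supported in `[0,k)` and `j` the largest index of its support. Then
`x ∈ dl B ↔ x - single j 1 ∈ B`: `←` clear. `→`: `x ≥ y + single i 1`, `y ∈ B`, so
`z := x - single i 1 ∈ B` (upper set, `x i ≥ 1`, so `i ≤ j`); if `i = j` done; if `i < j`, `z j ≥ 1`, write
`z = w + single j 1`, then `w + single i 1 ∈ B` by `SS`, and `w + single i 1 = x - single j 1`.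
And `0 ∉ dl B`. So `co k (dl B) = {0} ∪ ⋃_{j<k} {x | largest index of the support is j, x - single j 1 ∉ B}`,
a disjoint union, and the `j`-th set is the image of `co (j+1) B` under `x' ↦ x' + single j 1`
(injective). `co 0 B = {0}` as `0 ∉ B`. Hence the count is `∑_{i ≤ k} #co i B` (finite as
`co i B ⊆ co k B`). Induction on `k` is convenient: `co (k+1) (dl B)` is the disjoint union of
`co k (dl B)` and the image of `co (k+1) B` under `x' ↦ x' + single k 1`. -/
theorem s_greedy (B : Set E) (k : ℕ) (hB : IsUpperSet B) (hS : SS B) (h0 : (0 : E) ∉ B)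
    (hf : (co k B).Finite) : (co k (dl B)).ncard = ∑ i ∈ range (k + 1), (co i B).ncard :=
  (s_greedy_aux.main B k hB hS h0 hf).2

end Pool.Agent.H195L.L05
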