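import Pool.Agent.H195_lech.Spec2
import Pool.Agent.H195_lech.L04

/-!
# Stirling refinement of Lech's inequality (MP_eae75b_ag): truncated sums
-/

set_option autoImplicit false

namespace Pool.Agent.H195L.L07

open Finset Filter Topology
open scoped BigOperators
open Pool.Agent.H195L.L04 (s_cnt)


theorem s_t_fin (k M : ℕ) (J : Set E) :
    {x : E | x ∈ J ∧ (∀ j, k ≤ j → x j = 0) ∧ x.degree ≤ M}.Finite := by
  refine (Set.finite_Icc (0 : E) (∑ i ∈ range k, Finsupp.single i M)).subset ?_
  rintro x ⟨_, h1, h2⟩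
  refine ⟨zero_le, ?_⟩
  intro j
  rw [Finsupp.finsetSum_apply]
  by_cases hj : k ≤ j
  · rw [h1 j hj]; exact Nat.zero_le _
  · push Not at hj
    have h3 : x j ≤ M := (Finsupp.le_degree j x).trans h2
    calc x j ≤ M := h3
      _ = (Finsupp.single j M : E) j := by simp
      _ ≤ _ := Finset.single_le_sum (f := fun i => (Finsupp.single i M : E) j)
        (fun i _ => Nat.zero_le _) (Finset.mem_range.2 hj)

/-- enlarging the summands -/
theorem s_t_fill {I : Type} [Fintype I] [DecidableEq I] (P : I → Set E) (hP : ∀ i, IsUpperSet (P i)) (M : ℕ)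
    (x : E) (hx : x.degree ≤ Fintype.card I * M) (n : ℕ) :
    ∀ h : I → E, (∀ i, h i ∈ P i) → (∀ i, (h i).degree ≤ M) → ∑ i, h i ≤ x →
      x.degree ≤ (∑ i, h i).degree + n →
      ∃ h' : I → E, (∀ i, h' i ∈ P i) ∧ (∀ i, (h' i).degree ≤ M) ∧ ∑ i, h' i = x := by
  induction n with
  | zero =>
    intro h h1 h2 h3 h4
    refine ⟨h, h1, h2, ?_⟩
    obtain ⟨r, hr⟩ := exists_add_of_le h3
    rw [hr, map_add] at h4
    have h5 : r.degree = 0 := by omega
    rw [Finsupp.degree_eq_zero_iff] at h5
    rw [hr, h5, add_zero]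
  | succ n ih =>
    intro h h1 h2 h3 h4
    obtain ⟨r, hr⟩ := exists_add_of_le h3
    by_cases hr0 : r = 0
    · exact ⟨h, h1, h2, by rw [hr, hr0, add_zero]⟩
    · have h5 : r.degree ≠ 0 := fun h5 => hr0 ((Finsupp.degree_eq_zero_iff _).1 h5)
      obtain ⟨j, hj⟩ : ∃ j, r j ≠ 0 := by
        by_contra hall
        push Not at hall
        exact hr0 (Finsupp.ext hall)
      have h6 : (∑ i, h i).degree < Fintype.card I * M := by
        have : x.degree = (∑ i, h i).degree + r.degree := by rw [hr, map_add]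
        omega
      obtain ⟨i, hi⟩ : ∃ i, (h i).degree < M := by
        by_contra hall
        push Not at hall
        rw [map_sum] at h6
        have : Fintype.card I * M ≤ ∑ i, (h i).degree := by
          calc Fintype.card I * M = ∑ _i : I, M := by simp
            _ ≤ _ := Finset.sum_le_sum fun i _ => hall i
        omega
      have hsum : ∑ t, Function.update h i (h i + Finsupp.single j 1) t = ∑ t, h t + Finsupp.single j 1 := by
        rw [Finset.sum_update_of_mem (Finset.mem_univ i), ← Finset.add_sum_erase _ _ (Finset.mem_univ i),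
          Finset.sdiff_singleton_eq_erase]
        abel
      refine ih (Function.update h i (h i + Finsupp.single j 1)) ?_ ?_ ?_ ?_
      · intro t
        by_cases ht : t = i
        · subst ht
          rw [Function.update_self]
          exact hP t le_self_add (h1 t)
        · rw [Function.update_of_ne ht]; exact h1 t
      · intro t
        by_cases ht : t = i
        · subst ht
          rw [Function.update_self, map_add, Finsupp.degree_single]
          omega
        · rw [Function.update_of_ne ht]; exact h2 t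
      · rw [hsum, hr]
        refine add_le_add le_rfl ?_
        rw [Finsupp.single_le_iff]
        omega
      · rw [hsum, map_add, Finsupp.degree_single]
        omega

theorem s_t_rep {I : Type} [Fintype I] [DecidableEq I] (P : I → Set E) (hP : ∀ i, IsUpperSet (P i)) (d M : ℕ)
    (hM : ∀ i, ∀ x : E, (∀ j, d ≤ j → x j = 0) → M ≤ x.degree → x ∈ P i)
    (x : E) (hxd : ∀ j, d ≤ j → x j = 0) (hx : x.degree ≤ Fintype.card I * M)
    (h : I → E) (h1 : ∀ i, h i ∈ P i) (h3 : ∑ i, h i ≤ x) :
    ∃ h' : I → E, (∀ i, h' i ∈ P i) ∧ (∀ i, (h' i).degree ≤ M) ∧ ∑ i, h' i = x := by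
  have hle : ∀ i, h i ≤ x := fun i => (Finset.single_le_sum (f := h) (fun t _ => zero_le) (Finset.mem_univ i)).trans h3
  have h4 : ∀ i, ∃ y : E, y ∈ P i ∧ y ≤ h i ∧ y.degree ≤ M := by
    intro i
    by_cases hd : (h i).degree ≤ M
    · exact ⟨h i, h1 i, le_rfl, hd⟩
    · push Not at hd
      obtain ⟨y, hy, hy'⟩ := Finsupp.exists_le_degree_eq (h i) M hd.le
      refine ⟨y, hM i y ?_ hy'.ge, hy, hy'.le⟩
      intro j hj
      have h5 := (hy.trans (hle i)) j
      rw [hxd j hj] at h5
      omega
  choose y hy1 hy2 hy3 using h4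
  exact s_t_fill P hP M x hx x.degree y hy1 hy3 ((Finset.sum_le_sum fun i _ => hy2 i).trans h3) (by omega)

/-- a function on a finite type with sum `α` is the counting function of a map -/
theorem s_t_fib {ι : Type} [Fintype ι] [DecidableEq ι] (α : ℕ) (a : ι → ℕ) (ha : ∑ i, a i = α) (v : ι → E) :
    ∃ g : Fin α → ι, ∑ t, v (g t) = ∑ i, a i • v i := by
  have hc : Fintype.card (Σ i, Fin (a i)) = α := by simp [ha]
  let e : Fin α ≃ Σ i, Fin (a i) := (Fintype.equivFinOfCardEq hc).symm
  refine ⟨fun t => (e t).1, ?_⟩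
  rw [Equiv.sum_comp e (fun p : Σ i, Fin (a i) => v p.1), Fintype.sum_sigma]
  refine Finset.sum_congr rfl fun i _ => ?_
  simp

theorem s_t_count {ι : Type} [Fintype ι] [DecidableEq ι] (α : ℕ) (g : Fin α → ι) (v : ι → E) :
    ∑ i, (Finset.univ.filter (fun t => g t = i)).card = α ∧
      ∑ i, (Finset.univ.filter (fun t => g t = i)).card • v i = ∑ t, v (g t) := by
  constructor
  · rw [← Finset.card_eq_sum_card_fiberwise (f := g) (s := Finset.univ) (t := Finset.univ) (by intro t _; simp)]
    simp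
  · rw [← Finset.sum_fiberwise_of_maps_to (s := Finset.univ) (t := Finset.univ) (g := g)
      (by intro t _; exact Finset.mem_univ _) (fun t => v (g t))]
    refine Finset.sum_congr rfl fun i _ => ?_
    rw [Finset.sum_congr rfl (g := fun _ => v i) (by
      intro t ht
      rw [(Finset.mem_filter.1 ht).2])]
    rw [Finset.sum_const]

/-! TARGET (S_T), counting in truncated sums.
Plain proof. Let `ι₁` be the finite type of `j ∈ J` supported in `[0,k)` of degree `≤ M`, `ι₂` the same for
`K`, `val a = ∑_{j ∈ ι₁} a (inl j) • j + ∑_{j ∈ ι₂} a (inr j) • j`, `Bad = ∅`; apply `s_cnt`. To show: the set in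
the statement is `{x | ∃ a, degrees (α,β), val a = x}`. `⊇`: clear (`a` with `∑ a (inl ·) = α` gives a map
`Fin α → ι₁`; see `fib`, `exists_fib` in the starting tree file Pool/Agent/R686/MU/Ex1.lean). `⊆`: let
`x ≥ ∑ f + ∑ g`, `x` supported in `[0,k)`, of degree `≤ (α+β) M`. Each `f i` is supported in `[0,k)`. If
`f i` has degree `> M` replace it by a smaller vector of degree exactly `M` (it is in `J` by hypothesis,
`k ≤ d`); the same for `g i`. So we may assume all degrees are `≤ M`. Induct on the degree of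
`x - ∑ f - ∑ g`: if it is not zero then the sum of the degrees of the `f i`, `g i` is less than
`(α+β) M`, so one of them has degree `< M`; add to it a unit vector of `x - ∑ f - ∑ g` (upper sets).
In the end `x = ∑ f + ∑ g` with all `f i ∈ ι₁`, `g i ∈ ι₂`, and `a` = the numbers of occurrences. -/
theorem s_t (d k M : ℕ) (J K : Set E) (hJ : IsUpperSet J) (hK : IsUpperSet K)
    (hM : ∀ x : E, (∀ j, d ≤ j → x j = 0) → M ≤ x.degree → x ∈ J ∧ x ∈ K) (hk : k ≤ d) :
    NN fun α β => {x : E | (∀ j, k ≤ j → x j = 0) ∧ x ∈ ms J K α β ∧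
      x.degree ≤ (α + β) * M}.ncard := by
  classical
  set S₁ : Set E := {x : E | x ∈ J ∧ (∀ j, k ≤ j → x j = 0) ∧ x.degree ≤ M} with hS₁
  set S₂ : Set E := {x : E | x ∈ K ∧ (∀ j, k ≤ j → x j = 0) ∧ x.degree ≤ M} with hS₂
  haveI : Fintype S₁ := (s_t_fin k M J).fintype
  haveI : Fintype S₂ := (s_t_fin k M K).fintype
  let val : (S₁ ⊕ S₂ → ℕ) →+ E :=
    { toFun := fun a => ∑ i : S₁, a (Sum.inl i) • (i : E) + ∑ i : S₂, a (Sum.inr i) • (i : E)
      map_zero' := by simp
      map_add' := by
        intro a b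
        simp only [Pi.add_apply, add_smul, Finset.sum_add_distrib]
        abel }
  have hval : ∀ a, val a = ∑ i : S₁, a (Sum.inl i) • (i : E) + ∑ i : S₂, a (Sum.inr i) • (i : E) := fun a => rfl
  have key := s_cnt S₁ S₂ val (fun _ _ => ∅) (by intro p q x a hx; exact absurd hx (Set.notMem_empty _))
  have heq : (fun α β => {x : E | (∀ j, k ≤ j → x j = 0) ∧ x ∈ ms J K α β ∧
      x.degree ≤ (α + β) * M}.ncard) = fun p q => {x : E | (∃ a : S₁ ⊕ S₂ → ℕ, ∑ i, a (Sum.inl i) = p ∧
        ∑ i, a (Sum.inr i) = q ∧ val a = x) ∧ x ∉ (∅ : Set E)}.ncard := by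
    funext α β
    congr 1
    ext x
    simp only [Set.mem_ofPred_eq, Set.mem_empty_iff_false, not_false_eq_true, and_true]
    constructor
    · rintro ⟨hx1, ⟨f, g, hf, hg, hfg⟩, hx3⟩
      let P : Fin α ⊕ Fin β → Set E := Sum.elim (fun _ => J) (fun _ => K)
      obtain ⟨h', q1, q2, q3⟩ := s_t_rep P (by rintro (i | i) <;> assumption) d M
        (by
          rintro (i | i) y hy1 hy2
          · exact (hM y hy1 hy2).1
          · exact (hM y hy1 hy2).2) x (fun j hj => hx1 j (hk.trans hj))
        (by simpa using hx3) (Sum.elim f g) (by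
          rintro (i | i)
          · exact hf i
          · exact hg i) (by rw [Fintype.sum_sum_type]; exact hfg)
      have hle : ∀ i, h' i ≤ x := fun i => by
        rw [← q3]
        exact Finset.single_le_sum (f := h') (fun t _ => zero_le) (Finset.mem_univ i)
      have hz : ∀ i j, k ≤ j → h' i j = 0 := by
        intro i j hj
        have := hle i j
        rw [hx1 j hj] at this
        omega
      let g₁ : Fin α → S₁ := fun t => ⟨h' (Sum.inl t), q1 (Sum.inl t), hz _, q2 _⟩
      let g₂ : Fin β → S₂ := fun t => ⟨h' (Sum.inr t), q1 (Sum.inr t), hz _, q2 _⟩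
      obtain ⟨c1, c2⟩ := s_t_count α g₁ (fun i => (i : E))
      obtain ⟨c3, c4⟩ := s_t_count β g₂ (fun i => (i : E))
      refine ⟨Sum.elim (fun i => (Finset.univ.filter (fun t => g₁ t = i)).card)
        (fun i => (Finset.univ.filter (fun t => g₂ t = i)).card), c1, c3, ?_⟩
      rw [hval]
      simp only [Sum.elim_inl, Sum.elim_inr]
      rw [c2, c4, ← q3, Fintype.sum_sum_type]
    · rintro ⟨a, h1, h2, rfl⟩
      obtain ⟨g₁, hg₁⟩ := s_t_fib α (fun i => a (Sum.inl i)) h1 (fun i : S₁ => (i : E))
      obtain ⟨g₂, hg₂⟩ := s_t_fib β (fun i => a (Sum.inr i)) h2 (fun i : S₂ => (i : E))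
      have hv : val a = ∑ t, (g₁ t : E) + ∑ t, (g₂ t : E) := by rw [hval, hg₁, hg₂]
      rw [hv]
      refine ⟨?_, ⟨fun t => g₁ t, fun t => g₂ t, fun t => (g₁ t).2.1, fun t => (g₂ t).2.1, le_rfl⟩, ?_⟩
      · intro j hj
        rw [Finsupp.add_apply, Finsupp.finsetSum_apply, Finsupp.finsetSum_apply,
          Finset.sum_eq_zero (fun t _ => (g₁ t).2.2.1 j hj), Finset.sum_eq_zero (fun t _ => (g₂ t).2.2.1 j hj), add_zero]
      · rw [map_add, map_sum, map_sum, add_mul]
        refine add_le_add ?_ ?_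
        · calc ∑ t, (g₁ t : E).degree ≤ ∑ _t : Fin α, M := Finset.sum_le_sum fun t _ => (g₁ t).2.2.2
            _ = α * M := by simp
        · calc ∑ t, (g₂ t : E).degree ≤ ∑ _t : Fin β, M := Finset.sum_le_sum fun t _ => (g₂ t).2.2.2
            _ = β * M := by simp
  rw [heq]
  exact key

end Pool.Agent.H195L.L07
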