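import Pool.Agent.H195_lech.Spec2
import Pool.Agent.H195_lech.L04
import Pool.Agent.H195_lech.L06

/-!
# Stirling refinement of Lech's inequality (MP_eae75b_ag): difference sets
-/

set_option autoImplicit false

namespace Pool.Agent.H195L.L08

open Finset Filter Topology
open scoped BigOperators
open Pool.Agent.H195L.L04 (s_cnt)
open Pool.Agent.H195L.L06 (s_grow)



theorem ms_iff {J K : Set E} {α β : ℕ} {x : E} : x ∈ ms J K α β ↔
    ∃ s t : Multiset E, Multiset.card s = α ∧ Multiset.card t = β ∧ (∀ j ∈ s, j ∈ J) ∧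
      (∀ j ∈ t, j ∈ K) ∧ s.sum + t.sum ≤ x := by
  constructor
  · rintro ⟨f, g, hf, hg, h⟩
    refine ⟨Finset.univ.val.map f, Finset.univ.val.map g, ?_, ?_, ?_, ?_, h⟩
    · simp
    · simp
    · intro j hj
      obtain ⟨i, -, rfl⟩ := Multiset.mem_map.1 hj
      exact hf i
    · intro j hj
      obtain ⟨i, -, rfl⟩ := Multiset.mem_map.1 hj
      exact hg i
  · rintro ⟨s, t, hs, ht, h1, h2, h⟩
    induction s using Quotient.inductionOn with
    | h l =>
    induction t using Quotient.inductionOn with
    | h l' =>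
    simp only [Multiset.quot_mk_to_coe, Multiset.coe_card] at hs ht
    subst hs
    subst ht
    refine ⟨l.get, l'.get, fun i => h1 _ ?_, fun i => h2 _ ?_, ?_⟩
    · simp only [Multiset.quot_mk_to_coe, Multiset.mem_coe]
      exact List.get_mem _ _
    · simp only [Multiset.quot_mk_to_coe, Multiset.mem_coe]
      exact List.get_mem _ _
    · simp only [Multiset.quot_mk_to_coe, Multiset.sum_coe] at h
      have e1 : ∑ i, l.get i = l.sum := by
        rw [← List.sum_ofFn, List.ofFn_get]
      have e2 : ∑ i, l'.get i = l'.sum := by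
        rw [← List.sum_ofFn, List.ofFn_get]
      rw [e1, e2]
      exact h

theorem ms_add {J K : Set E} {α β α' β' : ℕ} {x y : E} (hx : x ∈ ms J K α β)
    (hy : y ∈ ms J K α' β') : x + y ∈ ms J K (α + α') (β + β') := by
  rw [ms_iff] at hx hy ⊢
  obtain ⟨s, t, h1, h2, h3, h4, h5⟩ := hx
  obtain ⟨s', t', h1', h2', h3', h4', h5'⟩ := hy
  refine ⟨s + s', t + t', by rw [Multiset.card_add, h1, h1'], by rw [Multiset.card_add, h2, h2'],
    ?_, ?_, ?_⟩
  · intro j hj
    rcases Multiset.mem_add.1 hj with hj | hj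
    · exact h3 j hj
    · exact h3' j hj
  · intro j hj
    rcases Multiset.mem_add.1 hj with hj | hj
    · exact h4 j hj
    · exact h4' j hj
  · rw [Multiset.sum_add, Multiset.sum_add]
    calc s.sum + s'.sum + (t.sum + t'.sum) = (s.sum + t.sum) + (s'.sum + t'.sum) := by abel
      _ ≤ x + y := add_le_add h5 h5'

theorem single_sum {ι : Type} [Fintype ι] [DecidableEq ι] (a : ι → ℕ) (f : ι → E) :
    ((∑ i, a i • ({f i} : Multiset E)).sum = ∑ i, a i • f i) ∧
    (Multiset.card (∑ i, a i • ({f i} : Multiset E)) = ∑ i, a i) ∧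
    (∀ j ∈ ∑ i, a i • ({f i} : Multiset E), ∃ i, j = f i) := by
  refine ⟨?_, ?_, ?_⟩
  · have h := map_sum (Multiset.sumAddMonoidHom : Multiset E →+ E)
      (fun i => a i • ({f i} : Multiset E)) Finset.univ
    simp only [Multiset.coe_sumAddMonoidHom, map_nsmul, Multiset.sum_singleton] at h
    exact h
  · simp
  · intro j hj
    rw [Multiset.mem_sum] at hj
    obtain ⟨i, -, hi⟩ := hj
    have := Multiset.mem_of_mem_nsmul hi
    exact ⟨i, Multiset.mem_singleton.1 this⟩

/-- the elements of `G` of degree at most `M` supported in `[0, k)` -/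
def Sm (k M : ℕ) (G : Set E) : Set E := {j | (∀ i, k ≤ i → j i = 0) ∧ j.degree ≤ M ∧ j ∈ G}

theorem Sm_finite (k M : ℕ) (G : Set E) : (Sm k M G).Finite := by
  classical
  refine (Set.finite_Iic (∑ i ∈ Finset.range k, Finsupp.single i M : E)).subset ?_
  rintro j ⟨h1, h2, -⟩
  rw [Set.mem_Iic]
  intro i
  rw [Finsupp.finsetSum_apply]
  by_cases hi : i < k
  · calc j i ≤ j.degree := Finsupp.le_degree i j
      _ ≤ M := h2
      _ = (Finsupp.single i M : E) i := by rw [Finsupp.single_eq_same]
      _ ≤ _ := Finset.single_le_sum (f := fun l => (Finsupp.single l M : E) i)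
        (fun _ _ => Nat.zero_le _) (Finset.mem_range.2 hi)
  · rw [h1 i (by omega)]
    exact Nat.zero_le _

theorem exists_count {ι : Type} [Fintype ι] [DecidableEq ι] (f : ι → E) (s : Multiset E)
    (hs : ∀ j ∈ s, ∃ i, f i = j) : ∃ a : ι → ℕ, ∑ i, a i = Multiset.card s ∧
      ∑ i, a i • f i = s.sum := by
  induction s using Multiset.induction_on with
  | empty => exact ⟨0, by simp, by simp⟩
  | cons j s ih =>
    obtain ⟨a, h1, h2⟩ := ih fun j' hj' => hs j' (Multiset.mem_cons_of_mem hj')
    obtain ⟨i, rfl⟩ := hs j (Multiset.mem_cons_self _ _)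
    refine ⟨a + Pi.single i 1, ?_, ?_⟩
    · rw [Multiset.card_cons, ← h1]
      simp [Finset.sum_add_distrib]
    · rw [Multiset.sum_cons, ← h2]
      simp only [Pi.add_apply, add_smul, Finset.sum_add_distrib]
      rw [add_comm]
      congr 1
      rw [Finset.sum_eq_single i]
      · simp
      · intro b _ hb
        simp [Pi.single_apply, hb]
      · intro h
        exact absurd (Finset.mem_univ i) h

theorem exists_split {j : E} (h : 0 < j.degree) : ∃ (f : E) (i : ℕ), j = f + Finsupp.single i 1 := by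
  have h1 : j ≠ 0 := by
    rintro rfl
    simp at h
  obtain ⟨i, hi⟩ := Finsupp.ne_iff.1 h1
  rw [Finsupp.zero_apply] at hi
  refine ⟨j - Finsupp.single i 1, i, ?_⟩
  refine (tsub_add_cancel_of_le ?_).symm
  rw [Finsupp.single_le_iff]
  omega

theorem s_d (d k : ℕ) (J K : Set E) (h : IsPair d J K) (hk : k ≤ d) :
    NN fun p q => {x : E | (∀ j, k ≤ j → x j = 0) ∧ x ∈ ms J K p q ∧
      ¬ (1 ≤ p ∧ x ∈ dl (ms J K (p - 1) (q + 1)))}.ncard := by
  classical
  have fK : (co d K).Finite := h.fin.subset fun x hx => ⟨hx.1, fun hxJ => hx.2 (h.sub hxJ)⟩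
  obtain ⟨M, hM, -, -⟩ := s_grow d J K h.upJ h.upK h.fin fK
  have : Finite (Sm k M J) := Sm_finite k M J
  have : Finite (Sm k M K) := Sm_finite k M K
  letI : Fintype (Sm k M J) := Fintype.ofFinite _
  letI : Fintype (Sm k M K) := Fintype.ofFinite _
  let val : ((Sm k M J : Type) ⊕ (Sm k M K : Type) → ℕ) →+ E :=
    { toFun := fun a => ∑ i, a (Sum.inl i) • (i : E) + ∑ i, a (Sum.inr i) • (i : E)
      map_zero' := by simp
      map_add' := by
        intro a b
        simp only [Pi.add_apply, add_smul, Finset.sum_add_distrib]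
        abel }
  have hval : ∀ a, val a = ∑ i, a (Sum.inl i) • (i : E) + ∑ i, a (Sum.inr i) • (i : E) :=
    fun a => rfl
  have hvm : ∀ a, val a ∈ ms J K (∑ i, a (Sum.inl i)) (∑ i, a (Sum.inr i)) := by
    intro a
    rw [ms_iff]
    obtain ⟨h1, h2, h3⟩ := single_sum (fun i => a (Sum.inl i)) (fun i : Sm k M J => (i : E))
    obtain ⟨h1', h2', h3'⟩ := single_sum (fun i => a (Sum.inr i)) (fun i : Sm k M K => (i : E))
    refine ⟨_, _, h2, h2', ?_, ?_, ?_⟩
    · intro j hj
      obtain ⟨i, rfl⟩ := h3 j hj
      exact i.2.2.2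
    · intro j hj
      obtain ⟨i, rfl⟩ := h3' j hj
      exact i.2.2.2
    · rw [h1, h1', hval]
  let Bad : ℕ → ℕ → Set E := fun p q => {x | 1 ≤ p ∧ x ∈ dl (ms J K (p - 1) (q + 1))}
  have hBad : ∀ p q x a, x ∈ Bad p q →
      x + val a ∈ Bad (p + ∑ i, a (Sum.inl i)) (q + ∑ i, a (Sum.inr i)) := by
    rintro p q x a ⟨hp, y, hy, i, hi⟩
    refine ⟨by omega, y + val a, ?_, i, ?_⟩
    · have h1 := ms_add hy (hvm a)
      have e1 : p - 1 + ∑ i, a (Sum.inl i) = p + ∑ i, a (Sum.inl i) - 1 := by omega
      have e2 : q + 1 + ∑ i, a (Sum.inr i) = q + ∑ i, a (Sum.inr i) + 1 := by omega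
      rwa [e1, e2] at h1
    · calc y + val a + Finsupp.single i 1 = y + Finsupp.single i 1 + val a := by abel
        _ ≤ x + val a := by gcongr
  have hNN := s_cnt (Sm k M J) (Sm k M K) val Bad hBad
  have key : ∀ p q, 1 ≤ p →
      {x : E | (∀ j, k ≤ j → x j = 0) ∧ x ∈ ms J K p q ∧
        ¬ (1 ≤ p ∧ x ∈ dl (ms J K (p - 1) (q + 1)))} =
      {x : E | (∃ a : (Sm k M J : Type) ⊕ (Sm k M K : Type) → ℕ, ∑ i, a (Sum.inl i) = p ∧
        ∑ i, a (Sum.inr i) = q ∧ val a = x) ∧ x ∉ Bad p q} := by
    intro p q hp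
    ext x
    constructor
    · rintro ⟨hx, hms, hbad⟩
      refine ⟨?_, hbad⟩
      rw [ms_iff] at hms
      obtain ⟨s, t, hs, ht, h1, h2, h3⟩ := hms
      -- moving one element to the other side
      have hmove : ∀ (y : E) (s' t' : Multiset E) (i : ℕ), Multiset.card s' = p →
          Multiset.card t' = q → (∀ j ∈ s', j ∈ J) → (∀ j ∈ t', j ∈ K) → s'.sum + t'.sum ≤ y →
          y + Finsupp.single i 1 ≤ x → False := by
        intro y s' t' i hs' ht' h1' h2' h3' h4'
        obtain ⟨j, s0, rfl⟩ : ∃ j s0, s' = j ::ₘ s0 := by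
          rcases Multiset.empty_or_exists_mem s' with h0 | ⟨j, hj⟩
          · rw [h0] at hs'
            simp at hs'
            omega
          · obtain ⟨s0, h0⟩ := Multiset.exists_cons_of_mem hj
            exact ⟨j, s0, h0⟩
        refine hbad ⟨hp, y, ?_, i, h4'⟩
        rw [ms_iff]
        rw [Multiset.card_cons] at hs'
        refine ⟨s0, j ::ₘ t', by omega, by rw [Multiset.card_cons, ht'],
          fun l hl => h1' l (Multiset.mem_cons_of_mem hl), ?_, ?_⟩
        · intro l hl
          rcases Multiset.mem_cons.1 hl with rfl | hl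
          · exact h.sub (h1' _ (Multiset.mem_cons_self _ _))
          · exact h2' l hl
        · rw [Multiset.sum_cons] at h3' ⊢
          calc s0.sum + (j + t'.sum) = j + s0.sum + t'.sum := by abel
            _ ≤ y := h3'
      have heq : s.sum + t.sum = x := by
        by_contra hne
        have h4 : ∃ i, (s.sum + t.sum) i < x i := by
          by_contra hcon
          push Not at hcon
          exact hne (le_antisymm h3 fun i => hcon i)
        obtain ⟨i, hi⟩ := h4
        refine hmove (s.sum + t.sum) s t i hs ht h1 h2 le_rfl ?_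
        intro l
        rw [Finsupp.add_apply]
        by_cases hl : l = i
        · subst hl
          rw [Finsupp.single_eq_same]
          omega
        · rw [Finsupp.single_eq_of_ne hl, add_zero]
          exact h3 l
      have hsupp : ∀ j : E, j ≤ x → ∀ i, k ≤ i → j i = 0 := by
        intro j hj i hi
        have := hj i
        rw [hx i hi] at this
        omega
      have hsJ : ∀ j ∈ s, ∃ i : Sm k M J, (i : E) = j := by
        intro j hj
        obtain ⟨s0, rfl⟩ := Multiset.exists_cons_of_mem hj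
        have hjx : j ≤ x := by
          rw [← heq, Multiset.sum_cons, add_assoc]
          exact le_self_add
        refine ⟨⟨j, hsupp j hjx, ?_, h1 j hj⟩, rfl⟩
        by_contra hdeg
        push Not at hdeg
        obtain ⟨f, i, rfl⟩ := exists_split (j := j) (by omega)
        have hfd : M ≤ f.degree := by
          have e : (f + Finsupp.single i 1 : E).degree = f.degree + 1 := by
            rw [map_add, Finsupp.degree_single]
          omega
        have hf : f ∈ J := (hM f (fun l hl => hsupp f (le_self_add.trans hjx) l (by omega)) hfd).1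
        refine hmove (f + s0.sum + t.sum) (f ::ₘ s0) t i (by simpa using hs) ht ?_ h2 ?_ ?_
        · intro l hl
          rcases Multiset.mem_cons.1 hl with rfl | hl
          · exact hf
          · exact h1 l (Multiset.mem_cons_of_mem hl)
        · rw [Multiset.sum_cons]
        · rw [← heq, Multiset.sum_cons]
          apply le_of_eq
          abel
      have htK : ∀ j ∈ t, ∃ i : Sm k M K, (i : E) = j := by
        intro j hj
        obtain ⟨t0, rfl⟩ := Multiset.exists_cons_of_mem hj
        have hjx : j ≤ x := by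
          rw [← heq, Multiset.sum_cons]
          calc j ≤ j + (s.sum + t0.sum) := le_self_add
            _ = _ := by abel
        refine ⟨⟨j, hsupp j hjx, ?_, h2 j hj⟩, rfl⟩
        by_contra hdeg
        push Not at hdeg
        obtain ⟨f, i, rfl⟩ := exists_split (j := j) (by omega)
        have hfd : M ≤ f.degree := by
          have e : (f + Finsupp.single i 1 : E).degree = f.degree + 1 := by
            rw [map_add, Finsupp.degree_single]
          omega
        have hf : f ∈ K := (hM f (fun l hl => hsupp f (le_self_add.trans hjx) l (by omega)) hfd).2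
        refine hmove (s.sum + (f + t0.sum)) s (f ::ₘ t0) i hs (by simpa using ht) h1 ?_ ?_ ?_
        · intro l hl
          rcases Multiset.mem_cons.1 hl with rfl | hl
          · exact hf
          · exact h2 l (Multiset.mem_cons_of_mem hl)
        · rw [Multiset.sum_cons]
        · rw [← heq, Multiset.sum_cons]
          apply le_of_eq
          abel
      obtain ⟨a, ha1, ha2⟩ := exists_count (fun i : Sm k M J => (i : E)) s hsJ
      obtain ⟨b, hb1, hb2⟩ := exists_count (fun i : Sm k M K => (i : E)) t htK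
      refine ⟨Sum.elim a b, ?_, ?_, ?_⟩
      · simp only [Sum.elim_inl]
        rw [ha1, hs]
      · simp only [Sum.elim_inr]
        rw [hb1, ht]
      · rw [hval]
        simp only [Sum.elim_inl, Sum.elim_inr]
        rw [ha2, hb2, heq]
    · rintro ⟨⟨a, ha, hb, rfl⟩, hbad⟩
      refine ⟨?_, ?_, hbad⟩
      · intro j hj
        rw [hval, Finsupp.add_apply, Finsupp.finsetSum_apply, Finsupp.finsetSum_apply]
        have e1 : ∑ i : Sm k M J, (a (Sum.inl i) • (i : E)) j = 0 :=
          Finset.sum_eq_zero fun i _ => by rw [Finsupp.smul_apply, i.2.1 j hj, smul_zero]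
        have e2 : ∑ i : Sm k M K, (a (Sum.inr i) • (i : E)) j = 0 :=
          Finset.sum_eq_zero fun i _ => by rw [Finsupp.smul_apply, i.2.1 j hj, smul_zero]
        rw [e1, e2]
      · have := hvm a
        rwa [ha, hb] at this
  obtain ⟨N₀, hN₀⟩ := hNN
  refine ⟨max N₀ 1, fun N hN => ?_⟩
  obtain ⟨L, γ, hγ⟩ := hN₀ N (le_trans (le_max_left _ _) hN)
  refine ⟨L, γ, fun α β => ?_⟩
  rw [← hγ α β]
  have h1 : 1 ≤ N + α := le_trans (le_trans (le_max_right _ _) hN) (Nat.le_add_right _ _)
  beta_reduce
  rw [key (N + α) (N + β) h1]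

end Pool.Agent.H195L.L08
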