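import Pool.Agent.H195_lech.Spec2

/-!
# Stirling refinement of Lech's inequality (MP_eae75b_ag): asymptotics of antidiagonal sums
-/

set_option autoImplicit false

namespace Pool.Agent.H195L.L10

open Finset Filter Topology
open scoped BigOperators

theorem vand3231 (m : ℕ) : ∀ a b : ℕ,
    ∑ β ∈ range (m + 1), (m - β).choose a * β.choose b = (m + 1).choose (a + b + 1) := by
  induction m with
  | zero =>
    intro a b
    rcases a with _ | a <;> rcases b with _ | b <;> simp [Nat.choose_eq_zero_of_lt]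
  | succ m ih =>
    intro a b
    rcases a with _ | a
    · have h0 := ih 0 b
      rw [sum_range_succ]
      have e : ∑ x ∈ range (m + 1), (m + 1 - x).choose 0 * x.choose b
          = ∑ x ∈ range (m + 1), (m - x).choose 0 * x.choose b := by
        apply sum_congr rfl; intro x _; simp
      rw [e, h0]
      simp only [Nat.choose_zero_right, one_mul, zero_add]
      rw [Nat.choose_succ_succ (m + 1) b]
      ring
    · rw [sum_range_succ]
      have e : ∑ x ∈ range (m + 1), (m + 1 - x).choose (a + 1) * x.choose b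
          = ∑ x ∈ range (m + 1), (m - x).choose a * x.choose b
            + ∑ x ∈ range (m + 1), (m - x).choose (a + 1) * x.choose b := by
        rw [← sum_add_distrib]
        apply sum_congr rfl; intro x hx
        have hx' : x ≤ m := by simpa [Nat.lt_succ_iff] using hx
        rw [show m + 1 - x = (m - x) + 1 by omega, Nat.choose_succ_succ]
        ring
      rw [e, ih a b, ih (a + 1) b]
      have z : (m + 1 - (m + 1)).choose (a + 1) = 0 := by simp
      rw [z, zero_mul, add_zero, show a + 1 + b + 1 = (a + b + 1) + 1 by ring,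
        Nat.choose_succ_succ (m + 1) (a + b + 1)]

theorem lim3231 (k N j : ℕ) (hj : j ≤ k + 1) :
    Tendsto (fun m : ℕ => ((k + 1).factorial : ℝ) * ((m + 1).choose j : ℝ) /
      ((m + 2 * N : ℕ) : ℝ) ^ (k + 1)) atTop (𝓝 (if j = k + 1 then 1 else 0)) := by
  have hc : Tendsto (fun n : ℕ => (n.choose j : ℝ) / (n : ℝ) ^ j) atTop
      (𝓝 (1 / (j.factorial : ℝ))) := by
    have h := isEquivalent_choose j
    have hne : ∀ᶠ n : ℕ in atTop, ((n : ℝ) ^ j / (j.factorial : ℝ)) ≠ 0 := by
      filter_upwards [eventually_gt_atTop 0] with n hn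
      positivity
    have h' := (Asymptotics.isEquivalent_iff_tendsto_one hne).1 h
    have h2 := h'.mul_const (1 / (j.factorial : ℝ))
    rw [one_mul] at h2
    refine h2.congr' ?_
    filter_upwards [eventually_gt_atTop 0] with n hn
    have : (n : ℝ) ^ j ≠ 0 := by positivity
    have : (j.factorial : ℝ) ≠ 0 := by positivity
    simp only [Pi.div_apply]
    field_simp
  have hc1 : Tendsto (fun m : ℕ => ((m + 1).choose j : ℝ) / ((m + 1 : ℕ) : ℝ) ^ j) atTop
      (𝓝 (1 / (j.factorial : ℝ))) := hc.comp (tendsto_add_atTop_nat 1)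
  have hinv : Tendsto (fun m : ℕ => 1 / ((m + 2 * N : ℕ) : ℝ)) atTop (𝓝 0) :=
    (tendsto_one_div_atTop_nhds_zero_nat).comp (tendsto_add_atTop_nat (2 * N))
  have hx : Tendsto (fun m : ℕ => ((m + 1 : ℕ) : ℝ) / ((m + 2 * N : ℕ) : ℝ)) atTop (𝓝 1) := by
    have h1 : Tendsto (fun m : ℕ => 1 + (1 - 2 * (N : ℝ)) * (1 / ((m + 2 * N : ℕ) : ℝ))) atTop
        (𝓝 (1 + (1 - 2 * (N : ℝ)) * 0)) := (hinv.const_mul _).const_add 1
    rw [mul_zero, add_zero] at h1
    refine h1.congr' ?_
    filter_upwards [eventually_gt_atTop 0] with m hm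
    have : ((m + 2 * N : ℕ) : ℝ) ≠ 0 := by positivity
    field_simp
    push_cast
    ring
  have hprod := ((hc1.mul (hx.pow j)).mul (hinv.pow (k + 1 - j))).const_mul
    ((k + 1).factorial : ℝ)
  have hval : ((k + 1).factorial : ℝ) * (1 / (j.factorial : ℝ) * 1 ^ j * 0 ^ (k + 1 - j))
      = if j = k + 1 then 1 else 0 := by
    split_ifs with h
    · subst h
      have : ((k + 1).factorial : ℝ) ≠ 0 := by positivity
      simp [this]
    · have : k + 1 - j ≠ 0 := by omega
      simp [this]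
  rw [hval] at hprod
  refine hprod.congr' ?_
  filter_upwards [eventually_gt_atTop 0] with m hm
  have e1 : ((m + 2 * N : ℕ) : ℝ) ≠ 0 := by positivity
  have e2 : ((m + 1 : ℕ) : ℝ) ≠ 0 := by positivity
  have e3 : ((m + 2 * N : ℕ) : ℝ) ^ (k + 1) = ((m + 2 * N : ℕ) : ℝ) ^ j *
      ((m + 2 * N : ℕ) : ℝ) ^ (k + 1 - j) := by
    rw [← pow_add]; congr 1; omega
  rw [e3]
  generalize ((m + 2 * N : ℕ) : ℝ) = X at *
  generalize ((m + 1 : ℕ) : ℝ) = Y at *
  rw [div_pow, div_pow, one_pow]
  field_simp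

/-! TARGET (S_ASY1), asymptotics of the antidiagonal sums (the definitions above are not needed).
Plain proof. For `n ≥ 2N`, split the sum over `s < n` into `s < N`, `N ≤ s ≤ n - N` and `s > n - N`
(`s < n`). In the middle range put `s = N + β`, `n - s = N + α`, `α + β = n - 2N =: m`; by
`∑_{β=0}^{m} choose (m-β) a * choose β b = choose (m+1) (a+b+1)` the middle sum is
`∑_{a,b ≤ k} γ a b * choose (m+1) (a+b+1)`; multiplied by `(k+1)!/n^(k+1)` it tends to
`∑_{a+b=k} γ a b` (terms with `a+b<k` tend to `0`, those with `a+b>k` vanish). The other two ranges have at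
most `2N` terms, each at most `C (n+1)^k`, so they contribute `O(1/n)`. -/
theorem s_asy1 (k N C : ℕ) (h : ℕ → ℕ → ℕ) (γ : ℕ → ℕ → ℤ)
    (h0 : ∀ a b, k < a + b → γ a b = 0)
    (h1 : ∀ α β : ℕ, (h (N + α) (N + β) : ℤ) =
      ∑ a ∈ range (k + 1), ∑ b ∈ range (k + 1), γ a b * ((α.choose a : ℤ) * (β.choose b : ℤ)))
    (h2 : ∀ α β : ℕ, h α β ≤ C * (α + β + 1) ^ k) :
    Tendsto (fun n : ℕ => ((k + 1).factorial : ℝ) *
      (∑ s ∈ range n, (h (n - s) s : ℝ)) / (n : ℝ) ^ (k + 1)) atTop
      (𝓝 (∑ ab ∈ antidiagonal k, (γ ab.1 ab.2 : ℝ))) := by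
  have hS : ∀ m : ℕ, |(∑ s ∈ range (m + 2 * N), (h (m + 2 * N - s) s : ℝ)) -
      ∑ a ∈ range (k + 1), ∑ b ∈ range (k + 1), (γ a b : ℝ) * ((m + 1).choose (a + b + 1) : ℝ)|
      ≤ (2 * N + 1) * (C * ((m + 2 * N : ℕ) + 1 : ℝ) ^ k) := by
    intro m
    have hmid : ∑ β ∈ range (m + 1), (h (N + (m - β)) (N + β) : ℝ) =
        ∑ a ∈ range (k + 1), ∑ b ∈ range (k + 1),
          (γ a b : ℝ) * ((m + 1).choose (a + b + 1) : ℝ) := by
      have hh1 : ∀ α β : ℕ, (h (N + α) (N + β) : ℝ) =
          ∑ a ∈ range (k + 1), ∑ b ∈ range (k + 1),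
            (γ a b : ℝ) * ((α.choose a : ℝ) * (β.choose b : ℝ)) := by
        intro α β
        have := congrArg (fun z : ℤ => (z : ℝ)) (h1 α β)
        push_cast at this
        exact this
      simp_rw [hh1]
      rw [sum_comm]
      apply sum_congr rfl; intro a _
      rw [sum_comm]
      apply sum_congr rfl; intro b _
      rw [← mul_sum]
      congr 1
      rw [← vand3231 m a b]
      push_cast
      rfl
    have hb : ∀ s, s ≤ m + 2 * N → (h (m + 2 * N - s) s : ℝ) ≤
        C * ((m + 2 * N : ℕ) + 1 : ℝ) ^ k := by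
      intro s hs
      have := h2 (m + 2 * N - s) s
      rw [show m + 2 * N - s + s + 1 = m + 2 * N + 1 by omega] at this
      exact_mod_cast this
    have hsplit : ∑ s ∈ range (m + 2 * N), (h (m + 2 * N - s) s : ℝ) =
        ∑ s ∈ range N, (h (m + 2 * N - s) s : ℝ)
        + (∑ β ∈ range (m + 1), (h (N + (m - β)) (N + β) : ℝ)
          - (h (m + 2 * N - (N + m)) (N + m) : ℝ))
        + ∑ t ∈ range N, (h (m + 2 * N - (N + m + t)) (N + m + t) : ℝ) := by
      have e : m + 2 * N = N + m + N := by ring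
      have r : range (m + 2 * N) = range (N + m + N) := by rw [e]
      rw [r, sum_range_add, sum_range_add, sum_range_succ]
      have e1 : ∑ x ∈ range m, (h (m + 2 * N - (N + x)) (N + x) : ℝ) =
          ∑ β ∈ range m, (h (N + (m - β)) (N + β) : ℝ) := by
        apply sum_congr rfl; intro x hx
        have hx' := mem_range.1 hx
        rw [show m + 2 * N - (N + x) = N + (m - x) by omega]
      rw [e1, show m + 2 * N - (N + m) = N + (m - m) by omega]
      ring
    rw [hsplit, hmid]
    set B : ℝ := C * ((m + 2 * N : ℕ) + 1 : ℝ) ^ k with hB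
    have hB0 : 0 ≤ B := by positivity
    have a1 : ∑ s ∈ range N, (h (m + 2 * N - s) s : ℝ) ≤ N * B := by
      calc _ ≤ ∑ s ∈ range N, B := sum_le_sum (fun s hs => hb s (by
            have := mem_range.1 hs; omega))
        _ = N * B := by simp
    have a2 : ∑ t ∈ range N, (h (m + 2 * N - (N + m + t)) (N + m + t) : ℝ) ≤ N * B := by
      calc _ ≤ ∑ s ∈ range N, B := sum_le_sum (fun s hs => hb _ (by
            have := mem_range.1 hs; omega))
        _ = N * B := by simp
    have a3 : (h (m + 2 * N - (N + m)) (N + m) : ℝ) ≤ B := hb _ (by omega)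
    have a1' : 0 ≤ ∑ s ∈ range N, (h (m + 2 * N - s) s : ℝ) := by positivity
    have a2' : 0 ≤ ∑ t ∈ range N, (h (m + 2 * N - (N + m + t)) (N + m + t) : ℝ) := by positivity
    have a3' : 0 ≤ (h (m + 2 * N - (N + m)) (N + m) : ℝ) := by positivity
    have hNB : 0 ≤ (N : ℝ) * B := by positivity
    rw [abs_le]
    constructor <;> nlinarith
  -- the error tends to zero
  have hinv : Tendsto (fun m : ℕ => 1 / ((m + 2 * N : ℕ) : ℝ)) atTop (𝓝 0) :=
    (tendsto_one_div_atTop_nhds_zero_nat).comp (tendsto_add_atTop_nat (2 * N))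
  have hmain : Tendsto (fun m : ℕ => ((k + 1).factorial : ℝ) *
      (∑ a ∈ range (k + 1), ∑ b ∈ range (k + 1),
        (γ a b : ℝ) * ((m + 1).choose (a + b + 1) : ℝ)) / ((m + 2 * N : ℕ) : ℝ) ^ (k + 1)) atTop
      (𝓝 (∑ ab ∈ antidiagonal k, (γ ab.1 ab.2 : ℝ))) := by
    have hlim : Tendsto (fun m : ℕ => ∑ a ∈ range (k + 1), ∑ b ∈ range (k + 1),
        (γ a b : ℝ) * (((k + 1).factorial : ℝ) * ((m + 1).choose (a + b + 1) : ℝ) /
          ((m + 2 * N : ℕ) : ℝ) ^ (k + 1))) atTop
        (𝓝 (∑ a ∈ range (k + 1), ∑ b ∈ range (k + 1),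
          (γ a b : ℝ) * (if a + b = k then 1 else 0))) := by
      apply tendsto_finsetSum; intro a _
      apply tendsto_finsetSum; intro b _
      by_cases hab : k < a + b
      · have : γ a b = 0 := h0 a b hab
        simp [this]
      · have := lim3231 k N (a + b + 1) (by omega)
        have h3 := this.const_mul (γ a b : ℝ)
        simpa using h3
    have hval : ∑ a ∈ range (k + 1), ∑ b ∈ range (k + 1),
          (γ a b : ℝ) * (if a + b = k then 1 else 0) = ∑ ab ∈ antidiagonal k, (γ ab.1 ab.2 : ℝ) := by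
      rw [Finset.Nat.sum_antidiagonal_eq_sum_range_succ_mk]
      apply sum_congr rfl; intro a ha
      have ha' := mem_range.1 ha
      rw [sum_eq_single (k - a)]
      · rw [if_pos (by omega)]; simp
      · intro b _ hb
        rw [if_neg (by omega)]; simp
      · intro hb
        exact absurd (mem_range.2 (by omega)) hb
    rw [hval] at hlim
    refine hlim.congr ?_
    intro m
    rw [mul_sum, sum_div]
    apply sum_congr rfl; intro a _
    rw [mul_sum, sum_div]
    apply sum_congr rfl; intro b _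
    ring
  have herr : Tendsto (fun m : ℕ => ((k + 1).factorial : ℝ) *
      ((2 * N + 1) * (C * ((m + 2 * N : ℕ) + 1 : ℝ) ^ k)) / ((m + 2 * N : ℕ) : ℝ) ^ (k + 1)) atTop
      (𝓝 0) := by
    have hx : Tendsto (fun m : ℕ => 1 + 1 / ((m + 2 * N : ℕ) : ℝ)) atTop (𝓝 (1 + 0)) :=
      hinv.const_add 1
    have h3 := ((hx.pow k).mul hinv).const_mul (((k + 1).factorial : ℝ) * ((2 * N + 1) * C))
    rw [mul_zero, mul_zero] at h3
    refine h3.congr' ?_
    filter_upwards [eventually_gt_atTop 0] with m hm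
    have e1 : ((m + 2 * N : ℕ) : ℝ) ≠ 0 := by positivity
    generalize ((m + 2 * N : ℕ) : ℝ) = X at *
    rw [show 1 + 1 / X = (X + 1) / X by field_simp, div_pow, pow_succ]
    field_simp
  rw [← tendsto_add_atTop_iff_nat (2 * N)]
  have hdiff : Tendsto (fun m : ℕ => ((k + 1).factorial : ℝ) *
      (∑ s ∈ range (m + 2 * N), (h (m + 2 * N - s) s : ℝ)) / ((m + 2 * N : ℕ) : ℝ) ^ (k + 1)
      - ((k + 1).factorial : ℝ) *
      (∑ a ∈ range (k + 1), ∑ b ∈ range (k + 1),
        (γ a b : ℝ) * ((m + 1).choose (a + b + 1) : ℝ)) / ((m + 2 * N : ℕ) : ℝ) ^ (k + 1)) atTop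
      (𝓝 0) := by
    refine squeeze_zero_norm ?_ herr
    intro m
    rw [← sub_div, ← mul_sub, norm_div, norm_mul, Real.norm_eq_abs, Real.norm_eq_abs,
      Real.norm_eq_abs]
    have hp : |((m + 2 * N : ℕ) : ℝ) ^ (k + 1)| = ((m + 2 * N : ℕ) : ℝ) ^ (k + 1) :=
      abs_of_nonneg (by positivity)
    have hf : |((k + 1).factorial : ℝ)| = ((k + 1).factorial : ℝ) :=
      abs_of_nonneg (by positivity)
    rw [hp, hf]
    apply div_le_div_of_nonneg_right _ (by positivity)
    apply mul_le_mul_of_nonneg_left (hS m) (by positivity)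
  have := hdiff.add hmain
  rw [zero_add] at this
  refine this.congr ?_
  intro m
  ring

end Pool.Agent.H195L.L10
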