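import Pool.Agent.H195_lech.Spec2

/-!
# Stirling refinement of Lech's inequality (MP_eae75b_ag): asymptotics in one direction
-/

set_option autoImplicit false

namespace Pool.Agent.H195L.L11

open Finset Filter Topology
open scoped BigOperators

theorem asy2_desc (N a : ℕ) : Tendsto (fun n : ℕ => ((n - N).descFactorial a : ℝ) / (n : ℝ) ^ a)
    atTop (𝓝 1) := by
  have h1 : Tendsto (fun n : ℕ => ∏ i ∈ range a, (1 - ((N : ℝ) + i) / n)) atTop (𝓝 1) := by
    have h2 : Tendsto (fun n : ℕ => ∏ i ∈ range a, (1 - ((N : ℝ) + i) / n)) atTop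
        (𝓝 (∏ _i ∈ range a, (1 - 0 : ℝ))) := by
      apply tendsto_finsetProd
      intro i _
      exact tendsto_const_nhds.sub (tendsto_const_div_atTop_nhds_zero_nat _)
    simpa using h2
  refine h1.congr' ?_
  filter_upwards [eventually_ge_atTop (N + a + 1)] with n hn
  have hn0 : (n : ℝ) ≠ 0 := by
    have : n ≠ 0 := by omega
    exact_mod_cast this
  rw [Nat.descFactorial_eq_prod_range, Nat.cast_prod, ← Finset.card_range a,
    ← Finset.prod_const, Finset.card_range, ← Finset.prod_div_distrib]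
  apply Finset.prod_congr rfl
  intro i hi
  have hi' := Finset.mem_range.1 hi
  rw [Nat.cast_sub (by omega), Nat.cast_sub (by omega)]
  field_simp
  ring

theorem asy2_choose (k N a : ℕ) (ha : a ≤ k) :
    Tendsto (fun n : ℕ => (k.factorial : ℝ) * ((n - N).choose a : ℝ) / (n : ℝ) ^ k)
    atTop (𝓝 (if a = k then 1 else 0)) := by
  have h1 := asy2_desc N a
  have hform : ∀ n : ℕ, 0 < n → (k.factorial : ℝ) * ((n - N).choose a : ℝ) / (n : ℝ) ^ k =
      (k.factorial : ℝ) / a.factorial * (((n - N).descFactorial a : ℝ) / (n : ℝ) ^ a) *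
        (1 / (n : ℝ)) ^ (k - a) := by
    intro n hn
    have hn0 : (n : ℝ) ≠ 0 := by
      have : n ≠ 0 := by omega
      exact_mod_cast this
    have hf : (a.factorial : ℝ) ≠ 0 := by exact_mod_cast a.factorial_ne_zero
    rw [Nat.descFactorial_eq_factorial_mul_choose]
    push_cast
    obtain ⟨c, rfl⟩ := Nat.exists_eq_add_of_le ha
    rw [Nat.add_sub_cancel_left, pow_add, one_div, inv_pow]
    field_simp
  have h2 : Tendsto (fun n : ℕ => (1 / (n : ℝ)) ^ (k - a)) atTop (𝓝 (if a = k then 1 else 0)) := by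
    split_ifs with hak
    · rw [hak, Nat.sub_self]
      simp
    · have h3 : Tendsto (fun n : ℕ => (1 / (n : ℝ)) ^ (k - a)) atTop (𝓝 (0 ^ (k - a))) :=
        (tendsto_const_div_atTop_nhds_zero_nat 1).pow (k - a)
      rwa [zero_pow (by omega)] at h3
  have h4 : Tendsto (fun n : ℕ => (k.factorial : ℝ) / a.factorial *
      (((n - N).descFactorial a : ℝ) / (n : ℝ) ^ a) * (1 / (n : ℝ)) ^ (k - a)) atTop
      (𝓝 ((k.factorial : ℝ) / a.factorial * 1 * (if a = k then 1 else 0))) :=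
    (h1.const_mul _).mul h2
  have h5 : (k.factorial : ℝ) / a.factorial * 1 * (if a = k then 1 else 0) =
      (if a = k then 1 else 0) := by
    split_ifs with hak
    · rw [hak, mul_one, mul_one, div_self (by exact_mod_cast k.factorial_ne_zero)]
    · rw [mul_zero]
  rw [h5] at h4
  refine h4.congr' ?_
  filter_upwards [eventually_gt_atTop 0] with n hn
  exact (hform n hn).symm

theorem asy2_one (k N : ℕ) (h : ℕ → ℕ → ℕ) (γ : ℕ → ℕ → ℤ)
    (h1 : ∀ α β : ℕ, (h (N + α) (N + β) : ℤ) =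
      ∑ a ∈ range (k + 1), ∑ b ∈ range (k + 1), γ a b * ((α.choose a : ℤ) * (β.choose b : ℤ))) :
    Tendsto (fun n : ℕ => (k.factorial : ℝ) * (h n N : ℝ) / (n : ℝ) ^ k) atTop
      (𝓝 (γ k 0 : ℝ)) := by
  have h2 : ∀ n, N ≤ n → (h n N : ℝ) = ∑ a ∈ range (k + 1), (γ a 0 : ℝ) * ((n - N).choose a : ℝ) := by
    intro n hn
    have h3 := h1 (n - N) 0
    rw [Nat.add_sub_cancel' hn, Nat.add_zero] at h3
    have h4 : ∀ a ∈ range (k + 1), ∑ b ∈ range (k + 1),
        γ a b * (((n - N).choose a : ℤ) * ((0 : ℕ).choose b : ℤ)) =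
        γ a 0 * ((n - N).choose a : ℤ) := by
      intro a _
      rw [Finset.sum_range_succ']
      simp
    rw [Finset.sum_congr rfl h4] at h3
    have h5 : ((h n N : ℤ) : ℝ) = ((∑ a ∈ range (k + 1), γ a 0 * ((n - N).choose a : ℤ) : ℤ) : ℝ) := by
      rw [h3]
    push_cast at h5
    exact h5
  have h6 : Tendsto (fun n : ℕ => ∑ a ∈ range (k + 1), (γ a 0 : ℝ) *
      ((k.factorial : ℝ) * ((n - N).choose a : ℝ) / (n : ℝ) ^ k)) atTop
      (𝓝 (∑ a ∈ range (k + 1), (γ a 0 : ℝ) * (if a = k then 1 else 0))) := by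
    apply tendsto_finsetSum
    intro a ha
    exact (asy2_choose k N a (by have := Finset.mem_range.1 ha; omega)).const_mul _
  have h7 : ∑ a ∈ range (k + 1), (γ a 0 : ℝ) * (if a = k then 1 else 0) = (γ k 0 : ℝ) := by
    simp
  rw [h7] at h6
  refine h6.congr' ?_
  filter_upwards [eventually_ge_atTop N] with n hn
  rw [h2 n hn, Finset.mul_sum, Finset.sum_div]
  apply Finset.sum_congr rfl
  intro a _
  ring

/-! TARGET (S_ASY2), asymptotics in one direction (the definitions above are not needed).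
Plain proof. For `n ≥ N`, `h n N = h (N + (n-N)) (N + 0) = ∑_{a ≤ k} γ a 0 * choose (n-N) a` (as `choose 0 b = 0` for
`b ≥ 1`), and `k! choose (n-N) a / n^k` tends to `1` for `a = k` and to `0` for `a < k`. The same for the
other variable. -/
theorem s_asy2 (k N : ℕ) (h : ℕ → ℕ → ℕ) (γ : ℕ → ℕ → ℤ)
    (h0 : ∀ a b, k < a + b → γ a b = 0)
    (h1 : ∀ α β : ℕ, (h (N + α) (N + β) : ℤ) =
      ∑ a ∈ range (k + 1), ∑ b ∈ range (k + 1), γ a b * ((α.choose a : ℤ) * (β.choose b : ℤ))) :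
    Tendsto (fun n : ℕ => (k.factorial : ℝ) * (h n N : ℝ) / (n : ℝ) ^ k) atTop (𝓝 (γ k 0 : ℝ)) ∧
    Tendsto (fun n : ℕ => (k.factorial : ℝ) * (h N n : ℝ) / (n : ℝ) ^ k) atTop (𝓝 (γ 0 k : ℝ)) := by
  have _ := h0
  refine ⟨asy2_one k N h γ h1, asy2_one k N (fun a b => h b a) (fun a b => γ b a) ?_⟩
  intro α β
  rw [h1 β α, Finset.sum_comm]
  apply Finset.sum_congr rfl
  intro a _
  apply Finset.sum_congr rfl
  intro b _
  ring

end Pool.Agent.H195L.L11
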