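import Pool.Agent.H195_lech.Spec2

/-!
# Stirling refinement of Lech's inequality (MP_eae75b_ag): exchange property of the generic exponents
-/

set_option autoImplicit false

namespace Pool.Agent.H195L.L14

open Finset Filter Topology
open scoped BigOperators

section GA

variable {n : ℕ}

theorem ga_apply_e (b : Fin n →₀ ℕ) {p q : Fin n} (hpq : p < q) (r : ℕ) (j : Fin n) :
    (b.erase p + Finsupp.single p (b p - r) + Finsupp.single q r) j =
      if j = p then b p - r else b j + (if j = q then r else 0) := by
  classical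
  simp only [Finsupp.add_apply, Finsupp.erase_apply, Finsupp.single_apply]
  by_cases hj : j = p
  · subst hj
    simp [hpq.ne']
  · have : ¬ p = j := fun h => hj h.symm
    simp only [hj, this, if_false, add_zero]
    by_cases hq : j = q
    · simp [hq]
    · have : ¬ q = j := fun h => hq h.symm
      simp [hq, this]

theorem ga_apply_a (a : Fin n →₀ ℕ) {p q : Fin n} (hpq : p < q) (j : Fin n) :
    (a - Finsupp.single p (a p) + Finsupp.single q (a p)) j =
      if j = p then 0 else a j + (if j = q then a p else 0) := by
  classical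
  simp only [Finsupp.add_apply, Finsupp.tsub_apply, Finsupp.single_apply]
  by_cases hj : j = p
  · subst hj
    simp [hpq.ne']
  · have : ¬ p = j := fun h => hj h.symm
    simp only [hj, this, if_false, tsub_zero]
    by_cases hq : j = q
    · simp [hq]
    · have : ¬ q = j := fun h => hq h.symm
      simp [hq, this]

theorem ga_lex {a b : Fin n →₀ ℕ} {p q : Fin n} (hpq : p < q) {r : ℕ} (hr : r ≤ a p)
    (hba : ¬ toLex b < toLex a) (hrb : r ≤ b p)
    (he : toLex (b.erase p + Finsupp.single p (b p - r) + Finsupp.single q r) ≤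
      toLex (a - Finsupp.single p (a p) + Finsupp.single q (a p))) : b = a ∧ r = a p := by
  have hnlt : ¬ toLex (a - Finsupp.single p (a p) + Finsupp.single q (a p)) <
      toLex (b.erase p + Finsupp.single p (b p - r) + Finsupp.single q r) := not_lt.2 he
  -- first: r < a p with agreement up to p is impossible
  by_cases hab : b = a
  · subst hab
    refine ⟨rfl, ?_⟩
    by_contra hne
    have hlt : r < b p := lt_of_le_of_ne hr hne
    apply hnlt
    rw [Finsupp.Lex.lt_iff]
    refine ⟨p, fun j hj => ?_, ?_⟩
    · show (b - Finsupp.single p (b p) + Finsupp.single q (b p)) j =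
        (b.erase p + Finsupp.single p (b p - r) + Finsupp.single q r) j
      rw [ga_apply_a b hpq, ga_apply_e b hpq, if_neg hj.ne, if_neg hj.ne,
        if_neg (hj.trans hpq).ne, if_neg (hj.trans hpq).ne]
    · show (b - Finsupp.single p (b p) + Finsupp.single q (b p)) p <
        (b.erase p + Finsupp.single p (b p - r) + Finsupp.single q r) p
      rw [ga_apply_a b hpq, ga_apply_e b hpq, if_pos rfl, if_pos rfl]
      omega
  · exfalso
    have hlt : toLex a < toLex b := by
      rcases lt_trichotomy (toLex a) (toLex b) with h | h | h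
      · exact h
      · exact absurd (toLex.injective h).symm hab
      · exact absurd h hba
    rw [Finsupp.Lex.lt_iff] at hlt
    obtain ⟨l, hl1, hl2⟩ := hlt
    have hl1' : ∀ j < l, a j = b j := hl1
    have hl2' : a l < b l := hl2
    apply hnlt
    rw [Finsupp.Lex.lt_iff]
    rcases lt_trichotomy l p with hlp | hlp | hlp
    · refine ⟨l, fun j hj => ?_, ?_⟩
      · show (a - Finsupp.single p (a p) + Finsupp.single q (a p)) j =
          (b.erase p + Finsupp.single p (b p - r) + Finsupp.single q r) j
        rw [ga_apply_a a hpq, ga_apply_e b hpq, if_neg (hj.trans hlp).ne,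
          if_neg (hj.trans hlp).ne, if_neg (hj.trans (hlp.trans hpq)).ne,
          if_neg (hj.trans (hlp.trans hpq)).ne, hl1' j hj]
      · show (a - Finsupp.single p (a p) + Finsupp.single q (a p)) l <
          (b.erase p + Finsupp.single p (b p - r) + Finsupp.single q r) l
        rw [ga_apply_a a hpq, ga_apply_e b hpq, if_neg hlp.ne,
          if_neg hlp.ne, if_neg (hlp.trans hpq).ne, if_neg (hlp.trans hpq).ne]
        omega
    · subst hlp
      refine ⟨l, fun j hj => ?_, ?_⟩
      · show (a - Finsupp.single l (a l) + Finsupp.single q (a l)) j =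
          (b.erase l + Finsupp.single l (b l - r) + Finsupp.single q r) j
        rw [ga_apply_a a hpq, ga_apply_e b hpq, if_neg hj.ne, if_neg hj.ne,
          if_neg (hj.trans hpq).ne, if_neg (hj.trans hpq).ne, hl1' j hj]
      · show (a - Finsupp.single l (a l) + Finsupp.single q (a l)) l <
          (b.erase l + Finsupp.single l (b l - r) + Finsupp.single q r) l
        rw [ga_apply_a a hpq, ga_apply_e b hpq, if_pos rfl, if_pos rfl]
        omega
    · have hbp : a p = b p := hl1' p hlp
      rcases hr.eq_or_lt with hr' | hr'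
      · refine ⟨l, fun j hj => ?_, ?_⟩
        · show (a - Finsupp.single p (a p) + Finsupp.single q (a p)) j =
            (b.erase p + Finsupp.single p (b p - r) + Finsupp.single q r) j
          rw [ga_apply_a a hpq, ga_apply_e b hpq, hl1' j hj, hr', hbp]
          simp
        · show (a - Finsupp.single p (a p) + Finsupp.single q (a p)) l <
            (b.erase p + Finsupp.single p (b p - r) + Finsupp.single q r) l
          rw [ga_apply_a a hpq, ga_apply_e b hpq, hr', if_neg hlp.ne', if_neg hlp.ne']
          omega
      · refine ⟨p, fun j hj => ?_, ?_⟩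
        · show (a - Finsupp.single p (a p) + Finsupp.single q (a p)) j =
            (b.erase p + Finsupp.single p (b p - r) + Finsupp.single q r) j
          rw [ga_apply_a a hpq, ga_apply_e b hpq, if_neg hj.ne, if_neg hj.ne,
            if_neg (hj.trans hpq).ne, if_neg (hj.trans hpq).ne, hl1' j (hj.trans hlp)]
        · show (a - Finsupp.single p (a p) + Finsupp.single q (a p)) p <
            (b.erase p + Finsupp.single p (b p - r) + Finsupp.single q r) p
          rw [ga_apply_a a hpq, ga_apply_e b hpq, if_pos rfl, if_pos rfl]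
          omega

theorem ga_eq {a : Fin n →₀ ℕ} {p q : Fin n} (hpq : p < q) :
    a.erase p + Finsupp.single p (a p - a p) + Finsupp.single q (a p) =
      a - Finsupp.single p (a p) + Finsupp.single q (a p) := by
  ext j
  rw [ga_apply_a a hpq, ga_apply_e a hpq, Nat.sub_self]

variable {C : Type} [CommRing C]

/-- the substitution on the big ring -/
noncomputable def gaPsi (ψ : C →+* Polynomial C) (p q : Fin n) :
    MvPolynomial (Fin n) C →+* Polynomial (MvPolynomial (Fin n) C) :=
  MvPolynomial.eval₂Hom ((Polynomial.mapRingHom MvPolynomial.C).comp ψ)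
    (fun j => if j = p then Polynomial.C (MvPolynomial.X p) +
      Polynomial.X * Polynomial.C (MvPolynomial.X q) else Polynomial.C (MvPolynomial.X j))

theorem ga_pow {R : Type} [CommRing R] (u v : R) (m r : ℕ) :
    ((Polynomial.C u + Polynomial.X * Polynomial.C v) ^ m).coeff r =
      u ^ (m - r) * v ^ r * (m.choose r : R) := by
  rw [add_comm, add_pow, Polynomial.finsetSum_coeff]
  have h : ∀ k ∈ Finset.range (m + 1),
      ((Polynomial.X * Polynomial.C v) ^ k * Polynomial.C u ^ (m - k) *
        ((m.choose k : ℕ) : Polynomial R)).coeff r =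
      if k = r then u ^ (m - r) * v ^ r * (m.choose r : R) else 0 := by
    intro k _
    have : (Polynomial.X * Polynomial.C v) ^ k * Polynomial.C u ^ (m - k) *
        ((m.choose k : ℕ) : Polynomial R) =
        Polynomial.C (v ^ k * u ^ (m - k) * (m.choose k : R)) * Polynomial.X ^ k := by
      rw [mul_pow]
      simp only [map_mul, map_pow, map_natCast]
      ring
    rw [this, Polynomial.coeff_C_mul_X_pow]
    by_cases hk : k = r
    · subst hk
      simp
      ring
    · rw [if_neg hk, if_neg (fun h => hk h.symm)]
  rw [Finset.sum_congr rfl h, Finset.sum_ite_eq' (Finset.range (m + 1)) r]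
  by_cases hr : r ∈ Finset.range (m + 1)
  · rw [if_pos hr]
  · rw [if_neg hr]
    rw [Finset.mem_range, not_lt] at hr
    rw [Nat.choose_eq_zero_of_lt (by omega)]
    simp

theorem ga_psi_erase (ψ : C →+* Polynomial C) (p q : Fin n) (b : Fin n →₀ ℕ) :
    gaPsi ψ p q (MvPolynomial.monomial (b.erase p) 1) =
      Polynomial.C (MvPolynomial.monomial (b.erase p) 1) := by
  unfold gaPsi
  rw [MvPolynomial.coe_eval₂Hom, MvPolynomial.eval₂_monomial, map_one, one_mul,
    MvPolynomial.monomial_eq, map_one, one_mul, Finsupp.prod, Finsupp.prod, map_prod]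
  refine Finset.prod_congr rfl fun j hj => ?_
  have hjp : j ≠ p := by
    rintro rfl
    simp at hj
  rw [if_neg hjp, map_pow]

theorem ga_formula (ψ : C →+* Polynomial C) (p q : Fin n) (b : Fin n →₀ ℕ) (f : C) (s : ℕ)
    (e : Fin n →₀ ℕ) :
    MvPolynomial.coeff e ((gaPsi ψ p q (MvPolynomial.monomial b f)).coeff s) =
      ∑ r ∈ Finset.range (s + 1),
        if b.erase p + Finsupp.single p (b p - r) + Finsupp.single q r = e then
          (ψ f).coeff (s - r) * ((b p).choose r : C) else 0 := by
  classical
  have hb : MvPolynomial.monomial b f = MvPolynomial.X p ^ (b p) * (MvPolynomial.C f *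
      MvPolynomial.monomial (b.erase p) 1) := by
    rw [MvPolynomial.X_pow_eq_monomial, MvPolynomial.C_mul_monomial, MvPolynomial.monomial_mul,
      Finsupp.single_add_erase]
    simp
  have hX : gaPsi ψ p q (MvPolynomial.X p) = Polynomial.C (MvPolynomial.X p) +
      Polynomial.X * Polynomial.C (MvPolynomial.X q) := by
    unfold gaPsi
    rw [MvPolynomial.coe_eval₂Hom, MvPolynomial.eval₂_X, if_pos rfl]
  have hC : gaPsi ψ p q (MvPolynomial.C f) = (ψ f).map MvPolynomial.C := by
    unfold gaPsi
    rw [MvPolynomial.coe_eval₂Hom, MvPolynomial.eval₂_C]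
    rfl
  rw [hb, map_mul, map_mul, map_pow, ga_psi_erase, hX, hC, Polynomial.coeff_mul,
    Finset.Nat.sum_antidiagonal_eq_sum_range_succ_mk, MvPolynomial.coeff_sum]
  refine Finset.sum_congr rfl fun r _ => ?_
  dsimp only
  rw [ga_pow, Polynomial.coeff_mul_C, Polynomial.coeff_map]
  have : (MvPolynomial.X p ^ (b p - r) * MvPolynomial.X q ^ r *
      (((b p).choose r : ℕ) : MvPolynomial (Fin n) C)) *
      (MvPolynomial.C ((ψ f).coeff (s - r)) * MvPolynomial.monomial (b.erase p) 1) =
      MvPolynomial.monomial (b.erase p + Finsupp.single p (b p - r) + Finsupp.single q r)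
        ((ψ f).coeff (s - r) * ((b p).choose r : C)) := by
    rw [MvPolynomial.X_pow_eq_monomial, MvPolynomial.X_pow_eq_monomial,
      ← map_natCast (MvPolynomial.C : C →+* MvPolynomial (Fin n) C)]
    rw [MvPolynomial.monomial_mul, mul_comm _ (MvPolynomial.C (((b p).choose r : ℕ) : C)),
      MvPolynomial.C_mul_monomial, MvPolynomial.C_mul_monomial, MvPolynomial.monomial_mul]
    congr 1
    · congr 1
      abel
    · ring
  rw [this, MvPolynomial.coeff_monomial]

theorem ga_lead (ψ : C →+* Polynomial C) (hψ : ∀ f, (ψ f).coeff 0 = f) {p q : Fin n}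
    (hpq : p < q) {F : MvPolynomial (Fin n) C} {a : Fin n →₀ ℕ} (hF : Lead F a) :
    Lead ((gaPsi ψ p q F).coeff (a p))
      (a - Finsupp.single p (a p) + Finsupp.single q (a p)) := by
  classical
  have hexp : ∀ e, MvPolynomial.coeff e ((gaPsi ψ p q F).coeff (a p)) =
      ∑ b ∈ F.support, ∑ r ∈ Finset.range (a p + 1),
        if b.erase p + Finsupp.single p (b p - r) + Finsupp.single q r = e then
          (ψ (MvPolynomial.coeff b F)).coeff (a p - r) * ((b p).choose r : C) else 0 := by
    intro e
    conv_lhs => rw [← MvPolynomial.support_sum_monomial_coeff F]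
    rw [map_sum, Polynomial.finsetSum_coeff, MvPolynomial.coeff_sum]
    refine Finset.sum_congr rfl fun b _ => ?_
    rw [ga_formula]
  have hkey : ∀ e, toLex e ≤ toLex (a - Finsupp.single p (a p) + Finsupp.single q (a p)) →
      ∀ b ∈ F.support, ∀ r ∈ Finset.range (a p + 1), ¬ (b = a ∧ r = a p) →
      (if b.erase p + Finsupp.single p (b p - r) + Finsupp.single q r = e then
          (ψ (MvPolynomial.coeff b F)).coeff (a p - r) * ((b p).choose r : C) else 0) = 0 := by
    intro e he b hb r hr hne
    split_ifs with h
    · by_cases hrb : r ≤ b p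
      · exfalso
        apply hne
        refine ga_lex hpq (by rw [Finset.mem_range] at hr; omega) ?_ hrb (by rw [h]; exact he)
        intro hlt
        exact (MvPolynomial.mem_support_iff.1 hb) (hF.2 b hlt)
      · rw [Nat.choose_eq_zero_of_lt (by omega)]
        simp
    · rfl
  constructor
  · have ha : a ∈ F.support := MvPolynomial.mem_support_iff.2 hF.1
    rw [hexp, Finset.sum_eq_single_of_mem a ha ?_, Finset.sum_eq_single_of_mem (a p)
      (by rw [Finset.mem_range]; omega) ?_, if_pos (ga_eq hpq), Nat.sub_self, hψ,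
      Nat.choose_self, Nat.cast_one, mul_one]
    · exact hF.1
    · intro r hr hne
      exact hkey _ le_rfl a ha r hr (fun h => hne h.2)
    · intro b hb hne
      exact Finset.sum_eq_zero fun r hr => hkey _ le_rfl b hb r hr (fun h => hne h.1)
  · intro e he
    rw [hexp]
    refine Finset.sum_eq_zero fun b hb => Finset.sum_eq_zero fun r hr => ?_
    by_cases h : b = a ∧ r = a p
    · rw [if_neg]
      rw [h.1, h.2, ga_eq hpq]
      rintro rfl
      exact lt_irrefl _ he
    · exact hkey e he.le b hb r hr h

end GA

/-- the substitution on the coefficients -/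
noncomputable def gapsi (K : Type) [Field K] (n : ℕ) (p q : Fin n) :
    CC K n →+* Polynomial (CC K n) :=
  MvPolynomial.eval₂Hom ((Polynomial.C).comp MvPolynomial.C)
    (fun jt => if jt.1 = p then Polynomial.C (MvPolynomial.X (p, jt.2)) +
      Polynomial.X * Polynomial.C (MvPolynomial.X (q, jt.2)) else
        Polynomial.C (MvPolynomial.X jt))

theorem gapsi_coeff (K : Type) [Field K] (n : ℕ) (p q : Fin n) (f : CC K n) :
    (gapsi K n p q f).coeff 0 = f := by
  have : (Polynomial.constantCoeff).comp (gapsi K n p q) = RingHom.id (CC K n) := by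
    refine MvPolynomial.ringHom_ext (fun k => ?_) (fun jt => ?_)
    · simp [gapsi]
    · simp only [gapsi, RingHom.comp_apply, MvPolynomial.coe_eval₂Hom, MvPolynomial.eval₂_X,
        RingHom.id_apply]
      split_ifs with h
      · obtain ⟨j, t⟩ := jt
        simp only at h
        subst h
        simp
      · simp
  exact RingHom.congr_fun this f

/-! TARGET (S_GA), the exchange property of the generic initial exponents, in any characteristic.
Notation: `C = CC K n = K[c_{jt}]`, `A = MvPolynomial (Fin n) C`, `θ = chg (c) : A → A`, `y_j ↦ ∑_t c_{jt} x_t`,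
`ι : K[x] → A`, `I_C = I.map ι`, `J' = gideal = θ⁻¹(I_C)`.
Plain proof. Let `F ∈ J'` with leading exponent `a` (lexicographically smallest, index `0` most significant), leading
coefficient `P = coeff a F ∈ C`, and `p < q`. Let `ψ : C →+* C[ε]` (`Polynomial C`) be the ring
homomorphism over `K` with `c_{pt} ↦ c_{pt} + ε c_{qt}` (all `t`), `c_{jt} ↦ c_{jt}` for `j ≠ p`. Let
`Ψ : A →+* Polynomial A` be `ψ` on the coefficients (embedded in `Polynomial A`) and `y_p ↦ y_p + ε y_q`, `y_j ↦ y_j` (`j ≠ p`); let
`σ : A →+* Polynomial A` be `ψ` on coefficients and `x_t ↦ x_t`. Then (check on generators)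
`(Polynomial.mapRingHom θ) ∘ Ψ = σ ∘ θ`, since both send `y_p` to `∑ c_{pt} x_t + ε ∑ c_{qt} x_t`. And `σ ∘ ι = Polynomial.C ∘ ι`, so `σ(I_C) ⊆ I_C.map Polynomial.C`,
the polynomials with all coefficients in `I_C` (`Ideal.mem_map_C_iff`). Hence for `F ∈ J'` all
coefficients of `Ψ F` lie in `J'`. Let `s = a p` and `H = (Ψ F).coeff s ∈ J'`. Claim: `H` has leading exponent
`a* = a - single p (a p) + single q (a p)`, with coefficient `P`. For a monomial `f y^b`, `f ∈ C`,
`(Ψ (f y^b)).coeff s = ∑_{r ≤ min(b p, s)} choose (b p) r • (ψ f).coeff (s - r) • y^(b - single p r + single q r)`.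
If `b = a`: the term `r = s` is `(ψ P).coeff 0 y^{a*} = P y^{a*}` (`(ψ f).coeff 0 = f`), the terms `r < s` have exponents
which are lex-larger than `a*` (same entries before `p`, entry `s - r > 0` at `p`, whereas `a* p = 0`). If
`b > a` lex, every exponent `b - single p r + single q r`, `r ≤ s`, is lex-larger than `a*`: let `l` be the first
index with `a l ≠ b l`, so `a l < b l`. If `l < p`: clear. If `l = p`: the entry at `p` is
`b p - r ≥ b p - a p > 0 = a* p`. If `l > p`: `b p = a p = s`; if `r < s` the entry at `p` is positive; if `r = s`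
both vectors arise from `b`, `a` by the same change, so the order is kept (only entries at `p` and `q` change, by equal amounts).
By linearity `coeff b' H = 0` for `b' < a*` and `coeff a* H = P ≠ 0`. -/
theorem s_ga (K : Type) [Field K] (n : ℕ) (I : Ideal (MvPolynomial (Fin n) K)) :
    Exch (gexp K n I) := by
  intro a ha p q hpq
  obtain ⟨F, hF, hL⟩ := ha
  refine ⟨(gaPsi (gapsi K n p q) p q F).coeff (a p), ?_,
    ga_lead (gapsi K n p q) (gapsi_coeff K n p q) hpq hL⟩
  set θ : MvPolynomial (Fin n) (CC K n) →+* MvPolynomial (Fin n) (CC K n) :=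
    (chg (K := CC K n) fun j t => MvPolynomial.X (j, t)).toRingHom with hθ
  set ι : MvPolynomial (Fin n) K →+* MvPolynomial (Fin n) (CC K n) :=
    MvPolynomial.map (MvPolynomial.C : K →+* CC K n) with hι
  set Ψ := gaPsi (gapsi K n p q) p q with hΨ
  let σ : MvPolynomial (Fin n) (CC K n) →+* Polynomial (MvPolynomial (Fin n) (CC K n)) :=
    MvPolynomial.eval₂Hom ((Polynomial.mapRingHom MvPolynomial.C).comp (gapsi K n p q))
      (fun t => Polynomial.C (MvPolynomial.X t))
  have hθC : ∀ c : CC K n, θ (MvPolynomial.C c) = MvPolynomial.C c := by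
    intro c
    exact MvPolynomial.aeval_C _ c
  have hθX : ∀ j, θ (MvPolynomial.X j) =
      ∑ t, MvPolynomial.C (MvPolynomial.X (j, t)) * MvPolynomial.X t := by
    intro j
    exact MvPolynomial.aeval_X _ j
  have hσC : ∀ c : CC K n, σ (MvPolynomial.C c) =
      Polynomial.map MvPolynomial.C (gapsi K n p q c) := fun c =>
    MvPolynomial.eval₂_C _ _ c
  have hσX : ∀ t, σ (MvPolynomial.X t) = Polynomial.C (MvPolynomial.X t) := fun t =>
    MvPolynomial.eval₂_X _ _ t
  have hΨC : ∀ c : CC K n, Ψ (MvPolynomial.C c) =
      Polynomial.map MvPolynomial.C (gapsi K n p q c) := fun c =>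
    MvPolynomial.eval₂_C _ _ c
  have hΨX : ∀ j, Ψ (MvPolynomial.X j) = if j = p then Polynomial.C (MvPolynomial.X p) +
      Polynomial.X * Polynomial.C (MvPolynomial.X q) else Polynomial.C (MvPolynomial.X j) :=
    fun j => MvPolynomial.eval₂_X _ _ j
  have hcX : ∀ jt : Fin n × Fin n, gapsi K n p q (MvPolynomial.X jt) =
      if jt.1 = p then Polynomial.C (MvPolynomial.X (p, jt.2)) +
      Polynomial.X * Polynomial.C (MvPolynomial.X (q, jt.2)) else
        Polynomial.C (MvPolynomial.X jt) := fun jt => MvPolynomial.eval₂_X _ _ jt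
  have hcC : ∀ k : K, gapsi K n p q (MvPolynomial.C k) =
      Polynomial.C (MvPolynomial.C k) := fun k => MvPolynomial.eval₂_C _ _ k
  have hcomm : (Polynomial.mapRingHom θ).comp Ψ = σ.comp θ := by
    refine MvPolynomial.ringHom_ext (fun c => ?_) (fun j => ?_)
    · rw [RingHom.comp_apply, RingHom.comp_apply, hΨC, hθC, hσC, Polynomial.coe_mapRingHom,
        Polynomial.map_map]
      congr 1
      exact RingHom.ext hθC
    · rw [RingHom.comp_apply, RingHom.comp_apply, hΨX, hθX, map_sum]
      simp only [map_mul, hσC, hσX, hcX]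
      by_cases hj : j = p
      · subst hj
        simp only [if_true, map_add, map_mul, Polynomial.coe_mapRingHom, Polynomial.map_C,
          Polynomial.map_X, hθX, Polynomial.map_add, Polynomial.map_mul, map_sum]
        rw [Finset.mul_sum, ← Finset.sum_add_distrib]
        refine Finset.sum_congr rfl fun t _ => ?_
        ring
      · simp only [hj, if_false, Polynomial.coe_mapRingHom, Polynomial.map_C, hθX, map_sum,
          map_mul]
  have hσι : σ.comp ι = (Polynomial.C).comp ι := by
    refine MvPolynomial.ringHom_ext (fun k => ?_) (fun t => ?_)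
    · rw [RingHom.comp_apply, RingHom.comp_apply, hι, MvPolynomial.map_C, hσC, hcC,
        Polynomial.map_C]
    · rw [RingHom.comp_apply, RingHom.comp_apply, hι, MvPolynomial.map_X, hσX]
  have hF' : θ F ∈ I.map ι := hF
  have h1 : σ (θ F) ∈ (I.map ι).map σ := Ideal.mem_map_of_mem σ hF'
  rw [Ideal.map_map, hσι, ← Ideal.map_map] at h1
  have h2 := Ideal.mem_map_C_iff.1 h1 (a p)
  have h3 : σ (θ F) = Polynomial.map θ (Ψ F) := by
    have := RingHom.congr_fun hcomm F
    exact this.symm
  rw [h3, Polynomial.coeff_map] at h2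
  exact h2

end Pool.Agent.H195L.L14
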