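import Pool.Agent.H195_lech.Spec2

/-!
# Stirling refinement of Lech's inequality (MP_eae75b_ag): counting the complement of the generic exponents
-/

set_option autoImplicit false

namespace Pool.Agent.H195L.L15

open Finset Filter Topology
open scoped BigOperators

theorem s_gb_fin (K : Type) [Field K] (n M : ℕ) (I : Ideal (MvPolynomial (Fin n) K))
    (hI : ∀ a : Fin n →₀ ℕ, M ≤ a.degree → MvPolynomial.monomial a (1 : K) ∈ I) :
    Module.Finite K (MvPolynomial (Fin n) K ⧸ I) := by
  have hfin : {a : Fin n →₀ ℕ | a.degree ≤ M}.Finite := Finsupp.finite_of_degree_le M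
  let g : (Fin n →₀ ℕ) → MvPolynomial (Fin n) K ⧸ I := fun a =>
    Ideal.Quotient.mk I (MvPolynomial.monomial a (1 : K))
  refine ⟨⟨(hfin.image g).toFinset, ?_⟩⟩
  rw [Set.Finite.coe_toFinset, eq_top_iff]
  rintro v -
  obtain ⟨p, rfl⟩ := Ideal.Quotient.mk_surjective v
  rw [p.as_sum, map_sum]
  refine Submodule.sum_mem _ fun a _ => ?_
  have e : MvPolynomial.monomial a (MvPolynomial.coeff a p) =
      MvPolynomial.coeff a p • MvPolynomial.monomial a (1 : K) := by
    rw [MvPolynomial.smul_monomial, smul_eq_mul, mul_one]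
  rw [e]
  have e2 : Ideal.Quotient.mk I (MvPolynomial.coeff a p • MvPolynomial.monomial a (1 : K)) =
      MvPolynomial.coeff a p • g a := rfl
  rw [e2]
  by_cases h : a.degree ≤ M
  · exact Submodule.smul_mem _ _ (Submodule.subset_span ⟨a, h, rfl⟩)
  · have : g a = 0 := Ideal.Quotient.eq_zero_iff_mem.2 (hI a (by omega))
    rw [this, smul_zero]
    exact Submodule.zero_mem _

theorem s_gb (K : Type) [Field K] (n M : ℕ) (I : Ideal (MvPolynomial (Fin n) K))
    (hI : ∀ a : Fin n →₀ ℕ, M ≤ a.degree → MvPolynomial.monomial a (1 : K) ∈ I) :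
    (gexp K n I)ᶜ.Finite ∧
      (gexp K n I)ᶜ.ncard ≤ Module.finrank K (MvPolynomial (Fin n) K ⧸ I) := by
  classical
  have hfin := s_gb_fin K n M I hI
  set l : ℕ := Module.finrank K (MvPolynomial (Fin n) K ⧸ I) with hl
  let C := CC K n
  let A := MvPolynomial (Fin n) C
  let ι : MvPolynomial (Fin n) K →+* A := MvPolynomial.map (MvPolynomial.C : K →+* C)
  let J : Ideal A := I.map ι
  let θ : A →ₐ[C] A := chg (K := C) fun j t => MvPolynomial.X (j, t)
  have hgi : ∀ F : A, F ∈ gideal K n I ↔ θ F ∈ J := fun F => Iff.rfl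
  -- a basis
  let b : Module.Basis (Fin l) K (MvPolynomial (Fin n) K ⧸ I) := Module.finBasis K _
  choose g hg using fun i => Ideal.Quotient.mk_surjective (b i)
  let w : Fin l → A ⧸ J := fun i => Ideal.Quotient.mk J (ι (g i))
  -- spanning
  have hspan : Submodule.span C (Set.range w) = ⊤ := by
    rw [eq_top_iff]
    rintro v -
    obtain ⟨F, rfl⟩ := Ideal.Quotient.mk_surjective v
    have key : ∀ p : MvPolynomial (Fin n) K,
        Ideal.Quotient.mk J (ι p) ∈ Submodule.span C (Set.range w) := by
      intro p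
      have h1 : p - ∑ i, (b.repr (Ideal.Quotient.mk I p) i) • g i ∈ I := by
        rw [← Ideal.Quotient.eq_zero_iff_mem, map_sub, map_sum]
        have : ∀ i, Ideal.Quotient.mk I ((b.repr (Ideal.Quotient.mk I p) i) • g i) =
            (b.repr (Ideal.Quotient.mk I p) i) • b i := fun i => by
          rw [← hg i]; rfl
        rw [Finset.sum_congr rfl fun i _ => this i, b.sum_repr, sub_self]
      have h2 : ι (p - ∑ i, (b.repr (Ideal.Quotient.mk I p) i) • g i) ∈ J :=
        Ideal.mem_map_of_mem ι h1
      rw [← Ideal.Quotient.eq_zero_iff_mem, map_sub, map_sub, sub_eq_zero] at h2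
      rw [h2, map_sum, map_sum]
      refine Submodule.sum_mem _ fun i _ => ?_
      have h3 : ι ((b.repr (Ideal.Quotient.mk I p) i) • g i) =
          (MvPolynomial.C (b.repr (Ideal.Quotient.mk I p) i) : C) • ι (g i) := by
        rw [MvPolynomial.smul_eq_C_mul, map_mul, MvPolynomial.smul_eq_C_mul]
        congr 1
        exact MvPolynomial.map_C _ _
      rw [h3]
      have h4 : Ideal.Quotient.mk J ((MvPolynomial.C (b.repr (Ideal.Quotient.mk I p) i) : C) •
          ι (g i)) = (MvPolynomial.C (b.repr (Ideal.Quotient.mk I p) i) : C) • w i := rfl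
      rw [h4]
      exact Submodule.smul_mem _ _ (Submodule.subset_span ⟨i, rfl⟩)
    rw [F.as_sum, map_sum]
    refine Submodule.sum_mem _ fun a _ => ?_
    have h5 : MvPolynomial.monomial a (MvPolynomial.coeff a F) =
        MvPolynomial.coeff a F • ι (MvPolynomial.monomial a (1 : K)) := by
      have : ι (MvPolynomial.monomial a (1 : K)) = MvPolynomial.monomial a (1 : C) := by
        show MvPolynomial.map _ _ = _
        rw [MvPolynomial.map_monomial, map_one]
      rw [this, MvPolynomial.smul_monomial, smul_eq_mul, mul_one]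
    rw [h5]
    have h6 : Ideal.Quotient.mk J (MvPolynomial.coeff a F • ι (MvPolynomial.monomial a (1 : K))) =
        MvPolynomial.coeff a F • Ideal.Quotient.mk J (ι (MvPolynomial.monomial a (1 : K))) := rfl
    rw [h6]
    exact Submodule.smul_mem _ _ (key _)
  -- independence
  let v : ((gexp K n I)ᶜ : Set (Fin n →₀ ℕ)) → A ⧸ J := fun a =>
    Ideal.Quotient.mk J (θ (MvPolynomial.monomial a.1 (1 : C)))
  have hind : LinearIndependent C v := by
    rw [linearIndependent_iff']
    intro s c hs
    by_contra hcon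
    push Not at hcon
    obtain ⟨a1, ha1, hne⟩ := hcon
    let F : A := ∑ a ∈ s, MvPolynomial.monomial a.1 (c a)
    have hcoef : ∀ a ∈ s, MvPolynomial.coeff a.1 F = c a := by
      intro a ha
      show MvPolynomial.coeff a.1 (∑ a ∈ s, MvPolynomial.monomial a.1 (c a)) = c a
      rw [MvPolynomial.coeff_sum, Finset.sum_eq_single a]
      · rw [MvPolynomial.coeff_monomial, if_pos rfl]
      · intro d _ hd
        rw [MvPolynomial.coeff_monomial, if_neg (fun h => hd (Subtype.ext h))]
      · intro h
        exact absurd ha h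
    have hcoef0 : ∀ d, (∀ a ∈ s, a.1 ≠ d) → MvPolynomial.coeff d F = 0 := by
      intro d hd
      show MvPolynomial.coeff d (∑ a ∈ s, MvPolynomial.monomial a.1 (c a)) = 0
      rw [MvPolynomial.coeff_sum]
      refine Finset.sum_eq_zero fun a ha => ?_
      rw [MvPolynomial.coeff_monomial, if_neg (hd a ha)]
    have hFJ : F ∈ gideal K n I := by
      rw [hgi, ← Ideal.Quotient.eq_zero_iff_mem, ← hs]
      show Ideal.Quotient.mk J (θ (∑ a ∈ s, MvPolynomial.monomial a.1 (c a))) = _
      rw [map_sum, map_sum]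
      refine Finset.sum_congr rfl fun a _ => ?_
      have h5 : MvPolynomial.monomial a.1 (c a) = c a • MvPolynomial.monomial a.1 (1 : C) := by
        rw [MvPolynomial.smul_monomial, smul_eq_mul, mul_one]
      rw [h5, map_smul]
      rfl
    have hsupp : F.support.Nonempty := ⟨a1.1, by
      rw [MvPolynomial.mem_support_iff, hcoef a1 ha1]
      exact hne⟩
    obtain ⟨a0, ha0, hmin⟩ := Finset.exists_min_image F.support toLex hsupp
    have hlead : Lead F a0 := by
      refine ⟨MvPolynomial.mem_support_iff.1 ha0, fun d hd => ?_⟩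
      by_contra hne'
      exact not_lt.2 (hmin d (MvPolynomial.mem_support_iff.2 hne')) hd
    have hmem : a0 ∈ gexp K n I := ⟨F, hFJ, hlead⟩
    by_cases h : ∀ a ∈ s, a.1 ≠ a0
    · exact MvPolynomial.mem_support_iff.1 ha0 (hcoef0 a0 h)
    · push Not at h
      obtain ⟨a, _, rfl⟩ := h
      exact a.2 hmem
  -- counting
  have hle := linearIndependent_le_span v hind (Set.range w) hspan
  have hcard : Fintype.card (Set.range w) ≤ l := by
    have := Fintype.card_range_le w
    simpa using this
  have hle2 : Cardinal.mk ((gexp K n I)ᶜ : Set (Fin n →₀ ℕ)) ≤ (l : Cardinal) :=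
    hle.trans (by exact_mod_cast hcard)
  have hfinite : (gexp K n I)ᶜ.Finite := by
    rw [← Cardinal.lt_aleph0_iff_set_finite]
    exact hle2.trans_lt (Cardinal.natCast_lt_aleph0)
  refine ⟨hfinite, ?_⟩
  have := Set.cast_ncard hfinite
  rw [← this] at hle2
  exact_mod_cast hle2

end Pool.Agent.H195L.L15
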