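import Pool.Agent.H195_lech.Spec2

/-!
# Stirling refinement of Lech's inequality (MP_eae75b_ag): specialisation of the generic coordinates
-/

set_option autoImplicit false

namespace Pool.Agent.H195L.L16

open Finset Filter Topology
open scoped BigOperators

/-- multiplication by a monomial shifts the leading exponent -/
lemma lead_mul_monomial {n : ℕ} {R : Type} [CommSemiring R] {F : MvPolynomial (Fin n) R}
    {a a' : Fin n →₀ ℕ} (hF : Lead F a) (h : a ≤ a') :
    Lead (F * MvPolynomial.monomial (a' - a) 1) a' := by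
  obtain ⟨h1, h2⟩ := hF
  refine ⟨?_, ?_⟩
  · rw [MvPolynomial.coeff_mul_monomial', if_pos tsub_le_self, tsub_tsub_cancel_of_le h, mul_one]
    exact h1
  · intro b hb
    rw [MvPolynomial.coeff_mul_monomial']
    by_cases hs : a' - a ≤ b
    · rw [if_pos hs, mul_one]
      apply h2
      have e1 : toLex b = toLex (b - (a' - a)) + toLex (a' - a) := by
        rw [← toLex_add, tsub_add_cancel_of_le hs]
      have e2 : toLex a' = toLex a + toLex (a' - a) := by
        rw [← toLex_add, add_tsub_cancel_of_le h]
      rw [e1, e2] at hb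
      exact lt_of_add_lt_add_right hb
    · rw [if_neg hs]

/-- specialising the generic coordinates -/
lemma map_chg (K : Type) [Field K] (n : ℕ) (γ : Fin n → Fin n → K)
    (F : MvPolynomial (Fin n) (CC K n)) :
    MvPolynomial.map (MvPolynomial.eval (fun p : Fin n × Fin n => γ p.1 p.2))
        (chg (K := CC K n) (fun j t => MvPolynomial.X (j, t)) F)
      = chg γ (MvPolynomial.map (MvPolynomial.eval (fun p : Fin n × Fin n => γ p.1 p.2)) F) := by
  have h : (MvPolynomial.map (MvPolynomial.eval (fun p : Fin n × Fin n => γ p.1 p.2))).comp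
      (chg (K := CC K n) (fun j t => MvPolynomial.X (j, t))).toRingHom
      = (chg γ).toRingHom.comp
        (MvPolynomial.map (MvPolynomial.eval (fun p : Fin n × Fin n => γ p.1 p.2))) := by
    apply MvPolynomial.ringHom_ext
    · intro r
      simp [chg, MvPolynomial.algebraMap_eq]
    · intro i
      simp [chg]
  exact RingHom.congr_fun h F

lemma map_ideal (K : Type) [Field K] (n : ℕ) (γ : Fin n → Fin n → K)
    (I : Ideal (MvPolynomial (Fin n) K)) :
    (I.map (MvPolynomial.map (MvPolynomial.C : K →+* CC K n))).map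
      (MvPolynomial.map (MvPolynomial.eval (fun p : Fin n × Fin n => γ p.1 p.2))) = I := by
  rw [Ideal.map_map]
  have h : (MvPolynomial.map (MvPolynomial.eval (fun p : Fin n × Fin n => γ p.1 p.2))).comp
      (MvPolynomial.map (MvPolynomial.C : K →+* CC K n))
      = RingHom.id (MvPolynomial (Fin n) K) := by
    apply MvPolynomial.ringHom_ext
    · intro r
      simp
    · intro i
      simp
  rw [h, Ideal.map_id]

/-! TARGET (S_GC), specialisation of the generic coordinates.
Notation: `C = CC K n = K[c_{jt}]`, `A = MvPolynomial (Fin n) C`, `θ = chg (c) : A → A`, `y_j ↦ ∑_t c_{jt} x_t`,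
`ι : K[x] → A` (`MvPolynomial.map MvPolynomial.C`), `I_C = I.map ι`, `gideal = θ⁻¹(I_C)`.
Plain proof. (1) `gexp` is an upper set: multiply `F` by a monomial `y^b` (`coeff (a+b) (F y^b) = coeff a F`, and
the lex order is compatible with addition). (2) By Dickson's lemma (`Fin n →₀ ℕ` is well-quasi-ordered) the upper
set `gexp` has finitely many minimal elements `a` and every element lies above one of them. For each choose
`F_a ∈ gideal` with leading exponent `a` and put `Q = ∏ coeff a F_a ≠ 0` (`C` is a domain). (3) Let `γ` with `Q(γ) ≠ 0`,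
let `ev : C →+* K` be evaluation at `γ`, and `F_a(γ) = MvPolynomial.map ev F_a ∈ K[y]`. It has leading exponent `a`
(`ev (coeff a F_a) ≠ 0`). And `map ev ∘ θ = chg γ ∘ map ev` (check on generators), `map ev ∘ ι = id`, so
`chg γ (F_a(γ)) = map ev (θ F_a) ∈ (I_C).map (map ev) = I`. (4) For `a' ∈ gexp`, `a' ≥ a` minimal, take
`F_a(γ) * monomial (a' - a) 1`; it has leading exponent `a'` and `chg γ` of it is in `I`. -/
theorem s_gc (K : Type) [Field K] (n M : ℕ) (I : Ideal (MvPolynomial (Fin n) K))
    (hI : ∀ a : Fin n →₀ ℕ, M ≤ a.degree → MvPolynomial.monomial a (1 : K) ∈ I) :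
    IsUpperSet (gexp K n I) ∧
    ∃ Q : MvPolynomial (Fin n × Fin n) K, Q ≠ 0 ∧
      ∀ γ : Fin n → Fin n → K, MvPolynomial.eval (fun p => γ p.1 p.2) Q ≠ 0 →
        ∀ a ∈ gexp K n I, ∃ F : MvPolynomial (Fin n) K, Lead F a ∧ chg γ F ∈ I := by
  classical
  refine ⟨?_, ?_⟩
  · rintro a a' haa' ⟨F, hF, hlead⟩
    exact ⟨F * MvPolynomial.monomial (a' - a) 1, Ideal.mul_mem_right _ _ hF,
      lead_mul_monomial hlead haa'⟩
  · have hpwo := Set.isPWO_of_wellQuasiOrderedLE (gexp K n I)
    have hfin : {a | Minimal (· ∈ gexp K n I) a}.Finite :=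
      (setOfPred_minimal_antichain _).finite_of_partiallyWellOrderedOn
        (hpwo.mono (setOfPred_minimal_subset _))
    have hex : ∀ a ∈ gexp K n I, ∃ F ∈ gideal K n I, Lead F a := fun a h => h
    choose! Fs hFs1 hFs2 using hex
    have hmem : ∀ a ∈ hfin.toFinset, a ∈ gexp K n I := by
      intro a ha
      rw [Set.Finite.mem_toFinset] at ha
      exact ha.1
    refine ⟨∏ a ∈ hfin.toFinset, MvPolynomial.coeff a (Fs a), ?_, ?_⟩
    · rw [Finset.prod_ne_zero_iff]
      intro a ha
      exact (hFs2 a (hmem a ha)).1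
    · intro γ hγ a' ha'
      rw [map_prod, Finset.prod_ne_zero_iff] at hγ
      obtain ⟨a, haa', hamin⟩ := hpwo.exists_le_minimal ha'
      have haT : a ∈ hfin.toFinset := by
        rw [Set.Finite.mem_toFinset]
        exact hamin
      have hag : a ∈ gexp K n I := hmem a haT
      have hlead : Lead (MvPolynomial.map
          (MvPolynomial.eval (fun p : Fin n × Fin n => γ p.1 p.2)) (Fs a)) a := by
        refine ⟨?_, ?_⟩
        · rw [MvPolynomial.coeff_map]
          exact hγ a haT
        · intro b hb
          rw [MvPolynomial.coeff_map, (hFs2 a hag).2 b hb, map_zero]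
      have hin : chg γ (MvPolynomial.map
          (MvPolynomial.eval (fun p : Fin n × Fin n => γ p.1 p.2)) (Fs a)) ∈ I := by
        have h1 : chg (K := CC K n) (fun j t => MvPolynomial.X (j, t)) (Fs a)
            ∈ I.map (MvPolynomial.map (MvPolynomial.C : K →+* CC K n)) := hFs1 a hag
        have h2 := Ideal.mem_map_of_mem
          (MvPolynomial.map (MvPolynomial.eval (fun p : Fin n × Fin n => γ p.1 p.2))) h1
        rw [map_ideal, map_chg] at h2
        exact h2
      refine ⟨_, lead_mul_monomial hlead haa', ?_⟩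
      rw [map_mul]
      exact Ideal.mul_mem_right _ _ hin

end Pool.Agent.H195L.L16
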