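import Pool.Agent.H195_lech.Spec2

/-!
# Stirling refinement of Lech's inequality (MP_eae75b_ag): the length bound
-/

set_option autoImplicit false

namespace Pool.Agent.H195L.L17

open Finset Filter Topology
open scoped BigOperators

/-! ### auxiliary lemmas for `s_len` -/

theorem sl_sub {n : ℕ} (a : Fin n →₀ ℕ) (m : ℕ) (hm : m ≤ a.degree) :
    ∃ b : Fin n →₀ ℕ, b ≤ a ∧ b.degree = m := by
  induction m with
  | zero => exact ⟨0, bot_le, by simp⟩
  | succ m ih =>
    obtain ⟨b, hb, hbm⟩ := ih (by omega)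
    have hne : b ≠ a := by
      rintro rfl
      omega
    obtain ⟨j, hj⟩ : ∃ j, b j < a j := by
      by_contra hcon
      push Not at hcon
      exact hne (le_antisymm hb (fun j => hcon j))
    refine ⟨b + Finsupp.single j 1, ?_, by simp [hbm]⟩
    intro t
    by_cases htj : t = j
    · subst htj
      simp only [Finsupp.add_apply, Finsupp.single_eq_same]
      omega
    · simp only [Finsupp.add_apply, Finsupp.single_apply, Ne.symm htj, if_false, add_zero]
      exact hb t

theorem sl_split {n : ℕ} (N m : ℕ) : ∀ (a : Fin n →₀ ℕ), N * m ≤ a.degree →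
    ∃ f : Fin N → (Fin n →₀ ℕ), (∀ l, (f l).degree = m) ∧ ∑ l, f l ≤ a := by
  induction N with
  | zero => intro a _; exact ⟨fun _ => 0, fun l => l.elim0, by simp⟩
  | succ N ih =>
    intro a ha
    have h1 : (N + 1) * m = N * m + m := by ring
    obtain ⟨b, hb, hbm⟩ := sl_sub a m (by omega)
    have hab : (a - b) + b = a := tsub_add_cancel_of_le hb
    have h2 : (a - b).degree + b.degree = a.degree := by
      rw [← map_add, hab]
    obtain ⟨f, hf, hf'⟩ := ih (a - b) (by omega)
    refine ⟨Fin.cons b f, ?_, ?_⟩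
    · intro l
      refine Fin.cases ?_ (fun l => ?_) l
      · simpa using hbm
      · simpa using hf l
    · rw [Fin.sum_univ_succ]
      simp only [Fin.cons_zero, Fin.cons_succ]
      calc b + ∑ l, f l ≤ b + (a - b) := by gcongr
        _ = a := by rw [add_comm]; exact hab

theorem sl_memideal {n : ℕ} {K : Type} [Field K] (J : Ideal (MvPowerSeries (Fin n) K)) (B : ℕ)
    (hJ : ∀ a : Fin n →₀ ℕ, a.degree = B → MvPowerSeries.monomial a (1 : K) ∈ J)
    (f : MvPowerSeries (Fin n) K)
    (hf : ∀ a : Fin n →₀ ℕ, a.degree < B → MvPowerSeries.coeff a f = 0) : f ∈ J := by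
  classical
  have hex : ∀ b : Fin n →₀ ℕ, ∃ c : Fin n →₀ ℕ, B ≤ b.degree → (c ≤ b ∧ c.degree = B) := by
    intro b
    by_cases h : B ≤ b.degree
    · obtain ⟨c, hc⟩ := sl_sub b B h
      exact ⟨c, fun _ => hc⟩
    · exact ⟨0, fun h' => (h h').elim⟩
  choose s hs using hex
  have hfin : {a : Fin n →₀ ℕ | a.degree = B}.Finite :=
    Set.Finite.subset (Finsupp.finite_of_degree_le B) (fun a ha => le_of_eq ha)
  set T := hfin.toFinset with hT
  have hmemT : ∀ a, a ∈ T ↔ a.degree = B := by
    intro a; simp [hT]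
  let g : (Fin n →₀ ℕ) → MvPowerSeries (Fin n) K := fun a c =>
    if s (c + a) = a then MvPowerSeries.coeff (c + a) f else 0
  have hg : ∀ a c, MvPowerSeries.coeff c (g a) =
      if s (c + a) = a then MvPowerSeries.coeff (c + a) f else 0 := fun a c => rfl
  have key : f = ∑ a ∈ T, MvPowerSeries.monomial a (1 : K) * g a := by
    ext b
    rw [map_sum]
    have h1 : ∀ a ∈ T, MvPowerSeries.coeff b (MvPowerSeries.monomial a (1 : K) * g a) =
        if a ≤ b ∧ s b = a then MvPowerSeries.coeff b f else 0 := by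
      intro a _
      rw [MvPowerSeries.coeff_monomial_mul]
      by_cases hab : a ≤ b
      · rw [if_pos hab, hg, one_mul, tsub_add_cancel_of_le hab]
        simp [hab]
      · rw [if_neg hab, if_neg (fun h => hab h.1)]
    rw [Finset.sum_congr rfl h1]
    by_cases hb : B ≤ b.degree
    · obtain ⟨hsb, hsB⟩ := hs b hb
      rw [Finset.sum_eq_single (s b)]
      · rw [if_pos ⟨hsb, rfl⟩]
      · intro c _ hc
        rw [if_neg]
        rintro ⟨_, h⟩
        exact hc h.symm
      · intro h
        exact (h ((hmemT _).2 hsB)).elim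
    · rw [hf b (by omega)]
      simp
  rw [key]
  exact Ideal.sum_mem _ (fun a ha => Ideal.mul_mem_right _ _ (hJ a ((hmemT a).1 ha)))

theorem sl_mulLead {n : ℕ} {K : Type} [Field K] (F F' : MvPolynomial (Fin n) K)
    (a a' : Fin n →₀ ℕ) (h : Lead F a) (h' : Lead F' a') : Lead (F * F') (a + a') := by
  classical
  constructor
  · rw [MvPolynomial.coeff_mul, Finset.sum_eq_single (a, a')]
    · exact mul_ne_zero h.1 h'.1
    · rintro ⟨b, b'⟩ hb hne
      replace hb := Finset.HasAntidiagonal.mem_antidiagonal.1 hb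
      rcases lt_trichotomy (toLex b) (toLex a) with h1 | h1 | h1
      · simp [h.2 b h1]
      · have h2 : b = a := toLex.injective h1
        subst h2
        have h3 : b' = a' := add_left_cancel hb
        subst h3
        exact (hne rfl).elim
      · have h2 : toLex b' < toLex a' := by
          by_contra hcon
          push Not at hcon
          have h3 : toLex a + toLex a' < toLex b + toLex b' := add_lt_add_of_lt_of_le h1 hcon
          have h4 : toLex a + toLex a' = toLex b + toLex b' := by
            rw [← toLex_add, ← toLex_add, hb]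
          exact h3.ne h4
        simp [h'.2 b' h2]
    · intro hn
      simp at hn
  · intro c hc
    rw [MvPolynomial.coeff_mul]
    refine Finset.sum_eq_zero ?_
    rintro ⟨b, b'⟩ hb
    replace hb := Finset.HasAntidiagonal.mem_antidiagonal.1 hb
    by_cases h1 : toLex b < toLex a
    · simp [h.2 b h1]
    · by_cases h2 : toLex b' < toLex a'
      · simp [h'.2 b' h2]
      · exfalso
        push Not at h1 h2
        have h3 : toLex a + toLex a' ≤ toLex b + toLex b' := add_le_add h1 h2
        rw [← toLex_add, ← toLex_add, hb] at h3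
        exact absurd hc (not_lt.2 h3)

theorem sl_prodLead {n : ℕ} {K : Type} [Field K] {ι : Type} (s : Finset ι)
    (F : ι → MvPolynomial (Fin n) K) (f : ι → (Fin n →₀ ℕ)) (h : ∀ l ∈ s, Lead (F l) (f l)) :
    Lead (∏ l ∈ s, F l) (∑ l ∈ s, f l) := by
  classical
  induction s using Finset.induction_on with
  | empty =>
    refine ⟨by simp, ?_⟩
    intro b hb
    exfalso
    simp only [Finset.sum_empty] at hb
    have : toLex (0 : Fin n →₀ ℕ) ≤ toLex b := Finsupp.toLex_monotone (bot_le)
    exact absurd hb (not_lt.2 this)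
  | insert i s hi ih =>
    rw [Finset.prod_insert hi, Finset.sum_insert hi]
    exact sl_mulLead _ _ _ _ (h i (Finset.mem_insert_self _ _))
      (ih (fun l hl => h l (Finset.mem_insert_of_mem hl)))

theorem sl_monLead {n : ℕ} {K : Type} [Field K] (a : Fin n →₀ ℕ) :
    Lead (MvPolynomial.monomial a (1 : K)) a := by
  classical
  refine ⟨by simp, ?_⟩
  intro b hb
  rw [MvPolynomial.coeff_monomial, if_neg]
  rintro rfl
  exact lt_irrefl _ hb

theorem sl_chg_surj {n : ℕ} {K : Type} [Field K] (γ : Fin n → Fin n → K)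
    (hγ : Matrix.det (Matrix.of γ) ≠ 0) (P : MvPolynomial (Fin n) K) :
    ∃ Q, chg γ Q = P := by
  set δ : Matrix (Fin n) (Fin n) K := (Matrix.of γ)⁻¹ with hδ
  have hmul : δ * Matrix.of γ = 1 := Matrix.nonsing_inv_mul _ (isUnit_iff_ne_zero.2 hγ)
  have hcomp : (chg γ).comp (chg (fun i j => δ i j)) = AlgHom.id K _ := by
    apply MvPolynomial.algHom_ext
    intro j
    simp only [AlgHom.comp_apply, AlgHom.id_apply, chg, MvPolynomial.aeval_X, map_sum, map_mul,
      MvPolynomial.aeval_C]
    have h1 : ∀ t : Fin n, (algebraMap K (MvPolynomial (Fin n) K)) (δ j t) *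
        ∑ s, MvPolynomial.C (γ t s) * MvPolynomial.X s =
        ∑ s, MvPolynomial.C (δ j t * γ t s) * MvPolynomial.X s := by
      intro t
      rw [Finset.mul_sum]
      refine Finset.sum_congr rfl (fun s _ => ?_)
      rw [MvPolynomial.algebraMap_eq, map_mul, mul_assoc]
    simp only [h1]
    rw [Finset.sum_comm]
    have h2 : ∀ s : Fin n, ∑ t, MvPolynomial.C (δ j t * γ t s) * (MvPolynomial.X s : MvPolynomial (Fin n) K) =
        MvPolynomial.C ((1 : Matrix (Fin n) (Fin n) K) j s) * MvPolynomial.X s := by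
      intro s
      rw [← Finset.sum_mul, ← map_sum, ← hmul]
      rfl
    simp only [h2, Matrix.one_apply]
    rw [Finset.sum_eq_single j]
    · simp
    · intro s _ hs
      rw [if_neg (Ne.symm hs)]
      simp
    · simp
  refine ⟨chg (fun i j => δ i j) P, ?_⟩
  have := DFunLike.congr_fun hcomp P
  simpa using this

theorem sl_chg_order {n : ℕ} {K : Type} [Field K] (γ : Fin n → Fin n → K) (a : Fin n →₀ ℕ) :
    (a.degree : ℕ∞) ≤
      ((chg γ (MvPolynomial.monomial a (1 : K)) : MvPolynomial (Fin n) K) :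
        MvPowerSeries (Fin n) K).order := by
  classical
  have h1 : ((chg γ (MvPolynomial.monomial a (1 : K)) : MvPolynomial (Fin n) K) :
        MvPowerSeries (Fin n) K) =
      ∏ j, ((chg γ (MvPolynomial.X j) : MvPolynomial (Fin n) K) : MvPowerSeries (Fin n) K) ^ a j := by
    rw [MvPolynomial.monomial_eq, map_one, one_mul, Finsupp.prod_fintype _ _ (by simp), map_prod]
    simp only [map_pow, ← MvPolynomial.coeToMvPowerSeries.ringHom_apply, map_prod]
  rw [h1]
  refine le_trans ?_ (MvPowerSeries.le_order_prod _ _)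
  rw [Finsupp.degree_eq_sum]
  push_cast
  refine Finset.sum_le_sum (fun j _ => ?_)
  refine le_trans ?_ (MvPowerSeries.le_order_pow_of_constantCoeff_eq_zero _ ?_)
  · exact le_rfl
  · rw [← MvPowerSeries.coeff_zero_eq_constantCoeff_apply, MvPolynomial.coeff_coe]
    simp [chg, MvPolynomial.coeff_sum, MvPolynomial.coeff_C_mul]

theorem sl_length {R K V ι : Type} [CommRing R] [Field K] [Algebra K R] [AddCommGroup V]
    [Module R V] [Module K V] [IsScalarTower K R V] (S : Set ι) (hS : S.Finite) (y : ι → V)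
    (h : ∀ v : V, v ∈ Submodule.span K (y '' S)) : Module.length R V ≤ ((S.ncard : ℕ) : ℕ∞) := by
  classical
  have htop : Submodule.span K (y '' S) = ⊤ := by
    rw [eq_top_iff]
    intro v _
    exact h v
  have : Module.Finite K V := ⟨⟨hS.toFinset.image y, by
    rw [Finset.coe_image, hS.coe_toFinset]; exact htop⟩⟩
  have h1 : Module.length R V ≤ Module.length K V := by
    have := Submodule.length_le_length_restrictScalars (R := R) (M := V) K (⊤ : Submodule R V)
    rw [Submodule.restrictScalars_top, Module.length_top, Module.length_top] at this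
    exact this
  refine h1.trans ?_
  rw [Module.length_eq_finrank]
  norm_cast
  have h2 : Module.finrank K V = Set.finrank K ((hS.toFinset.image y : Finset V) : Set V) := by
    rw [Set.finrank, Finset.coe_image, hS.coe_toFinset, htop, finrank_top]
  rw [h2]
  refine (finrank_span_finset_le_card _).trans ?_
  refine Finset.card_image_le.trans ?_
  rw [Set.ncard_eq_toFinset_card S hS]

theorem s_len (K : Type) [Field K] (n M : ℕ) (I : Ideal (MvPowerSeries (Fin n) K))
    (hI : ∀ a : Fin n →₀ ℕ, M ≤ a.degree → MvPowerSeries.monomial a (1 : K) ∈ I)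
    (γ : Fin n → Fin n → K) (hγ : Matrix.det (Matrix.of γ) ≠ 0)
    (G : Set (Fin n →₀ ℕ)) (hG : IsUpperSet G) (hGf : Gᶜ.Finite)
    (hF : ∀ a ∈ G, ∃ F : MvPolynomial (Fin n) K, Lead F a ∧
      ((chg γ F : MvPolynomial (Fin n) K) : MvPowerSeries (Fin n) K) ∈ I)
    (i N : ℕ) (hi : i ≤ n) :
    Module.length (MvPowerSeries (Fin n) K) (MvPowerSeries (Fin n) K ⧸
        (I ^ N ⊔ Ideal.span {f : MvPowerSeries (Fin n) K | ∃ j : Fin n, j.val < i ∧
          f = ∑ t : Fin n, γ j t • (MvPowerSeries.X t : MvPowerSeries (Fin n) K)})) ≤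
      (({a : Fin n →₀ ℕ | (∀ j : Fin n, j.val < i → a j = 0) ∧ a ∉ pw G N}.ncard : ℕ) : ℕ∞) := by
  classical
  set J : Ideal (MvPowerSeries (Fin n) K) :=
    (I ^ N ⊔ Ideal.span {f : MvPowerSeries (Fin n) K | ∃ j : Fin n, j.val < i ∧
          f = ∑ t : Fin n, γ j t • (MvPowerSeries.X t : MvPowerSeries (Fin n) K)}) with hJ
  set S : Set (Fin n →₀ ℕ) := {a : Fin n →₀ ℕ | (∀ j : Fin n, j.val < i → a j = 0) ∧ a ∉ pw G N}
    with hS
  set B : ℕ := N * M with hB
  -- monomials of large degree
  have hmonI : ∀ a : Fin n →₀ ℕ, B ≤ a.degree → MvPowerSeries.monomial a (1 : K) ∈ I ^ N := by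
    intro a ha
    obtain ⟨f, hf, hfa⟩ := sl_split N M a ha
    have h1 : MvPowerSeries.monomial (∑ l, f l) (1 : K) ∈ I ^ N := by
      have h2 : MvPowerSeries.monomial (∑ l, f l) (1 : K) =
          ∏ l, MvPowerSeries.monomial (f l) (1 : K) := by
        have h3 : ∀ s : Finset (Fin N), MvPowerSeries.monomial (∑ l ∈ s, f l) (1 : K) =
            ∏ l ∈ s, MvPowerSeries.monomial (f l) (1 : K) := by
          intro s
          induction s using Finset.induction_on with
          | empty => simp
          | insert x s hx ih =>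
            rw [Finset.sum_insert hx, Finset.prod_insert hx, ← ih,
              MvPowerSeries.monomial_mul_monomial, one_mul]
        exact h3 _
      rw [h2]
      have h4 : (∏ _l : Fin N, I) = I ^ N := by simp
      rw [← h4]
      exact Ideal.prod_mem_prod (fun l _ => hI _ (hf l).ge)
    have h5 : MvPowerSeries.monomial a (1 : K) =
        MvPowerSeries.monomial (a - ∑ l, f l) (1 : K) * MvPowerSeries.monomial (∑ l, f l) (1 : K) := by
      rw [MvPowerSeries.monomial_mul_monomial, one_mul, tsub_add_cancel_of_le hfa]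
    rw [h5]
    exact Ideal.mul_mem_left _ _ h1
  have hmonJ : ∀ f : MvPowerSeries (Fin n) K,
      (∀ a : Fin n →₀ ℕ, a.degree < B → MvPowerSeries.coeff a f = 0) → f ∈ J := by
    intro f hf
    exact sl_memideal J B (fun a ha => (le_sup_left : I ^ N ≤ J) (hmonI a ha.ge)) f hf
  -- the map
  let coeL : MvPolynomial (Fin n) K →ₗ[K] MvPowerSeries (Fin n) K :=
    { toFun := fun P => (P : MvPowerSeries (Fin n) K)
      map_add' := fun P Q => by simp
      map_smul' := fun c P => by
        ext m
        simp [MvPolynomial.coeff_coe] }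
  let ψ : MvPolynomial (Fin n) K →ₗ[K] (MvPowerSeries (Fin n) K ⧸ J) :=
    (Ideal.Quotient.mkₐ K J).toLinearMap ∘ₗ coeL ∘ₗ (chg γ).toLinearMap
  have hψ : ∀ P, ψ P = Ideal.Quotient.mk J ((chg γ P : MvPolynomial (Fin n) K) :
      MvPowerSeries (Fin n) K) := fun P => rfl
  set y : (Fin n →₀ ℕ) → (MvPowerSeries (Fin n) K ⧸ J) := fun a => ψ (MvPolynomial.monomial a 1)
    with hy
  set W : Submodule K (MvPowerSeries (Fin n) K ⧸ J) := Submodule.span K (y '' S) with hW
  have hzero : ∀ a : Fin n →₀ ℕ, B ≤ a.degree → y a = 0 := by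
    intro a ha
    simp only [hy]
    rw [hψ, Ideal.Quotient.eq_zero_iff_mem]
    apply hmonJ
    intro b hb
    apply MvPowerSeries.coeff_of_lt_order
    refine lt_of_lt_of_le ?_ (sl_chg_order γ a)
    exact_mod_cast lt_of_lt_of_le hb ha
  have hlow : ∀ a : Fin n →₀ ℕ, ∀ j : Fin n, j.val < i → a j ≠ 0 → y a = 0 := by
    intro a j hj haj
    simp only [hy]
    rw [hψ, Ideal.Quotient.eq_zero_iff_mem]
    have h1 : Finsupp.single j 1 ≤ a := by
      rw [Finsupp.single_le_iff]
      omega
    have h2 : MvPolynomial.monomial a (1 : K) =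
        MvPolynomial.monomial (a - Finsupp.single j 1) (1 : K) * MvPolynomial.X j := by
      rw [MvPolynomial.X, MvPolynomial.monomial_mul, one_mul, tsub_add_cancel_of_le h1]
    rw [h2, map_mul, MvPolynomial.coe_mul]
    apply Ideal.mul_mem_left
    refine (le_sup_right : _ ≤ J) (Ideal.subset_span ⟨j, hj, ?_⟩)
    simp only [chg, MvPolynomial.aeval_X]
    have h3 : ∀ s : Finset (Fin n),
        ((∑ t ∈ s, MvPolynomial.C (γ j t) * MvPolynomial.X t : MvPolynomial (Fin n) K) :
        MvPowerSeries (Fin n) K) = ∑ t ∈ s, γ j t • (MvPowerSeries.X t : MvPowerSeries (Fin n) K) := by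
      intro s
      rw [← MvPolynomial.coeToMvPowerSeries.ringHom_apply, map_sum]
      refine Finset.sum_congr rfl (fun t _ => ?_)
      rw [map_mul, MvPolynomial.coeToMvPowerSeries.ringHom_apply,
        MvPolynomial.coeToMvPowerSeries.ringHom_apply, MvPolynomial.coe_C, MvPolynomial.coe_X,
        MvPowerSeries.smul_eq_C_mul]
    exact h3 _
  -- the key step
  have hkey : ∀ a : Fin n →₀ ℕ, a ∈ pw G N → (∀ b, toLex a < toLex b → y b ∈ W) → y a ∈ W := by
    rintro a ⟨f, hfG, hfa⟩ hW'
    choose F hFl hFI using fun l => hF (f l) (hfG l)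
    set P : MvPolynomial (Fin n) K :=
      MvPolynomial.monomial (a - ∑ l, f l) (1 : K) * ∏ l, F l with hP
    have hPl : Lead P a := by
      have := sl_mulLead _ _ _ _ (sl_monLead (K := K) (a - ∑ l, f l))
        (sl_prodLead Finset.univ F f (fun l _ => hFl l))
      rwa [tsub_add_cancel_of_le hfa] at this
    have hPI : ψ P = 0 := by
      rw [hψ, Ideal.Quotient.eq_zero_iff_mem]
      refine (le_sup_left : I ^ N ≤ J) ?_
      rw [hP, map_mul, MvPolynomial.coe_mul]
      apply Ideal.mul_mem_left
      rw [map_prod, ← MvPolynomial.coeToMvPowerSeries.ringHom_apply, map_prod]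
      have h4 : (∏ _l : Fin N, I) = I ^ N := by simp
      rw [← h4]
      exact Ideal.prod_mem_prod (fun l _ => hFI l)
    have hsum : ψ P = ∑ b ∈ P.support, MvPolynomial.coeff b P • y b := by
      conv_lhs => rw [P.as_sum]
      rw [map_sum]
      refine Finset.sum_congr rfl (fun b _ => ?_)
      simp only [hy]
      rw [← map_smul, MvPolynomial.smul_monomial, smul_eq_mul, mul_one]
    have ha : a ∈ P.support := by
      rw [MvPolynomial.mem_support_iff]
      exact hPl.1
    rw [hsum, ← Finset.add_sum_erase _ _ ha] at hPI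
    have hrest : ∑ b ∈ P.support.erase a, MvPolynomial.coeff b P • y b ∈ W := by
      refine Submodule.sum_mem _ (fun b hb => Submodule.smul_mem _ _ (hW' b ?_))
      rw [Finset.mem_erase, MvPolynomial.mem_support_iff] at hb
      by_contra hcon
      push Not at hcon
      rcases lt_or_eq_of_le hcon with h | h
      · exact hb.2 (hPl.2 b h)
      · exact hb.1 (toLex.injective h)
    have h1 : MvPolynomial.coeff a P • y a ∈ W := by
      have : MvPolynomial.coeff a P • y a =
          - ∑ b ∈ P.support.erase a, MvPolynomial.coeff b P • y b := by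
        rw [eq_neg_iff_add_eq_zero]
        exact hPI
      rw [this]
      exact Submodule.neg_mem _ hrest
    have h2 := Submodule.smul_mem W (MvPolynomial.coeff a P)⁻¹ h1
    rwa [smul_smul, inv_mul_cancel₀ hPl.1, one_smul] at h2
  have hall : ∀ a, y a ∈ W := by
    by_contra hcon
    push Not at hcon
    have hfinB : {a : Fin n →₀ ℕ | y a ∉ W}.Finite := by
      refine Set.Finite.subset (Finsupp.finite_of_degree_le B) (fun a ha => ?_)
      by_contra h
      simp only [Set.mem_ofPred_eq, not_le] at h ha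
      rw [hzero a h.le] at ha
      exact ha (Submodule.zero_mem _)
    obtain ⟨a, ha, hmax⟩ := Set.exists_max_image _ (fun a => toLex a) hfinB hcon
    have hgt : ∀ b, toLex a < toLex b → y b ∈ W := by
      intro b hb
      by_contra h
      exact absurd hb (not_lt.2 (hmax b h))
    apply ha
    by_cases h1 : a ∈ pw G N
    · exact hkey a h1 hgt
    · by_cases h2 : ∀ j : Fin n, j.val < i → a j = 0
      · exact Submodule.subset_span ⟨a, ⟨h2, h1⟩, rfl⟩
      · push Not at h2
        obtain ⟨j, hj, haj⟩ := h2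
        rw [hlow a j hj haj]
        exact Submodule.zero_mem _
  have hpoly : ∀ P, ψ P ∈ W := by
    intro P
    rw [P.as_sum, map_sum]
    refine Submodule.sum_mem _ (fun b _ => ?_)
    have : MvPolynomial.monomial b (MvPolynomial.coeff b P) =
        MvPolynomial.coeff b P • MvPolynomial.monomial b (1 : K) := by
      rw [MvPolynomial.smul_monomial, smul_eq_mul, mul_one]
    rw [this, map_smul]
    exact Submodule.smul_mem _ _ (hall b)
  -- finiteness of `S`
  have hSfin : S.Finite := by
    obtain ⟨m, hm⟩ : ∃ m : ℕ, ∀ a : Fin n →₀ ℕ, m ≤ a.degree → a ∈ G := by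
      obtain ⟨c, hc⟩ := (hGf.image (fun a => a.degree)).bddAbove
      refine ⟨c + 1, fun a ha => ?_⟩
      by_contra h
      have h2 : a.degree ≤ c := hc (Set.mem_image_of_mem (fun a : Fin n →₀ ℕ => a.degree) h)
      omega
    refine Set.Finite.subset (Finsupp.finite_of_degree_le (N * m)) (fun a ha => ?_)
    by_contra h
    simp only [Set.mem_ofPred_eq, not_le] at h
    obtain ⟨f, hf, hfa⟩ := sl_split N m a h.le
    exact ha.2 ⟨f, fun l => hm _ (hf l).ge, hfa⟩
  refine sl_length (K := K) S hSfin y (fun v => ?_)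
  obtain ⟨f, rfl⟩ := Ideal.Quotient.mk_surjective v
  have hT : {a : Fin n →₀ ℕ | a.degree ≤ B}.Finite := Finsupp.finite_of_degree_le B
  set P : MvPolynomial (Fin n) K :=
    ∑ a ∈ hT.toFinset, MvPolynomial.monomial a (MvPowerSeries.coeff a f) with hP
  have hPc : ∀ b, MvPolynomial.coeff b P = if b.degree ≤ B then MvPowerSeries.coeff b f else 0 := by
    intro b
    rw [hP, MvPolynomial.coeff_sum]
    simp only [MvPolynomial.coeff_monomial]
    rw [Finset.sum_ite_eq']
    simp
  obtain ⟨Q, hQ⟩ := sl_chg_surj γ hγ P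
  have hfP : Ideal.Quotient.mk J f = ψ Q := by
    rw [hψ, hQ, Ideal.Quotient.eq]
    apply hmonJ
    intro a ha
    rw [map_sub, MvPolynomial.coeff_coe, hPc, if_pos ha.le, sub_self]
  rw [hfP]
  exact hpoly Q

end Pool.Agent.H195L.L17
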