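import Pool.Agent.H195_lech.Spec2

/-!
# Stirling refinement of Lech's inequality (MP_eae75b_ag): comparison of lengths
-/

set_option autoImplicit false

namespace Pool.Agent.H195L.L18

open Finset Filter Topology
open scoped BigOperators

namespace L18

open IsLocalRing

section lengths

variable {A B : Type*} [CommRing A] [CommRing B] [IsLocalRing B] [Algebra A B]

theorem simple_restrict (hsurj : ∀ b : B, ∃ a : A, b - algebraMap A B a ∈ maximalIdeal B)
    (Q : Type*) [AddCommGroup Q] [Module A Q] [Module B Q] [IsScalarTower A B Q]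
    (h : IsSimpleModule B Q) : IsSimpleModule A Q := by
  rw [isSimpleModule_iff_toSpanSingleton_surjective] at h ⊢
  obtain ⟨hn, hs⟩ := h
  refine ⟨hn, fun x hx y => ?_⟩
  obtain ⟨b, hb⟩ := hs x hx y
  obtain ⟨a, ha⟩ := hsurj b
  have hkill : ∀ c ∈ maximalIdeal B, c • x = 0 := by
    intro c hc
    by_contra hcx
    obtain ⟨d, hd⟩ := hs (c • x) hcx x
    simp only [LinearMap.toSpanSingleton_apply] at hd
    have h1 : (1 - d * c) • x = 0 := by
      rw [sub_smul, one_smul, mul_smul, hd, sub_self]
    have hu : IsUnit (1 - d * c) := by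
      have : d * c ∈ maximalIdeal B := Ideal.mul_mem_left _ _ hc
      by_contra hnu
      have h2 : (1 - d * c) ∈ maximalIdeal B := (mem_maximalIdeal _).mpr hnu
      have h3 : (1 : B) ∈ maximalIdeal B := by
        have h4 := Ideal.add_mem _ h2 this
        rwa [sub_add_cancel] at h4
      exact (Ideal.ne_top_iff_one _).mp (maximalIdeal.isMaximal B).ne_top h3
    rw [hu.smul_eq_zero] at h1
    exact hx h1
  refine ⟨a, ?_⟩
  simp only [LinearMap.toSpanSingleton_apply] at hb ⊢
  have := hkill _ ha
  rw [sub_smul, hb, algebraMap_smul, sub_eq_zero] at this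
  exact this.symm

theorem length_restrict_le (hsurj : ∀ b : B, ∃ a : A, b - algebraMap A B a ∈ maximalIdeal B)
    (N : Type*) [AddCommGroup N] [Module B N] (hN : IsFiniteLength B N) :
    ∀ [Module A N] [IsScalarTower A B N], Module.length A N ≤ Module.length B N := by
  induction hN with
  | of_subsingleton =>
    intro _ _
    rw [Module.length_eq_zero]
    exact bot_le
  | @of_simple_quotient M _ _ N _ _ ih =>
    intro _ _
    have hA := Module.length_eq_add_of_exact (N.subtype.restrictScalars A)
      (N.mkQ.restrictScalars A) N.subtype_injective N.mkQ_surjective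
      (LinearMap.exact_subtype_mkQ N)
    have hB := Module.length_eq_add_of_exact N.subtype N.mkQ N.subtype_injective N.mkQ_surjective
      (LinearMap.exact_subtype_mkQ N)
    rw [hA, hB]
    refine add_le_add ih ?_
    have h1 : IsSimpleModule A (M ⧸ N) := simple_restrict hsurj _ inferInstance
    rw [Module.length_eq_one, Module.length_eq_one]

/-- If `A → B → B/𝔫` is surjective, then lengths of `B`-modules over `A` and `B` agree. -/
theorem length_restrict (hsurj : ∀ b : B, ∃ a : A, b - algebraMap A B a ∈ maximalIdeal B)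
    (N : Type*) [AddCommGroup N] [Module A N] [Module B N] [IsScalarTower A B N] :
    Module.length A N = Module.length B N := by
  apply le_antisymm
  · by_cases hfin : Module.length B N = ⊤
    · rw [hfin]; exact le_top
    exact length_restrict_le hsurj N (Module.length_ne_top_iff.mp hfin)
  · rw [← WithBot.coe_le_coe, Module.coe_length, Module.coe_length]
    exact Order.krullDim_le_of_orderEmbedding (Submodule.restrictScalarsEmbedding A B N)

end lengths

variable {K : Type} [Field K] {n : ℕ}

/-- the set of exponents of degree `M` -/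
noncomputable def dm (n M : ℕ) : Finset (Fin n →₀ ℕ) :=
  (Finsupp.finite_of_degree_eq (σ := Fin n) M).toFinset

/-- the set of exponents of degree less than `M` -/
noncomputable def dl (n M : ℕ) : Finset (Fin n →₀ ℕ) :=
  (Finsupp.finite_of_degree_lt (σ := Fin n) M).toFinset

theorem mem_dm {M : ℕ} {a : Fin n →₀ ℕ} : a ∈ dm n M ↔ a.degree = M :=
  Set.Finite.mem_toFinset (Finsupp.finite_of_degree_eq (σ := Fin n) M)

theorem mem_dl {M : ℕ} {a : Fin n →₀ ℕ} : a ∈ dl n M ↔ a.degree < M :=
  Set.Finite.mem_toFinset (Finsupp.finite_of_degree_lt (σ := Fin n) M)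

/-- a chosen divisor of degree `M` -/
noncomputable def ch (M : ℕ) (b : Fin n →₀ ℕ) : Fin n →₀ ℕ :=
  open Classical in
  if h : M ≤ b.degree then Classical.choose (Finsupp.exists_le_degree_eq b M h) else 0

theorem ch_spec {M : ℕ} {b : Fin n →₀ ℕ} (h : M ≤ b.degree) :
    ch M b ≤ b ∧ (ch M b).degree = M := by
  unfold ch
  rw [dif_pos h]
  exact Classical.choose_spec (Finsupp.exists_le_degree_eq b M h)

/-- the quotient power series -/
noncomputable def qt (M : ℕ) (g : MvPowerSeries (Fin n) K) (a : Fin n →₀ ℕ) :
    MvPowerSeries (Fin n) K :=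
  open Classical in
  fun c => if ch M (a + c) = a then MvPowerSeries.coeff (a + c) g else 0

theorem decomp (M : ℕ) (g : MvPowerSeries (Fin n) K)
    (hg : ∀ a : Fin n →₀ ℕ, a.degree < M → MvPowerSeries.coeff a g = 0) :
    g = ∑ a ∈ dm n M, MvPowerSeries.monomial a (1 : K) * qt M g a := by
  classical
  ext b
  rw [map_sum]
  have h1 : ∀ a ∈ dm n M, MvPowerSeries.coeff b (MvPowerSeries.monomial a (1 : K) * qt M g a) =
      if a ≤ b ∧ ch M b = a then MvPowerSeries.coeff b g else 0 := by
    intro a _
    rw [MvPowerSeries.coeff_monomial_mul]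
    by_cases hab : a ≤ b
    · rw [if_pos hab, one_mul]
      have h2 : a + (b - a) = b := add_tsub_cancel_of_le hab
      have h3 : MvPowerSeries.coeff (b - a) (qt M g a) =
          if ch M (a + (b - a)) = a then MvPowerSeries.coeff (a + (b - a)) g else 0 := rfl
      rw [h3, h2]
      by_cases h4 : ch M b = a
      · rw [if_pos h4, if_pos ⟨hab, h4⟩]
      · rw [if_neg h4, if_neg (fun h => h4 h.2)]
    · rw [if_neg hab, if_neg (fun h => hab h.1)]
  rw [Finset.sum_congr rfl h1]
  by_cases hb : M ≤ b.degree
  · obtain ⟨h2, h3⟩ := ch_spec hb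
    rw [Finset.sum_eq_single (ch M b)]
    · rw [if_pos ⟨h2, rfl⟩]
    · intro a _ ha
      rw [if_neg (fun h => ha h.2.symm)]
    · intro h
      exact absurd (mem_dm.2 h3) h
  · have h2 : MvPowerSeries.coeff b g = 0 := hg b (not_le.1 hb)
    rw [h2]
    simp

theorem mem_of_deg {M : ℕ} {I : Ideal (MvPowerSeries (Fin n) K)}
    (hI : ∀ a : Fin n →₀ ℕ, M ≤ a.degree → MvPowerSeries.monomial a (1 : K) ∈ I)
    (g : MvPowerSeries (Fin n) K)
    (hg : ∀ a : Fin n →₀ ℕ, a.degree < M → MvPowerSeries.coeff a g = 0) : g ∈ I := by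
  rw [decomp M g hg]
  refine Ideal.sum_mem _ fun a ha => Ideal.mul_mem_right _ _ (hI a ?_)
  exact le_of_eq (mem_dm.1 ha).symm

theorem fin_quot {M : ℕ} {I : Ideal (MvPowerSeries (Fin n) K)}
    (hI : ∀ a : Fin n →₀ ℕ, M ≤ a.degree → MvPowerSeries.monomial a (1 : K) ∈ I) :
    Module.Finite K (MvPowerSeries (Fin n) K ⧸ I) := by
  classical
  refine ⟨⟨(dl n M).image (fun a => Ideal.Quotient.mk I (MvPowerSeries.monomial a (1 : K))), ?_⟩⟩
  rw [eq_top_iff]
  rintro x -
  obtain ⟨f, rfl⟩ := Ideal.Quotient.mk_surjective x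
  have h1 : f - ∑ a ∈ dl n M, MvPowerSeries.coeff a f • MvPowerSeries.monomial a (1 : K) ∈ I := by
    apply mem_of_deg hI
    intro b hb
    rw [map_sub, map_sum, Finset.sum_eq_single b]
    · simp
    · intro a _ ha
      rw [map_smul, MvPowerSeries.coeff_monomial, if_neg (Ne.symm ha), smul_zero]
    · intro h
      exact absurd (mem_dl.2 hb) h
  have h2 : Ideal.Quotient.mk I f = ∑ a ∈ dl n M,
      MvPowerSeries.coeff a f • Ideal.Quotient.mk I (MvPowerSeries.monomial a (1 : K)) := by
    rw [← sub_eq_zero]
    have h3 := Ideal.Quotient.eq_zero_iff_mem.2 h1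
    rw [map_sub, map_sum] at h3
    exact h3
  rw [h2]
  refine Submodule.sum_mem _ fun a ha => Submodule.smul_mem _ _ (Submodule.subset_span ?_)
  exact Finset.mem_coe.2 (Finset.mem_image.2 ⟨a, ha, rfl⟩)

theorem res_surj (b : MvPowerSeries (Fin n) K) : ∃ a : K,
    b - algebraMap K (MvPowerSeries (Fin n) K) a ∈ maximalIdeal (MvPowerSeries (Fin n) K) := by
  refine ⟨MvPowerSeries.constantCoeff b, ?_⟩
  rw [mem_maximalIdeal, mem_nonunits_iff, MvPowerSeries.isUnit_iff_constantCoeff]
  have : MvPowerSeries.constantCoeff (algebraMap K (MvPowerSeries (Fin n) K)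
      (MvPowerSeries.constantCoeff b)) = MvPowerSeries.constantCoeff b := by
    rw [MvPowerSeries.algebraMap_apply]
    simp
  rw [map_sub, this, sub_self]
  exact not_isUnit_zero

end L18

/-! TARGET (S_FIN), comparison of lengths.
Plain proof. Let `R = K[[x]]`. A power series all of whose terms have degree `≥ M` is a finite sum
`∑_{|a| = M} x^a g_a`, so it lies in `I`; hence `K[x] → R ⧸ I` is surjective, with kernel the comap ideal,
and `K[x] ⧸ comap ≃ R ⧸ I` as `K`-vector spaces (an injection is all that is needed once finiteness is known). `R ⧸ I` is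
spanned over `K` by the monomials of degree `< M`, so it is finite-dimensional, and its
length over `R` is its dimension over `K`: the starting tree file Pool/Agent/R689/LechMumford.lean has
`R689LM.length_restrict`: if `A → B → B/𝔫` is surjective then lengths of `B`-modules over `A` and `B` agree (use `A = K`, `B = R`; `R` is
local with residue field `K`, an element minus its constant coefficient is in the maximal ideal), and `Module.length K V` is the dimension
for a vector space (`Module.length_eq_finrank` or similar). In fact only `finrank_K (K[x] ⧸ comap) ≤ (length).toNat` is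
needed, so also the finiteness of the length. -/
theorem s_fin (K : Type) [Field K] (n M : ℕ) (I : Ideal (MvPowerSeries (Fin n) K))
    (hI : ∀ a : Fin n →₀ ℕ, M ≤ a.degree → MvPowerSeries.monomial a (1 : K) ∈ I) :
    Module.finrank K (MvPolynomial (Fin n) K ⧸
      I.comap (MvPolynomial.coeToMvPowerSeries.ringHom : MvPolynomial (Fin n) K →+* _)) ≤
    (Module.length (MvPowerSeries (Fin n) K) (MvPowerSeries (Fin n) K ⧸ I)).toNat := by
  have := L18.fin_quot hI
  have h1 : Module.length (MvPowerSeries (Fin n) K) (MvPowerSeries (Fin n) K ⧸ I) =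
      Module.finrank K (MvPowerSeries (Fin n) K ⧸ I) := by
    rw [← L18.length_restrict (A := K) (B := MvPowerSeries (Fin n) K) L18.res_surj
      (MvPowerSeries (Fin n) K ⧸ I), Module.length_eq_finrank]
  rw [h1, ENat.toNat_natCast]
  let J : Ideal (MvPolynomial (Fin n) K) :=
    I.comap (MvPolynomial.coeToMvPowerSeries.ringHom : MvPolynomial (Fin n) K →+* _)
  let ψ : (MvPolynomial (Fin n) K ⧸ J) →+* (MvPowerSeries (Fin n) K ⧸ I) :=
    Ideal.quotientMap I (MvPolynomial.coeToMvPowerSeries.ringHom) le_rfl
  let L : (MvPolynomial (Fin n) K ⧸ J) →ₗ[K] (MvPowerSeries (Fin n) K ⧸ I) :=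
    { toFun := ψ
      map_add' := map_add ψ
      map_smul' := by
        intro c x
        obtain ⟨f, rfl⟩ := Ideal.Quotient.mk_surjective x
        have h2 : c • Ideal.Quotient.mk J f = Ideal.Quotient.mk J (c • f) := rfl
        rw [h2, Ideal.quotientMap_mk, Ideal.quotientMap_mk]
        have h3 : (MvPolynomial.coeToMvPowerSeries.ringHom (c • f) : MvPowerSeries (Fin n) K) =
            c • MvPolynomial.coeToMvPowerSeries.ringHom f := by
          simp only [MvPolynomial.coeToMvPowerSeries.ringHom_apply]
          exact MvPolynomial.coe_smul _ _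
        rw [h3]
        rfl }
  have hinj : Function.Injective L := Ideal.quotientMap_injective
  exact LinearMap.finrank_le_finrank_of_injective hinj

end Pool.Agent.H195L.L18
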