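import Pool.Agent.H195_lech.Spec2

/-!
# Stirling refinement of Lech's inequality (MP_eae75b_ag): integral closure of the exponent set
-/

set_option autoImplicit false

namespace Pool.Agent.H195L.L19

open Finset Filter Topology
open scoped BigOperators


/-! ### auxiliary facts on `pw` -/

lemma clo_pw_upper {n : ℕ} {G : Set (Fin n →₀ ℕ)} {N : ℕ} {a b : Fin n →₀ ℕ} (h : a ≤ b)
    (ha : a ∈ pw G N) : b ∈ pw G N := by
  obtain ⟨f, h1, h2⟩ := ha
  exact ⟨f, h1, h2.trans h⟩

lemma clo_pw_zero {n : ℕ} {G : Set (Fin n →₀ ℕ)} (a : Fin n →₀ ℕ) : a ∈ pw G 0 :=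
  ⟨Fin.elim0, fun l => l.elim0, by simp⟩

lemma clo_pw_one {n : ℕ} {G : Set (Fin n →₀ ℕ)} {a : Fin n →₀ ℕ} (ha : a ∈ G) : a ∈ pw G 1 :=
  ⟨fun _ => a, fun _ => ha, by simp⟩

lemma clo_pw_add {n : ℕ} {G : Set (Fin n →₀ ℕ)} {r s : ℕ} {a b : Fin n →₀ ℕ} (ha : a ∈ pw G r)
    (hb : b ∈ pw G s) : a + b ∈ pw G (r + s) := by
  obtain ⟨f, h1, h2⟩ := ha
  obtain ⟨g, h3, h4⟩ := hb
  refine ⟨Fin.append f g, ?_, ?_⟩
  · intro l
    refine Fin.addCases (fun i => ?_) (fun i => ?_) l
    · rw [Fin.append_left]; exact h1 i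
    · rw [Fin.append_right]; exact h3 i
  · rw [Fin.sum_univ_add]
    simp only [Fin.append_left, Fin.append_right]
    exact add_le_add h2 h4

lemma clo_pw_nsmul {n : ℕ} {G : Set (Fin n →₀ ℕ)} {r : ℕ} {a : Fin n →₀ ℕ} (ha : a ∈ pw G r) (m : ℕ) :
    m • a ∈ pw G (m * r) := by
  induction m with
  | zero => rw [zero_mul]; exact clo_pw_zero _
  | succ m ih =>
    rw [succ_nsmul, Nat.succ_mul]
    exact clo_pw_add ih ha

lemma clo_pw_sum {n : ℕ} {G : Set (Fin n →₀ ℕ)} {ι : Type} (S : Finset ι) (a : ι → Fin n →₀ ℕ) (r : ι → ℕ)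
    (h : ∀ l ∈ S, a l ∈ pw G (r l)) : ∑ l ∈ S, a l ∈ pw G (∑ l ∈ S, r l) := by
  classical
  induction S using Finset.induction_on with
  | empty => rw [Finset.sum_empty, Finset.sum_empty]; exact clo_pw_zero _
  | insert x S hx ih =>
    rw [Finset.sum_insert hx, Finset.sum_insert hx]
    exact clo_pw_add (h x (Finset.mem_insert_self _ _)) (ih (fun l hl => h l (Finset.mem_insert_of_mem hl)))

lemma clo_pw_anti {n : ℕ} {G : Set (Fin n →₀ ℕ)} {r s : ℕ} (h : s ≤ r) {a : Fin n →₀ ℕ} (ha : a ∈ pw G r) :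
    a ∈ pw G s := by
  obtain ⟨t, rfl⟩ := Nat.exists_eq_add_of_le h
  obtain ⟨f, h1, h2⟩ := ha
  refine ⟨fun i => f (Fin.castAdd t i), fun i => h1 _, le_trans ?_ h2⟩
  rw [Fin.sum_univ_add]
  exact le_self_add

/-- the integral closure of an exponent set -/
def cloD {n : ℕ} (G : Set (Fin n →₀ ℕ)) : Set (Fin n →₀ ℕ) := {b | ∃ r : ℕ, 1 ≤ r ∧ r • b ∈ pw G r}

lemma clo_D_upper {n : ℕ} {G : Set (Fin n →₀ ℕ)} : IsUpperSet (cloD G) := by
  rintro a b hab ⟨r, hr, h⟩
  exact ⟨r, hr, clo_pw_upper (nsmul_le_nsmul_right hab r) h⟩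

lemma clo_G_sub {n : ℕ} {G : Set (Fin n →₀ ℕ)} : G ⊆ cloD G := by
  intro a ha
  exact ⟨1, le_rfl, by rw [one_nsmul]; exact clo_pw_one ha⟩

lemma clo_closed {n : ℕ} {G : Set (Fin n →₀ ℕ)} {r : ℕ} (hr : 1 ≤ r) {b : Fin n →₀ ℕ}
    (h : r • b ∈ pw (cloD G) r) : b ∈ cloD G := by
  obtain ⟨f, h1, h2⟩ := h
  choose k hk1 hk2 using h1
  have hm : 1 ≤ ∏ l, k l := Finset.one_le_prod' (fun l _ => hk1 l)
  have h3 : ∀ l, (∏ l, k l) • f l ∈ pw G (∏ l, k l) := by
    intro l
    have e : ∏ l, k l = (∏ l ∈ Finset.univ.erase l, k l) * k l := by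
      rw [mul_comm]
      exact (Finset.mul_prod_erase Finset.univ k (Finset.mem_univ l)).symm
    rw [e, mul_nsmul']
    exact clo_pw_nsmul (hk2 l) _
  have h4 := clo_pw_sum (G := G) Finset.univ (fun l => (∏ l, k l) • f l) (fun _ => ∏ l, k l) (fun l _ => h3 l)
  rw [← Finset.smul_sum, Finset.sum_const, Finset.card_univ, Fintype.card_fin, smul_eq_mul] at h4
  refine ⟨r * ∏ l, k l, ?_, ?_⟩
  · exact Nat.one_le_iff_ne_zero.mpr (by positivity)
  · refine clo_pw_upper ?_ h4
    rw [mul_comm, mul_nsmul']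
    exact nsmul_le_nsmul_right h2 _

lemma clo_exch_one {n : ℕ} {G : Set (Fin n →₀ ℕ)} (hE : Exch G) {p q : Fin n} (hpq : p < q) (c : Fin n →₀ ℕ)
    (s : ℕ) (h : c + Finsupp.single p s ∈ G) : c + Finsupp.single q s ∈ cloD G := by
  set a := c + Finsupp.single p s with ha
  have hap : a p = c p + s := by simp [ha]
  have h2 := hE a h p q hpq
  set a' := a - Finsupp.single p (a p) + Finsupp.single q (a p) with ha'
  rcases Nat.eq_zero_or_pos (a p) with h0 | h0
  · have hs : s = 0 := by omega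
    have : c + Finsupp.single q s = a := by rw [ha, hs]; simp
    rw [this]
    exact clo_G_sub h
  · refine ⟨a p, h0, ?_⟩
    have e : (a p) • (c + Finsupp.single q s) = (c p) • a + s • a' := by
      ext j
      have hne : p ≠ q := ne_of_lt hpq
      simp only [Finsupp.coe_add, Finsupp.coe_smul, Pi.add_apply, Pi.smul_apply, smul_eq_mul, ha',
        Finsupp.coe_tsub, Pi.sub_apply, hap]
      by_cases hjp : j = p
      · subst hjp
        rw [hap]
        simp [hne]
        ring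
      · by_cases hjq : j = q
        · subst hjq
          have : a j = c j := by simp [ha, hne]
          rw [this]
          simp [hne]
          ring
        · have : a j = c j := by
            simp [ha, Finsupp.single_apply, Ne.symm hjp]
          rw [this]
          simp [Finsupp.single_apply, Ne.symm hjp, Ne.symm hjq]
          ring
    rw [e]
    have h3 := clo_pw_add (clo_pw_nsmul (clo_pw_one h) (c p)) (clo_pw_nsmul (clo_pw_one h2) s)
    rw [mul_one, mul_one, ← hap] at h3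
    exact h3

lemma clo_choose {ι : Type} [Fintype ι] (f : ι → ℕ) (r : ℕ) (h : r ≤ ∑ i, f i) :
    ∃ s : ι → ℕ, (∀ i, s i ≤ f i) ∧ ∑ i, s i = r := by
  classical
  induction r with
  | zero => exact ⟨fun _ => 0, fun _ => Nat.zero_le _, by simp⟩
  | succ r ih =>
    obtain ⟨s, h1, h2⟩ := ih (by omega)
    have h3 : ∃ i, s i < f i := by
      by_contra hcon
      push Not at hcon
      have : ∑ i, f i ≤ ∑ i, s i := Finset.sum_le_sum (fun i _ => hcon i)
      omega
    obtain ⟨i, hi⟩ := h3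
    refine ⟨fun j => s j + (if j = i then 1 else 0), ?_, ?_⟩
    · intro j
      by_cases hj : j = i
      · subst hj; simp; omega
      · simp [hj]; exact h1 j
    · rw [Finset.sum_add_distrib, h2]
      simp

lemma clo_exch {n : ℕ} {G : Set (Fin n →₀ ℕ)} (hG : IsUpperSet G) (hE : Exch G) {p q : Fin n} (hpq : p < q)
    (b : Fin n →₀ ℕ) (h : b + Finsupp.single p 1 ∈ cloD G) : b + Finsupp.single q 1 ∈ cloD G := by
  classical
  obtain ⟨r, hr, f, hf1, hf2⟩ := h
  obtain ⟨e, he⟩ := exists_add_of_le hf2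
  -- absorb the excess
  let i0 : Fin r := ⟨0, by omega⟩
  let a : Fin r → (Fin n →₀ ℕ) := fun l => f l + (if l = i0 then e else 0)
  have ha : ∀ l, a l ∈ G := fun l => hG (le_self_add) (hf1 l)
  have hsum : ∑ l, a l = r • b + Finsupp.single p r := by
    show ∑ l, (f l + (if l = i0 then e else 0)) = _
    rw [Finset.sum_add_distrib, Finset.sum_ite_eq' Finset.univ i0 (fun _ => e), if_pos (Finset.mem_univ _),
      ← he, smul_add, Finsupp.smul_single, smul_eq_mul, mul_one]
  have hp : r ≤ ∑ l, a l p := by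
    have h1 : ∑ l, a l p = (∑ l, a l) p := by rw [Finsupp.finsetSum_apply]
    rw [h1, hsum]
    simp
  obtain ⟨s, hs1, hs2⟩ := clo_choose (fun l => a l p) r hp
  have hc : ∀ l, ∃ c : Fin n →₀ ℕ, a l = c + Finsupp.single p (s l) := by
    intro l
    have : Finsupp.single p (s l) ≤ a l := by
      rw [Finsupp.single_le_iff]; exact hs1 l
    obtain ⟨c, hc⟩ := exists_add_of_le this
    exact ⟨c, by rw [hc, add_comm]⟩
  choose c hc using hc
  have hcs : ∑ l, c l = r • b := by
    have h1 : ∑ l, a l = ∑ l, c l + Finsupp.single p r := by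
      have : ∀ l, a l = c l + Finsupp.single p (s l) := hc
      rw [Finset.sum_congr rfl (fun l _ => this l), Finset.sum_add_distrib]
      congr 1
      rw [← Finsupp.single_finsetSum, hs2]
    rw [hsum] at h1
    exact (add_right_cancel h1).symm
  refine clo_closed hr ⟨fun l => c l + Finsupp.single q (s l), ?_, ?_⟩
  · intro l
    exact clo_exch_one hE hpq (c l) (s l) (by rw [← hc]; exact ha l)
  · rw [Finset.sum_add_distrib, hcs, ← Finsupp.single_finsetSum, hs2, smul_add, Finsupp.smul_single,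
      smul_eq_mul, mul_one]

lemma clo_red {n : ℕ} {G : Set (Fin n →₀ ℕ)} (hGf : Gᶜ.Finite) :
    ∃ c : ℕ, ∀ N : ℕ, pw (cloD G) (N + c) ⊆ pw G N := by
  classical
  have hF : (cloD G \ G).Finite := hGf.subset (fun b hb => hb.2)
  have hr : ∀ b : Fin n →₀ ℕ, ∃ r : ℕ, b ∈ cloD G → 1 ≤ r ∧ r • b ∈ pw G r := by
    intro b
    by_cases h : b ∈ cloD G
    · obtain ⟨r, h1, h2⟩ := h
      exact ⟨r, fun _ => ⟨h1, h2⟩⟩
    · exact ⟨0, fun h' => absurd h' h⟩
  choose r hr using hr
  refine ⟨∑ b ∈ hF.toFinset, r b, ?_⟩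
  generalize hc : ∑ b ∈ hF.toFinset, r b = c
  rintro N a ⟨f, hf1, hf2⟩
  let A : Finset (Fin (N + c)) := Finset.univ.filter (fun l => f l ∈ G)
  let A' : Finset (Fin (N + c)) := Finset.univ.filter (fun l => f l ∉ G)
  have hcard : A.card + A'.card = N + c := by
    have := Finset.card_filter_add_card_filter_not (s := (Finset.univ : Finset (Fin (N + c)))) (fun l => f l ∈ G)
    rw [Finset.card_univ, Fintype.card_fin] at this
    exact this
  have hsplit : ∑ l, f l = ∑ l ∈ A, f l + ∑ l ∈ A', f l :=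
    (Finset.sum_filter_add_sum_filter_not Finset.univ (fun l => f l ∈ G) f).symm
  have hmaps : ∀ l ∈ A', f l ∈ hF.toFinset := by
    intro l hl
    rw [Set.Finite.mem_toFinset]
    exact ⟨hf1 l, (Finset.mem_filter.mp hl).2⟩
  let nb : (Fin n →₀ ℕ) → ℕ := fun b => (A'.filter (fun l => f l = b)).card
  have hsum' : ∑ l ∈ A', f l = ∑ b ∈ hF.toFinset, nb b • b := by
    rw [← Finset.sum_fiberwise_of_maps_to hmaps]
    apply Finset.sum_congr rfl
    intro b _
    rw [Finset.sum_congr rfl (fun l hl => (Finset.mem_filter.mp hl).2), Finset.sum_const]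
  have hnb : ∑ b ∈ hF.toFinset, nb b = A'.card := (Finset.card_eq_sum_card_fiberwise hmaps).symm
  have h1 : ∑ l ∈ A, f l ∈ pw G A.card := by
    have := clo_pw_sum (G := G) A f (fun _ => 1) (fun l hl => clo_pw_one (Finset.mem_filter.mp hl).2)
    rwa [Finset.sum_const, smul_eq_mul, mul_one] at this
  have h2 : ∑ b ∈ hF.toFinset, nb b • b ∈ pw G (∑ b ∈ hF.toFinset, (nb b - r b)) := by
    apply clo_pw_sum
    intro b hb
    rw [Set.Finite.mem_toFinset] at hb
    obtain ⟨g1, g2⟩ := hr b hb.1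
    have e1 := clo_pw_nsmul g2 (nb b / r b)
    have e2 : nb b / r b * r b ≤ nb b := Nat.div_mul_le_self _ _
    have e3 : nb b - r b ≤ nb b / r b * r b := by
      have := Nat.div_add_mod (nb b) (r b)
      have h4 := Nat.mod_lt (nb b) (show 0 < r b by omega)
      rw [mul_comm] at this
      omega
    refine clo_pw_anti e3 (clo_pw_upper ?_ e1)
    rw [← mul_nsmul']
    exact nsmul_le_nsmul_left zero_le e2
  have h3 := clo_pw_add h1 h2
  rw [← hsum', ← hsplit] at h3
  refine clo_pw_anti ?_ (clo_pw_upper hf2 h3)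
  have h4 : ∑ b ∈ hF.toFinset, nb b ≤ ∑ b ∈ hF.toFinset, (nb b - r b) + ∑ b ∈ hF.toFinset, r b := by
    rw [← Finset.sum_add_distrib]
    apply Finset.sum_le_sum
    intro b _
    omega
  omega

/-- reversal of coordinates -/
noncomputable def cloR (n : ℕ) (x : E) : Fin n →₀ ℕ := Finsupp.equivFunOnFinite.symm fun j => x ((Fin.rev j : Fin n) : ℕ)

lemma cloR_apply (n : ℕ) (x : E) (j : Fin n) : cloR n x j = x ((Fin.rev j : Fin n) : ℕ) := rfl

lemma cloR_add (n : ℕ) (x y : E) : cloR n (x + y) = cloR n x + cloR n y := by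
  ext j; simp [cloR_apply]

lemma cloR_sum (n : ℕ) {ι : Type} (S : Finset ι) (f : ι → E) : cloR n (∑ l ∈ S, f l) = ∑ l ∈ S, cloR n (f l) := by
  classical
  ext j
  rw [cloR_apply, Finsupp.finsetSum_apply, Finsupp.finsetSum_apply]
  rfl

lemma cloR_mono (n : ℕ) {x y : E} (h : x ≤ y) : cloR n x ≤ cloR n y := fun j => h _

lemma cloR_single_ge (n : ℕ) {k : ℕ} (hk : n ≤ k) (t : ℕ) : cloR n (Finsupp.single k t) = 0 := by
  ext j
  rw [cloR_apply, Finsupp.single_apply, if_neg]
  · rfl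
  · have := (Fin.rev j).2; omega

lemma cloR_single_lt (n : ℕ) {k : ℕ} (hk : k < n) (t : ℕ) :
    cloR n (Finsupp.single k t) = Finsupp.single (Fin.rev ⟨k, hk⟩) t := by
  ext j
  rw [cloR_apply, Finsupp.single_apply, Finsupp.single_apply]
  have : (k = ((Fin.rev j : Fin n) : ℕ)) ↔ (Fin.rev ⟨k, hk⟩ = j) := by
    constructor
    · intro h
      have : (⟨k, hk⟩ : Fin n) = Fin.rev j := Fin.ext h
      rw [this, Fin.rev_rev]
    · intro h
      rw [← h, Fin.rev_rev]
  simp only [this]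

/-- the section of the reversal -/
noncomputable def cloS (n : ℕ) (a : Fin n →₀ ℕ) : E :=
  a.embDomain ⟨fun j => ((Fin.rev j : Fin n) : ℕ), fun i j h => Fin.rev_injective (Fin.ext h)⟩

lemma cloS_rev (n : ℕ) (a : Fin n →₀ ℕ) (j : Fin n) : cloS n a ((Fin.rev j : Fin n) : ℕ) = a j :=
  Finsupp.embDomain_apply_self _ a j

lemma cloS_ge (n : ℕ) (a : Fin n →₀ ℕ) {k : ℕ} (hk : n ≤ k) : cloS n a k = 0 := by
  apply Finsupp.embDomain_of_notMem_range
  rintro ⟨j, hj⟩
  have h1 : ((Fin.rev j : Fin n) : ℕ) = k := hj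
  have := (Fin.rev j).2
  omega

lemma cloR_S (n : ℕ) (a : Fin n →₀ ℕ) : cloR n (cloS n a) = a := by
  ext j
  rw [cloR_apply, cloS_rev]

lemma cloR_inj (n : ℕ) {x y : E} (hx : ∀ j, n ≤ j → x j = 0) (hy : ∀ j, n ≤ j → y j = 0)
    (h : cloR n x = cloR n y) : x = y := by
  ext k
  by_cases hk : n ≤ k
  · rw [hx k hk, hy k hk]
  · push Not at hk
    have := DFunLike.congr_fun h (Fin.rev ⟨k, hk⟩)
    rw [cloR_apply, cloR_apply, Fin.rev_rev] at this
    exact this

/-! TARGET (S_CLO), the integral closure of the exponent set. All sums are in `Fin n →₀ ℕ`.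
Plain proof. For `r : ℕ` let `rG` denote `pw G r = {a | a ≥ a sum of r elements of G}`, an upper set; `pw G r + pw G s ⊆ pw G (r+s)`, `m • pw G r ⊆ pw G (m r)`.
Let `D = {b : Fin n →₀ ℕ | ∃ r ≥ 1, r • b ∈ pw G r}` (the integral closure of `G`). `D` is an upper set and `G ⊆ D`.
(1) Exchange in `D`: if `b ∈ D`, `p < q`, `b p ≥ 1` then `b - single p 1 + single q 1 ∈ D`. Proof: `r • b ≥ ∑_{l<r} a_l`,
`a_l ∈ G`; adding the excess to `a_0` we may assume `r • b = ∑ a_l` (upper set, `r ≥ 1`). As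
`∑_l a_l p = r b p ≥ r` choose integers `0 ≤ s_l ≤ a_l p` with `∑ s_l = r`. Let `m = ∏ (a_l p)` over the `l` with `a_l p > 0` (or any common
multiple `m ≥ 1` of them). Then `m • (a_l - single p s_l + single q s_l)` is a sum of `m` elements of `G`, namely
`m s_l / a_l p` copies of `a_l - single p (a_l p) + single q (a_l p)` (in `G` by `Exch`) and the rest copies of `a_l`
(if `a_l p = 0`, `s_l = 0`, `m` copies of `a_l`). Adding up over `l`,
`m r • (b - single p 1 + single q 1) ∈ pw G (m r)`.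
(2) Reduction: there is `c` with `pw D (N + c) ⊆ pw G N` for all `N`. Proof: `D` has finitely many minimal
elements `b_1, …, b_t` (Dickson), `r_j • b_j ∈ pw G r_j`; `c = ∑ r_j` works: a sum of `N + c` elements of `D` dominates `∑ n_j b_j` with `∑ n_j = N + c`;
`n_j = q_j r_j + ρ_j`, `ρ_j < r_j`, and `n_j b_j ≥ q_j r_j b_j ∈ pw G (q_j r_j)`, with `∑ q_j r_j ≥ N + c - ∑ ρ_j ≥ N`
(`pw G` is decreasing in the exponent: drop summands).
(3) Let `ρ : E → (Fin n →₀ ℕ)`, `(ρ x) j = x (n - 1 - j)` and `B = ρ⁻¹(D)`. `B` is an upper set. `SS B`: let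
`y + single j 1 ∈ B`, `i < j`. If `j ≥ n` then `ρ(y) ∈ D` and `ρ(y + single i 1) ≥ ρ(y)`. If `j < n` then with `p = n-1-j < q = n-1-i`,
`ρ(y + single i 1) = ρ(y + single j 1) - single p 1 + single q 1 ∈ D` by (1). The map `ρ` is a bijection from the vectors supported in
`[0,n)` to `Fin n →₀ ℕ`; so `co n B` is in bijection with `Dᶜ ⊆ Gᶜ`: finite, of cardinality `≤ #Gᶜ`. (4) For `i ≤ n`: if `a : Fin n →₀ ℕ` has
`a j = 0` for `j < i` and `a ∉ pw G N` then its preimage `x` (supported in `[0,n)`) is supported in `[0,n-i)` and `x ∉ ms B B (N+c) 0`, since otherwise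
`a = ρ x ∈ pw D (N + c) ⊆ pw G N`. The map `a ↦ x` is injective, and `co (n-i) (ms B B (N+c) 0)` is finite (as `co n B` is
finite, `B` contains all vectors supported in `[0,n)` of large degree, and so does `ms B B (N+c) 0`). -/
theorem s_clo (n : ℕ) (G : Set (Fin n →₀ ℕ)) (hG : IsUpperSet G) (hE : Exch G) (hGf : Gᶜ.Finite) :
    ∃ B : Set E, IsUpperSet B ∧ SS B ∧ (co n B).Finite ∧ (co n B).ncard ≤ Gᶜ.ncard ∧
    ∃ c : ℕ, ∀ i N : ℕ, i ≤ n →
      {a : Fin n →₀ ℕ | (∀ j : Fin n, j.val < i → a j = 0) ∧ a ∉ pw G N}.ncard ≤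
        hh (n - i) B B (N + c) 0 := by
  classical
  have hDG : ∀ b, b ∉ cloD G → b ∈ Gᶜ := fun b hb hb' => hb (clo_G_sub hb')
  let B : Set E := {x | cloR n x ∈ cloD G}
  have hBmem : ∀ x, x ∈ B ↔ cloR n x ∈ cloD G := fun _ => Iff.rfl
  have hinj : ∀ k ≤ n, ∀ (T : Set E), Set.InjOn (cloR n) (co k T) := by
    intro k hk T x hx y hy h
    exact cloR_inj n (fun j hj => hx.1 j (hk.trans hj)) (fun j hj => hy.1 j (hk.trans hj)) h
  have hmaps : ∀ x ∈ co n B, cloR n x ∈ Gᶜ := fun x hx => hDG _ hx.2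
  have hcoB : (co n B).Finite := by
    refine Set.Finite.of_finite_image (f := cloR n) (hGf.subset ?_) (hinj n le_rfl B)
    rintro _ ⟨x, hx, rfl⟩
    exact hmaps x hx
  obtain ⟨c, hc⟩ := clo_red hGf
  -- large multiples of the unit vectors lie in `B`
  have hlarge : ∃ M : ℕ, ∀ k < n, Finsupp.single k M ∈ B := by
    have h1 : ∀ j : Fin n, ∃ M : ℕ, Finsupp.single j M ∈ G := by
      intro j
      by_contra hcon
      push Not at hcon
      have : (Set.range (fun M : ℕ => (Finsupp.single j M : Fin n →₀ ℕ))).Finite := by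
        apply hGf.subset
        rintro _ ⟨M, rfl⟩
        exact hcon M
      exact Set.infinite_range_of_injective (Finsupp.single_injective j) this
    choose M hM using h1
    refine ⟨∑ j, M j, ?_⟩
    intro k hk
    rw [hBmem, cloR_single_lt n hk]
    apply clo_G_sub
    refine hG ?_ (hM (Fin.rev ⟨k, hk⟩))
    rw [Finsupp.single_le_iff, Finsupp.single_eq_same]
    exact Finset.single_le_sum (f := M) (fun _ _ => Nat.zero_le _) (Finset.mem_univ _)
  obtain ⟨M, hM⟩ := hlarge
  have hfin : ∀ k ≤ n, ∀ N : ℕ, (co k (ms B B N 0)).Finite := by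
    intro k hk N
    refine (Set.finite_Icc (0 : E) (∑ i ∈ Finset.range n, Finsupp.single i (N * M))).subset ?_
    intro x hx
    refine ⟨zero_le, ?_⟩
    intro j
    by_cases hj : n ≤ j
    · rw [hx.1 j (hk.trans hj)]; exact Nat.zero_le _
    · push Not at hj
      have h1 : (∑ i ∈ Finset.range n, Finsupp.single i (N * M) : E) j = N * M := by
        rw [Finsupp.finsetSum_apply, Finset.sum_eq_single j]
        · rw [Finsupp.single_eq_same]
        · intro i _ hij; rw [Finsupp.single_apply, if_neg hij]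
        · intro h; exact absurd (Finset.mem_range.mpr hj) h
      rw [h1]
      by_contra hcon
      push Not at hcon
      apply hx.2
      refine ⟨fun _ => Finsupp.single j M, Fin.elim0, fun _ => hM j hj, fun i => i.elim0, ?_⟩
      rw [Finset.sum_const, Finset.card_univ, Fintype.card_fin, Finsupp.smul_single, smul_eq_mul]
      simp only [Finset.univ_eq_empty, Finset.sum_empty, add_zero]
      rw [Finsupp.single_le_iff]
      exact hcon.le
  refine ⟨B, ?_, ?_, hcoB, ?_, c, ?_⟩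
  · intro x y hxy hx
    exact clo_D_upper (cloR_mono n hxy) hx
  · intro y i j hij h
    rw [hBmem, cloR_add] at h ⊢
    by_cases hj : n ≤ j
    · rw [cloR_single_ge n hj, add_zero] at h
      exact clo_D_upper le_self_add h
    · push Not at hj
      have hi : i < n := by omega
      rw [cloR_single_lt n hj] at h
      rw [cloR_single_lt n hi]
      refine clo_exch hG hE ?_ _ h
      rw [Fin.rev_lt_rev]
      exact hij
  · exact Set.ncard_le_ncard_of_injOn (cloR n) hmaps (hinj n le_rfl B) hGf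
  · intro i N hi
    unfold hh
    refine Set.ncard_le_ncard_of_injOn (cloS n) ?_ ?_ (hfin (n - i) (Nat.sub_le _ _) (N + c))
    · rintro a ⟨ha1, ha2⟩
      refine ⟨?_, ?_⟩
      · intro k hk
        by_cases hkn : n ≤ k
        · exact cloS_ge n a hkn
        · push Not at hkn
          have h1 := cloS_rev n a (Fin.rev ⟨k, hkn⟩)
          rw [Fin.rev_rev] at h1
          rw [show cloS n a k = a (Fin.rev ⟨k, hkn⟩) from h1]
          apply ha1
          rw [Fin.val_rev]
          simp only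
          omega
      · rintro ⟨f, g, hf, hg, hle⟩
        apply ha2
        apply hc N
        refine ⟨fun l => cloR n (f l), fun l => hf l, ?_⟩
        have h1 : ∑ l, f l ≤ cloS n a := le_trans le_self_add hle
        have h2 := cloR_mono n h1
        rw [cloR_sum, cloR_S] at h2
        exact h2
    · intro a _ b _ hab
      have := congrArg (cloR n) hab
      rwa [cloR_S, cloR_S] at this

end Pool.Agent.H195L.L19
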