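import Pool.Agent.H195_lech.Spec2

/-!
# Stirling refinement of Lech's inequality (MP_eae75b_ag): Theorem M from the pair lemma
-/

set_option autoImplicit false

namespace Pool.Agent.H195L

open Finset Filter Topology
open scoped BigOperators

theorem IsMu.unique {k : ℕ} {G : Set E} {e e' : ℝ} (h : IsMu k G e) (h' : IsMu k G e') : e = e' :=
  tendsto_nhds_unique h h'

theorem ms_of_zero {J K : Set E} (hJ : (0 : E) ∈ J) (hK : (0 : E) ∈ K) (α β : ℕ) :
    ms J K α β = Set.univ := by
  ext x
  refine ⟨fun _ => Set.mem_univ _, fun _ => ⟨fun _ => 0, fun _ => 0, fun _ => hJ, fun _ => hK, ?_⟩⟩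
  simp

theorem hh_of_zero {G : Set E} (hG : (0 : E) ∈ G) (k N M : ℕ) : hh k G G N M = 0 := by
  unfold hh
  rw [ms_of_zero hG hG]
  have : co k (Set.univ : Set E) = ∅ := by
    ext x
    simp [co]
  rw [this, Set.ncard_empty]

theorem isMu_of_zero {G : Set E} (hG : (0 : E) ∈ G) (k : ℕ) : IsMu k G 0 := by
  unfold IsMu
  simp only [hh_of_zero hG]
  simp

theorem isMu_zero {G : Set E} (hG : (0 : E) ∉ G) : IsMu 0 G 1 := by
  unfold IsMu
  refine tendsto_const_nhds.congr' ?_
  filter_upwards [eventually_ge_atTop 1] with N hN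
  have h1 : co 0 (ms G G N 0) = {0} := by
    ext x
    constructor
    · rintro ⟨hx, -⟩
      rw [Set.mem_singleton_iff]
      ext j
      exact hx j (Nat.zero_le j)
    · intro hx
      rw [Set.mem_singleton_iff] at hx
      subst hx
      refine ⟨fun j _ => rfl, ?_⟩
      rintro ⟨f, g, hf, hg, h⟩
      apply hG
      have h2 : f ⟨0, hN⟩ ≤ 0 := by
        refine le_trans ?_ h
        refine le_trans ?_ (le_add_of_nonneg_right zero_le)
        exact Finset.single_le_sum (f := f) (fun _ _ => zero_le) (Finset.mem_univ _)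
      have h3 : f ⟨0, hN⟩ = 0 := le_antisymm h2 zero_le
      rw [← h3]
      exact hf _
  unfold hh
  rw [h1, Set.ncard_singleton]
  simp

section slice

variable {G : Set E} {d : ℕ}

theorem slice_up (hG : IsUpperSet G) (t : ℕ) : IsUpperSet (slice d t G) := by
  intro x y hxy hx
  exact hG (add_le_add_left hxy _) hx

theorem slice_ss (hS : SS G) (t : ℕ) : SS (slice d t G) := by
  intro y i j hij hy
  have h1 : y + Finsupp.single d t + Finsupp.single j 1 ∈ G := by
    have : y + Finsupp.single d t + Finsupp.single j 1 = y + Finsupp.single j 1 + Finsupp.single d t := by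
      abel
    rw [this]
    exact hy
  have h2 := hS _ i j hij h1
  have : y + Finsupp.single i 1 + Finsupp.single d t = y + Finsupp.single d t + Finsupp.single i 1 := by
    abel
  show y + Finsupp.single i 1 + Finsupp.single d t ∈ G
  rw [this]
  exact h2

theorem slice_zero : slice d 0 G = G := by
  ext x
  simp [slice]

theorem slice_mono (hG : IsUpperSet G) (t : ℕ) : slice d t G ⊆ slice d (t + 1) G := by
  intro x hx
  refine hG ?_ hx
  refine add_le_add_right ?_ _
  exact Finsupp.single_mono (Nat.le_succ t)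

theorem slice_del (hS : SS G) (t : ℕ) : ∀ x ∈ slice d (t + 1) G, ∀ i, i < d →
    x + Finsupp.single i 1 ∈ slice d t G := by
  intro x hx i hi
  have h1 : x + Finsupp.single d t + Finsupp.single d 1 ∈ G := by
    rw [add_assoc, ← Finsupp.single_add]
    exact hx
  have h2 := hS _ i d hi h1
  show x + Finsupp.single i 1 + Finsupp.single d t ∈ G
  have : x + Finsupp.single i 1 + Finsupp.single d t = x + Finsupp.single d t + Finsupp.single i 1 := by
    abel
  rw [this]
  exact h2

theorem slice_maps (t : ℕ) : Set.MapsTo (fun x : E => x + Finsupp.single d t)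
    (co d (slice d t G)) (co (d + 1) G) := by
  rintro x ⟨hx, hx'⟩
  refine ⟨fun j hj => ?_, hx'⟩
  show x j + Finsupp.single d t j = 0
  rw [hx j (by omega), Finsupp.single_apply, if_neg (by omega), add_zero]

theorem slice_fin (hf : (co (d + 1) G).Finite) (t : ℕ) : (co d (slice d t G)).Finite :=
  Set.Finite.of_injOn (slice_maps t) (fun _ _ _ _ h => add_right_cancel h) hf

theorem slice_sum (hf : (co (d + 1) G).Finite) (T : ℕ) :
    ∑ t ∈ range T, (co d (slice d t G)).ncard ≤ (co (d + 1) G).ncard := by
  classical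
  have h1 : ∀ t, (co d (slice d t G)).ncard =
      ((fun x : E => x + Finsupp.single d t) '' (co d (slice d t G))).ncard := fun t =>
    (Set.ncard_image_of_injective _ (fun _ _ h => add_right_cancel h)).symm
  have h2 : ∑ t ∈ range T, (co d (slice d t G)).ncard =
      (⋃ t ∈ range T, (fun x : E => x + Finsupp.single d t) '' (co d (slice d t G))).ncard := by
    rw [Finset.sum_congr rfl fun t _ => h1 t]
    induction T with
    | zero => simp
    | succ T ih =>
      rw [Finset.sum_range_succ, ih, Finset.range_add_one, Finset.set_biUnion_insert, Set.union_comm]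
      rw [Set.ncard_union_eq _ (hs := ?_) (ht := ?_)]
      · rw [Set.disjoint_iff]
        rintro y ⟨hy, x', ⟨hx', -⟩, rfl⟩
        simp only [Set.mem_iUnion, Finset.mem_range] at hy
        obtain ⟨t, ht, x, ⟨hx, -⟩, h⟩ := hy
        have h3 := DFunLike.congr_fun h d
        simp only [Finsupp.add_apply, Finsupp.single_eq_same] at h3
        rw [hx d le_rfl, hx' d le_rfl] at h3
        omega
      · refine hf.subset ?_
        intro y hy
        simp only [Set.mem_iUnion, Finset.mem_range] at hy
        obtain ⟨t, -, x, hx, rfl⟩ := hy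
        exact slice_maps t hx
      · refine hf.subset ?_
        rintro _ ⟨x, hx, rfl⟩
        exact slice_maps T hx
  rw [h2]
  refine Set.ncard_le_ncard ?_ hf
  intro y hy
  simp only [Set.mem_iUnion, Finset.mem_range] at hy
  obtain ⟨t, -, x, hx, rfl⟩ := hy
  exact slice_maps t hx

end slice

theorem main_of (hpair : S_PAIR) (hm1 : S_M1) (halg : S_ALG) : S_MAIN := by
  classical
  intro n
  induction n with
  | zero =>
    intro G hG hS hf
    by_cases h0 : (0 : E) ∈ G
    · refine ⟨fun _ => 0, fun k _ => isMu_of_zero h0 k, ?_⟩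
      simp only [mul_zero, Finset.sum_const_zero]
      positivity
    · refine ⟨fun _ => 1, fun k hk => ?_, ?_⟩
      · obtain rfl : k = 0 := by omega
        exact isMu_zero h0
      · have h1 : co 0 G = {0} := by
          ext x
          constructor
          · rintro ⟨hx, -⟩
            rw [Set.mem_singleton_iff]
            ext j
            exact hx j (Nat.zero_le j)
          · intro hx
            rw [Set.mem_singleton_iff] at hx
            subst hx
            exact ⟨fun j _ => rfl, h0⟩
        rw [h1, Set.ncard_singleton]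
        simp
  | succ d ih =>
    intro G hG hS hf
    by_cases h0 : (0 : E) ∈ G
    · refine ⟨fun _ => 0, fun k _ => isMu_of_zero h0 k, ?_⟩
      simp only [mul_zero, Finset.sum_const_zero]
      positivity
    have hT : ∃ T, Finsupp.single d T ∈ G := by
      by_contra hcon
      push Not at hcon
      have h1 : Set.InjOn (fun t : ℕ => (Finsupp.single d t : E)) Set.univ :=
        fun a _ b _ h => Finsupp.single_injective d h
      have h2 : Set.MapsTo (fun t : ℕ => (Finsupp.single d t : E)) Set.univ (co (d + 1) G) := by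
        intro t _
        refine ⟨fun j hj => ?_, hcon t⟩
        rw [Finsupp.single_apply, if_neg (by omega)]
      exact Set.infinite_univ (Set.Finite.of_injOn h2 h1 hf)
    obtain ⟨T, hTdef⟩ : ∃ T, T = Nat.find hT := ⟨_, rfl⟩
    have hTm : Finsupp.single d T ∈ G := by rw [hTdef]; exact Nat.find_spec hT
    have hTlt : ∀ t, t < T → Finsupp.single d t ∉ G := by
      intro t ht
      rw [hTdef] at ht
      exact Nat.find_min hT ht
    have hTpos : 0 < T := by
      rcases Nat.eq_zero_or_pos T with h | h
      · rw [h, Finsupp.single_zero] at hTm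
        exact absurd hTm h0
      · exact h
    have hpairs : ∀ t, t < T → IsPair d (slice d t G) (slice d (t + 1) G) := fun t ht =>
      { upJ := slice_up hG t
        upK := slice_up hG (t + 1)
        ssJ := slice_ss hS t
        ssK := slice_ss hS (t + 1)
        sub := slice_mono hG t
        del := slice_del hS t
        fin := slice_fin hf t
        zero := by
          intro h
          have : (0 : E) + Finsupp.single d t ∈ G := h
          rw [zero_add] at this
          exact hTlt t ht this }
    have hcs : ∀ t, ∃ c : ℕ → ℕ → ℝ, t < T →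
        (∀ a b, a + b + 1 ≤ d → 0 ≤ c a (b + 1) - c (a + 1) b + c a b) ∧
        (∀ k, k ≤ d → IsMu k (slice d t G) (c k 0)) ∧
        (∀ k, 1 ≤ k → k ≤ d → IsMu k (slice d (t + 1) G) (c 0 k)) ∧
        Tendsto (fun N : ℕ => ((d + 1).factorial : ℝ) *
          (∑ s ∈ range N, (hh d (slice d t G) (slice d (t + 1) G) (N - s) s : ℝ)) /
            (N : ℝ) ^ (d + 1)) atTop
          (𝓝 (∑ ab ∈ antidiagonal d, c ab.1 ab.2)) := by
      intro t
      by_cases ht : t < T
      · obtain ⟨c, hc⟩ := hpair d _ _ (hpairs t ht)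
        exact ⟨c, fun _ => hc⟩
      · exact ⟨fun _ _ => 0, fun h => absurd h ht⟩
    choose c hc using hcs
    -- the pair (G, G) in dimension d + 1
    obtain ⟨c', -, hc'2, -, -⟩ := hpair (d + 1) G G
      { upJ := hG
        upK := hG
        ssJ := hS
        ssK := hS
        sub := subset_rfl
        del := fun x hx i _ => hG (le_add_of_nonneg_right zero_le) hx
        fin := hf
        zero := h0 }
    refine ⟨fun k => c' k 0, hc'2, ?_⟩
    -- (A)
    have hA : ∀ t, t < T → ∑ k ∈ range (d + 1), ((ascPochhammer ℕ d).coeff k : ℝ) * c t k 0 ≤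
        (d.factorial : ℝ) * ((co d (slice d t G)).ncard : ℝ) := by
      intro t ht
      obtain ⟨e, he1, he2⟩ := ih (slice d t G) (slice_up hG t) (slice_ss hS t) (slice_fin hf t)
      refine le_trans (le_of_eq ?_) he2
      refine Finset.sum_congr rfl fun k hk => ?_
      rw [Finset.mem_range] at hk
      rw [((hc t ht).2.1 k (by omega)).unique (he1 k (by omega))]
    -- (B)
    have hB : ∀ t, t < T → ∑ ab ∈ antidiagonal d, c t ab.1 ab.2 +
        ∑ k ∈ Icc 1 d, ((ascPochhammer ℕ (d + 1)).coeff k : ℝ) * (c t k 0 - c t 0 k) ≤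
        ((d + 1).factorial : ℝ) * ((co d (slice d t G)).ncard : ℝ) := by
      intro t ht
      refine (halg d (c t) (hc t ht).1).trans ?_
      rw [Nat.factorial_succ]
      push_cast
      rw [mul_assoc]
      exact mul_le_mul_of_nonneg_left (hA t ht) (by positivity)
    -- (C)
    have hC : c' (d + 1) 0 ≤ ∑ t ∈ range T, ∑ ab ∈ antidiagonal d, c t ab.1 ab.2 := by
      have h1 : Tendsto (fun N : ℕ => ∑ t ∈ range T, ((d + 1).factorial : ℝ) *
          (∑ s ∈ range N, (hh d (slice d t G) (slice d (t + 1) G) (N - s) s : ℝ)) /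
            (N : ℝ) ^ (d + 1)) atTop (𝓝 (∑ t ∈ range T, ∑ ab ∈ antidiagonal d, c t ab.1 ab.2)) := by
        refine tendsto_finsetSum _ fun t ht => ?_
        rw [Finset.mem_range] at ht
        exact (hc t ht).2.2.2
      refine le_of_tendsto_of_tendsto' (hc'2 (d + 1) le_rfl) h1 fun N => ?_
      rw [← Finset.sum_div, ← Finset.mul_sum]
      have h2 := hm1 d T G hG hf hTm N
      have h3 : (hh (d + 1) G G N 0 : ℝ) ≤ ∑ t ∈ range T, ∑ s ∈ range N,
          (hh d (slice d t G) (slice d (t + 1) G) (N - s) s : ℝ) := by exact_mod_cast h2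
      gcongr
    -- (D)
    have hD : ∀ k, 1 ≤ k → k ≤ d → c' k 0 = ∑ t ∈ range T, (c t k 0 - c t 0 k) := by
      intro k hk1 hk2
      obtain ⟨m, hm⟩ : ∃ m : ℕ → ℝ, m = fun t => if t < T then c t k 0 else 0 := ⟨_, rfl⟩
      have h1 : ∀ t, t ≤ T → IsMu k (slice d t G) (m t) := by
        intro t ht
        rw [hm]
        beta_reduce
        split_ifs with h
        · exact (hc t h).2.1 k hk2
        · obtain rfl : t = T := by omega
          apply isMu_of_zero
          show (0 : E) + Finsupp.single d t ∈ G
          rw [zero_add]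
          exact hTm
      have h2 : ∀ t ∈ range T, c t k 0 - c t 0 k = m t - m (t + 1) := by
        intro t ht
        rw [Finset.mem_range] at ht
        have h3 : c t k 0 = m t := ((hc t ht).2.1 k hk2).unique (h1 t ht.le)
        have h4 : c t 0 k = m (t + 1) := ((hc t ht).2.2.1 k hk1 hk2).unique (h1 (t + 1) ht)
        rw [h3, h4]
      rw [Finset.sum_congr rfl h2, Finset.sum_range_sub']
      have h5 : m T = 0 := by
        rw [hm]
        simp
      rw [h5, sub_zero]
      have h6 := h1 0 (Nat.zero_le T)
      rw [slice_zero] at h6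
      exact (hc'2 k (by omega)).unique h6
    -- assembling
    have hQ0 : ((ascPochhammer ℕ (d + 1)).coeff 0 : ℝ) = 0 := by
      have : (ascPochhammer ℕ (d + 1)).coeff 0 = 0 := by
        rw [Polynomial.coeff_zero_eq_eval_zero, ascPochhammer_ne_zero_eval_zero ℕ (Nat.succ_ne_zero d)]
      rw [this, Nat.cast_zero]
    have hQd : ((ascPochhammer ℕ (d + 1)).coeff (d + 1) : ℝ) = 1 := by
      have h1 := monic_ascPochhammer ℕ (d + 1)
      have h2 : (ascPochhammer ℕ (d + 1)).natDegree = d + 1 := ascPochhammer_natDegree (S := ℕ) (d + 1)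
      unfold Polynomial.Monic Polynomial.leadingCoeff at h1
      rw [h2] at h1
      rw [h1, Nat.cast_one]
    have hsplit : ∑ k ∈ range (d + 1 + 1), ((ascPochhammer ℕ (d + 1)).coeff k : ℝ) * c' k 0 =
        c' (d + 1) 0 + ∑ k ∈ Icc 1 d, ((ascPochhammer ℕ (d + 1)).coeff k : ℝ) * c' k 0 := by
      rw [Finset.sum_range_succ, Finset.sum_range_succ', hQ0, hQd, zero_mul, add_zero, one_mul,
        add_comm]
      congr 1
      rw [Finset.range_eq_Ico, Finset.sum_Ico_add' (fun k => ((ascPochhammer ℕ (d + 1)).coeff k : ℝ) * c' k 0) 0 d 1]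
      rfl
    calc ∑ k ∈ range (d + 1 + 1), ((ascPochhammer ℕ (d + 1)).coeff k : ℝ) * c' k 0
        = c' (d + 1) 0 + ∑ k ∈ Icc 1 d, ((ascPochhammer ℕ (d + 1)).coeff k : ℝ) * c' k 0 := hsplit
      _ = c' (d + 1) 0 + ∑ k ∈ Icc 1 d, ((ascPochhammer ℕ (d + 1)).coeff k : ℝ) *
            ∑ t ∈ range T, (c t k 0 - c t 0 k) := by
          congr 1
          refine Finset.sum_congr rfl fun k hk => ?_
          rw [Finset.mem_Icc] at hk
          rw [hD k hk.1 hk.2]
      _ ≤ ∑ t ∈ range T, ∑ ab ∈ antidiagonal d, c t ab.1 ab.2 +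
            ∑ k ∈ Icc 1 d, ((ascPochhammer ℕ (d + 1)).coeff k : ℝ) *
            ∑ t ∈ range T, (c t k 0 - c t 0 k) := add_le_add_left hC _
      _ = ∑ t ∈ range T, (∑ ab ∈ antidiagonal d, c t ab.1 ab.2 +
            ∑ k ∈ Icc 1 d, ((ascPochhammer ℕ (d + 1)).coeff k : ℝ) * (c t k 0 - c t 0 k)) := by
          rw [Finset.sum_add_distrib]
          congr 1
          rw [Finset.sum_comm]
          refine Finset.sum_congr rfl fun k _ => ?_
          rw [Finset.mul_sum]
      _ ≤ ∑ t ∈ range T, ((d + 1).factorial : ℝ) * ((co d (slice d t G)).ncard : ℝ) :=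
          Finset.sum_le_sum fun t ht => hB t (Finset.mem_range.1 ht)
      _ = ((d + 1).factorial : ℝ) * ((∑ t ∈ range T, (co d (slice d t G)).ncard : ℕ) : ℝ) := by
          rw [← Finset.mul_sum]
          push_cast
          rfl
      _ ≤ ((d + 1).factorial : ℝ) * ((co (d + 1) G).ncard : ℝ) := by
          have := slice_sum hf T
          gcongr

end Pool.Agent.H195L
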