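import Pool.Agent.H195_lech.Pair
import Pool.Agent.H195_lech.L06

/-!
# Stirling refinement of Lech's inequality (MP_eae75b_ag): the Newton expansions
-/

set_option autoImplicit false

namespace Pool.Agent.H195L

open Finset Filter Topology
open scoped BigOperators

/-! ### Newton expansions -/

/-- `g` is the family of the Newton coefficients of `F` -/
def Nw (F : ℕ → ℕ → ℤ) (g : ℕ → ℕ → ℤ) : Prop := ∀ α β : ℕ, F α β =
  ∑ a ∈ range (α + 1), ∑ b ∈ range (β + 1), g a b * ((α.choose a : ℤ) * (β.choose b : ℤ))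

theorem sum_choose_succ (G : ℕ → ℤ) (α : ℕ) :
    ∑ a ∈ range (α + 1 + 1), G a * ((α + 1).choose a : ℤ) =
      ∑ a ∈ range (α + 1), (G a + G (a + 1)) * (α.choose a : ℤ) := by
  have h1 : ∑ a ∈ range (α + 1), (G a + G (a + 1)) * (α.choose a : ℤ) =
      ∑ a ∈ range (α + 1), G a * (α.choose a : ℤ) + ∑ a ∈ range (α + 1), G (a + 1) * (α.choose a : ℤ) := by
    rw [← Finset.sum_add_distrib]
    exact Finset.sum_congr rfl fun a _ => by ring
  have h2 : ∑ a ∈ range (α + 1), G a * (α.choose a : ℤ) =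
      ∑ a ∈ range (α + 1 + 1), G a * (α.choose a : ℤ) := by
    rw [Finset.sum_range_succ _ (α + 1), Nat.choose_succ_self, Nat.cast_zero, mul_zero, add_zero]
  rw [h1, h2, Finset.sum_range_succ' _ (α + 1), Finset.sum_range_succ' _ (α + 1), Nat.choose_zero_right,
    Nat.choose_zero_right]
  have h3 : ∑ k ∈ range (α + 1), G (k + 1) * ((α + 1).choose (k + 1) : ℤ) =
      ∑ k ∈ range (α + 1), G (k + 1) * (α.choose (k + 1) : ℤ) +
        ∑ a ∈ range (α + 1), G (a + 1) * (α.choose a : ℤ) := by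
    rw [← Finset.sum_add_distrib]
    refine Finset.sum_congr rfl fun a _ => ?_
    rw [Nat.choose_succ_succ]
    push_cast
    ring
  rw [h3]
  ring

theorem Nw.shift1 {F g : ℕ → ℕ → ℤ} (h : Nw F g) :
    Nw (fun α β => F (α + 1) β) (fun a b => g a b + g (a + 1) b) := by
  intro α β
  beta_reduce
  rw [h (α + 1) β]
  have h1 : ∀ m α' : ℕ, ∑ a ∈ range m, ∑ b ∈ range (β + 1), g a b * ((α'.choose a : ℤ) * (β.choose b : ℤ)) =
      ∑ a ∈ range m, (∑ b ∈ range (β + 1), g a b * (β.choose b : ℤ)) * (α'.choose a : ℤ) := by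
    intro m α'
    refine Finset.sum_congr rfl fun a _ => ?_
    rw [Finset.sum_mul]
    exact Finset.sum_congr rfl fun b _ => by ring
  rw [h1, sum_choose_succ]
  refine Finset.sum_congr rfl fun a _ => ?_
  rw [← Finset.sum_add_distrib, Finset.sum_mul]
  exact Finset.sum_congr rfl fun b _ => by ring

theorem Nw.shift2 {F g : ℕ → ℕ → ℤ} (h : Nw F g) :
    Nw (fun α β => F α (β + 1)) (fun a b => g a b + g a (b + 1)) := by
  intro α β
  beta_reduce
  rw [h α (β + 1)]
  refine Finset.sum_congr rfl fun a _ => ?_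
  have h1 : ∀ m β' : ℕ, ∑ b ∈ range m, g a b * ((α.choose a : ℤ) * (β'.choose b : ℤ)) =
      (∑ b ∈ range m, g a b * (β'.choose b : ℤ)) * (α.choose a : ℤ) := by
    intro m β'
    rw [Finset.sum_mul]
    exact Finset.sum_congr rfl fun b _ => by ring
  rw [h1, sum_choose_succ, Finset.sum_mul]
  exact Finset.sum_congr rfl fun b _ => by ring

theorem Nw.add {F g F' g' : ℕ → ℕ → ℤ} (h : Nw F g) (h' : Nw F' g') :
    Nw (fun α β => F α β + F' α β) (fun a b => g a b + g' a b) := by
  intro α β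
  beta_reduce
  rw [h, h', ← Finset.sum_add_distrib]
  refine Finset.sum_congr rfl fun a _ => ?_
  rw [← Finset.sum_add_distrib]
  exact Finset.sum_congr rfl fun b _ => by ring

theorem Nw.sub {F g F' g' : ℕ → ℕ → ℤ} (h : Nw F g) (h' : Nw F' g') :
    Nw (fun α β => F α β - F' α β) (fun a b => g a b - g' a b) := by
  intro α β
  beta_reduce
  rw [h, h', ← Finset.sum_sub_distrib]
  refine Finset.sum_congr rfl fun a _ => ?_
  rw [← Finset.sum_sub_distrib]
  exact Finset.sum_congr rfl fun b _ => by ring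

theorem Nw.zero : Nw (fun _ _ => 0) (fun _ _ => 0) := by
  intro α β
  simp

theorem Nw.sum {ι : Type} (s : Finset ι) {F g : ι → ℕ → ℕ → ℤ} (h : ∀ i ∈ s, Nw (F i) (g i)) :
    Nw (fun α β => ∑ i ∈ s, F i α β) (fun a b => ∑ i ∈ s, g i a b) := by
  classical
  induction s using Finset.induction_on with
  | empty => simpa using Nw.zero
  | insert i s hi ih =>
    have h1 := (h i (Finset.mem_insert_self i s)).add (ih fun j hj => h j (Finset.mem_insert_of_mem hj))
    intro α β
    have h2 := h1 α β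
    simp only [Finset.sum_insert hi]
    exact h2

theorem uniq1 {G : ℕ → ℤ} (h : ∀ α : ℕ, ∑ a ∈ range (α + 1), G a * (α.choose a : ℤ) = 0) :
    ∀ a, G a = 0 := by
  intro a
  induction a using Nat.strong_induction_on with
  | _ a ih =>
    have h1 := h a
    rw [Finset.sum_range_succ, Nat.choose_self, Nat.cast_one, mul_one] at h1
    rw [Finset.sum_eq_zero fun i hi => by rw [ih i (Finset.mem_range.1 hi), zero_mul]] at h1
    simpa using h1

theorem Nw.uniq {F g g' : ℕ → ℕ → ℤ} (h : Nw F g) (h' : Nw F g') (a b : ℕ) : g a b = g' a b := by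
  have h0 : Nw (fun _ _ => 0) (fun a b => g a b - g' a b) := by
    have := h.sub h'
    simpa using this
  have h1 : ∀ β a, ∑ b ∈ range (β + 1), (g a b - g' a b) * (β.choose b : ℤ) = 0 := by
    intro β
    refine uniq1 fun α => ?_
    have h2 := h0 α β
    beta_reduce at h2
    rw [h2]
    refine Finset.sum_congr rfl fun a _ => ?_
    rw [Finset.sum_mul]
    exact Finset.sum_congr rfl fun b _ => by ring
  have h3 := uniq1 (G := fun b => g a b - g' a b) (fun β => h1 β a) b
  beta_reduce at h3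
  linarith

theorem sum_pad {L m : ℕ} (f : ℕ → ℤ) (h1 : ∀ a, L ≤ a → f a = 0) (h2 : ∀ a, m ≤ a → f a = 0) :
    ∑ a ∈ range L, f a = ∑ a ∈ range m, f a := by
  have h3 : ∀ k, (∀ a, k ≤ a → f a = 0) → ∑ a ∈ range k, f a = ∑ a ∈ range (max L m + k), f a := by
    intro k hk
    refine Finset.sum_subset (Finset.range_subset_range.2 (by omega)) fun a _ ha => ?_
    rw [Finset.mem_range, not_lt] at ha
    exact hk a ha
  have h4 : ∑ a ∈ range L, f a = ∑ a ∈ range (max L m), f a := by
    refine Finset.sum_subset (Finset.range_subset_range.2 (le_max_left _ _)) fun a _ ha => ?_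
    rw [Finset.mem_range, not_lt] at ha
    exact h1 a ha
  have h5 : ∑ a ∈ range m, f a = ∑ a ∈ range (max L m), f a := by
    refine Finset.sum_subset (Finset.range_subset_range.2 (le_max_right _ _)) fun a _ ha => ?_
    rw [Finset.mem_range, not_lt] at ha
    exact h2 a ha
  rw [h4, h5]

/-- from a bounded expansion to `Nw` -/
theorem Nw.of_bdd {F : ℕ → ℕ → ℤ} {L : ℕ} {g : ℕ → ℕ → ℤ} (hg : ∀ a b, L ≤ a ∨ L ≤ b → g a b = 0)
    (h : ∀ α β : ℕ, F α β = ∑ a ∈ range L, ∑ b ∈ range L, g a b * ((α.choose a : ℤ) * (β.choose b : ℤ))) :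
    Nw F g := by
  intro α β
  rw [h]
  rw [sum_pad (m := α + 1) (fun a => ∑ b ∈ range L, g a b * ((α.choose a : ℤ) * (β.choose b : ℤ)))]
  · refine Finset.sum_congr rfl fun a _ => ?_
    refine sum_pad _ (fun b hb => ?_) (fun b hb => ?_)
    · rw [hg a b (Or.inr hb), zero_mul]
    · rw [Nat.choose_eq_zero_of_lt (show β < b by omega), Nat.cast_zero, mul_zero, mul_zero]
  · intro a ha
    exact Finset.sum_eq_zero fun b _ => by rw [hg a b (Or.inl ha), zero_mul]
  · intro a ha
    exact Finset.sum_eq_zero fun b _ => by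
      rw [Nat.choose_eq_zero_of_lt (show α < a by omega), Nat.cast_zero, zero_mul, mul_zero]

/-- from `Nw` with small support to a bounded expansion -/
theorem Nw.to_bdd {F : ℕ → ℕ → ℤ} {k : ℕ} {g : ℕ → ℕ → ℤ} (hg : ∀ a b, k < a + b → g a b = 0)
    (h : Nw F g) (α β : ℕ) : F α β =
      ∑ a ∈ range (k + 1), ∑ b ∈ range (k + 1), g a b * ((α.choose a : ℤ) * (β.choose b : ℤ)) := by
  rw [h]
  rw [sum_pad (L := α + 1) (m := k + 1)
    (fun a => ∑ b ∈ range (β + 1), g a b * ((α.choose a : ℤ) * (β.choose b : ℤ)))]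
  · refine Finset.sum_congr rfl fun a _ => ?_
    refine sum_pad _ (fun b hb => ?_) (fun b hb => ?_)
    · rw [Nat.choose_eq_zero_of_lt (show β < b by omega), Nat.cast_zero, mul_zero, mul_zero]
    · rw [hg a b (by omega), zero_mul]
  · intro a ha
    exact Finset.sum_eq_zero fun b _ => by
      rw [Nat.choose_eq_zero_of_lt (show α < a by omega), Nat.cast_zero, zero_mul, mul_zero]
  · intro a ha
    exact Finset.sum_eq_zero fun b _ => by rw [hg a b (by omega), zero_mul]

/-- growth bounds the degree -/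
theorem growth {L : ℕ} {γ : ℕ → ℕ → ℕ} {C k : ℕ}
    (h : ∀ n : ℕ, ∑ a ∈ range L, ∑ b ∈ range L, γ a b * (n.choose a * n.choose b) ≤
      C * (n + n + 1) ^ k) {a b : ℕ} (ha : a < L) (hb : b < L) (hab : k < a + b) : γ a b = 0 := by
  by_contra h0
  have hpos : 1 ≤ γ a b := Nat.one_le_iff_ne_zero.2 h0
  have h1 : ∀ n : ℕ, n.choose a * n.choose b ≤ C * (n + n + 1) ^ k := by
    intro n
    refine le_trans ?_ (h n)
    have h2 : γ a b * (n.choose a * n.choose b) ≤
        ∑ b ∈ range L, γ a b * (n.choose a * n.choose b) :=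
      Finset.single_le_sum (f := fun b => γ a b * (n.choose a * n.choose b))
        (fun _ _ => Nat.zero_le _) (Finset.mem_range.2 hb)
    have h3 : ∑ b ∈ range L, γ a b * (n.choose a * n.choose b) ≤
        ∑ a ∈ range L, ∑ b ∈ range L, γ a b * (n.choose a * n.choose b) :=
      Finset.single_le_sum (f := fun a => ∑ b ∈ range L, γ a b * (n.choose a * n.choose b))
        (fun _ _ => Nat.zero_le _) (Finset.mem_range.2 ha)
    refine le_trans ?_ (h2.trans h3)
    exact Nat.le_mul_of_pos_left _ hpos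
  have h4 : ∀ m r : ℕ, ∀ n, m + r ≤ n → m ^ r ≤ r.factorial * n.choose r := by
    intro m r n hn
    have h5 : ((n + 1 - r : ℕ) ^ r : ℕ) ≤ r.factorial * n.choose r := by
      have := Nat.pow_sub_le_descFactorial n r
      rw [Nat.descFactorial_eq_factorial_mul_choose] at this
      exact this
    exact (Nat.pow_le_pow_left (by omega) r).trans h5
  obtain ⟨C1, hC1⟩ : ∃ C1, C1 = a.factorial * b.factorial * C * (2 * a + 2 * b + 3) ^ k := ⟨_, rfl⟩
  have h6 : ∀ m : ℕ, 1 ≤ m → m ^ (a + b) ≤ C1 * m ^ k := by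
    intro m hm
    have h7 := h4 m a (m + a + b) (by omega)
    have h8 := h4 m b (m + a + b) (by omega)
    have h9 := h1 (m + a + b)
    calc m ^ (a + b) = m ^ a * m ^ b := pow_add m a b
      _ ≤ (a.factorial * (m + a + b).choose a) * (b.factorial * (m + a + b).choose b) :=
        Nat.mul_le_mul h7 h8
      _ = a.factorial * b.factorial * ((m + a + b).choose a * (m + a + b).choose b) := by ring
      _ ≤ a.factorial * b.factorial * (C * ((m + a + b) + (m + a + b) + 1) ^ k) :=
        Nat.mul_le_mul_left _ h9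
      _ ≤ a.factorial * b.factorial * (C * (m * (2 * a + 2 * b + 3)) ^ k) := by
        apply Nat.mul_le_mul_left
        apply Nat.mul_le_mul_left
        apply Nat.pow_le_pow_left
        nlinarith
      _ = C1 * m ^ k := by rw [hC1, mul_pow]; ring
  have h10 := h6 (C1 + 1) (by omega)
  have h11 : (C1 + 1) ^ (k + 1) ≤ (C1 + 1) ^ (a + b) := Nat.pow_le_pow_right (by omega) (by omega)
  have h12 : (C1 + 1) ^ (k + 1) ≤ C1 * (C1 + 1) ^ k := h11.trans h10
  have h13 : 0 < (C1 + 1) ^ k := by positivity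
  rw [pow_succ, mul_comm] at h12
  have h14 := Nat.le_of_mul_le_mul_right h12 h13
  omega

/-! ### the sets -/

theorem box (k B : ℕ) : {x : E | (∀ j, k ≤ j → x j = 0) ∧ x.degree ≤ B}.Finite ∧
    {x : E | (∀ j, k ≤ j → x j = 0) ∧ x.degree ≤ B}.ncard ≤ (B + 1) ^ k := by
  let φ : E → (Fin k → Fin (B + 1)) := fun x i => ⟨min (x i) B, by omega⟩
  have hinj : Set.InjOn φ {x : E | (∀ j, k ≤ j → x j = 0) ∧ x.degree ≤ B} := by
    intro x hx y hy hxy
    ext j
    by_cases hj : k ≤ j
    · rw [hx.1 j hj, hy.1 j hj]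
    · have h1 := congrFun hxy ⟨j, by omega⟩
      have h2 : min (x j) B = min (y j) B := congrArg Fin.val h1
      rw [min_eq_left ((L06.coord_le_degree x j).trans hx.2),
        min_eq_left ((L06.coord_le_degree y j).trans hy.2)] at h2
      exact h2
  refine ⟨Set.Finite.of_injOn (fun x _ => Set.mem_univ _) hinj Set.finite_univ, ?_⟩
  have h := Set.ncard_le_ncard_of_injOn φ (t := Set.univ) (fun x _ => Set.mem_univ _) hinj
    Set.finite_univ
  rw [Set.ncard_univ, Nat.card_eq_fintype_card, Fintype.card_fun, Fintype.card_fin,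
    Fintype.card_fin] at h
  exact h

theorem ms_up (J K : Set E) (α β : ℕ) : IsUpperSet (ms J K α β) := by
  rintro x y hxy ⟨f, g, hf, hg, hx⟩
  exact ⟨f, g, hf, hg, hx.trans hxy⟩

/-- replacing one unit in a sum -/
theorem replace {G : Set E} (hS : SS G) {n : ℕ} (f : Fin n → E) (hf : ∀ i, f i ∈ G) {i j : ℕ}
    (hij : i < j) (hpos : (∑ l, f l) j ≠ 0) :
    ∃ (w : E) (f' : Fin n → E), (∀ l, f' l ∈ G) ∧ ∑ l, f l = w + Finsupp.single j 1 ∧
      ∑ l, f' l = w + Finsupp.single i 1 := by
  classical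
  rw [Finsupp.finsetSum_apply] at hpos
  obtain ⟨l, -, hl⟩ := Finset.exists_ne_zero_of_sum_ne_zero hpos
  obtain ⟨u, hu⟩ : ∃ u : E, f l = u + Finsupp.single j 1 := by
    refine ⟨f l - Finsupp.single j 1, ?_⟩
    rw [tsub_add_cancel_of_le]
    rw [Finsupp.single_le_iff]
    omega
  refine ⟨∑ m ∈ univ.erase l, f m + u, Function.update f l (u + Finsupp.single i 1), ?_, ?_, ?_⟩
  · intro m
    by_cases hm : m = l
    · subst hm
      rw [Function.update_self]
      exact hS u i j hij (hu ▸ hf m)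
    · rw [Function.update_of_ne hm]
      exact hf m
  · rw [← Finset.sum_erase_add _ _ (Finset.mem_univ l), hu, add_assoc]
  · rw [← Finset.sum_erase_add _ _ (Finset.mem_univ l), Function.update_self]
    rw [Finset.sum_congr rfl fun m hm => Function.update_of_ne (Finset.ne_of_mem_erase hm) _ _,
      add_assoc]

theorem ms_ss {J K : Set E} (hJ : SS J) (hK : SS K) (α β : ℕ) : SS (ms J K α β) := by
  classical
  rintro y i j hij ⟨f, g, hf, hg, hx⟩
  by_cases h1 : ∑ i, f i + ∑ i, g i ≤ y
  · exact ⟨f, g, hf, hg, h1.trans (le_add_of_nonneg_right zero_le)⟩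
  · have h2 : (∑ i, f i) j ≠ 0 ∨ (∑ i, g i) j ≠ 0 := by
      by_contra hcon
      push Not at hcon
      apply h1
      intro m
      by_cases hm : m = j
      · subst hm
        rw [Finsupp.add_apply, hcon.1, hcon.2]
        exact Nat.zero_le _
      · have h3 := hx m
        rw [Finsupp.add_apply y, Finsupp.single_apply, if_neg (Ne.symm hm), add_zero] at h3
        exact h3
    rcases h2 with h2 | h2
    · obtain ⟨w, f', hf', e1, e2⟩ := replace hJ f hf hij h2
      refine ⟨f', g, hf', hg, ?_⟩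
      rw [e2]
      rw [e1] at hx
      have h4 : w + ∑ i, g i + Finsupp.single j 1 ≤ y + Finsupp.single j 1 := by
        have : w + ∑ i, g i + Finsupp.single j 1 = w + Finsupp.single j 1 + ∑ i, g i := by abel
        rw [this]
        exact hx
      have h5 := le_of_add_le_add_right h4
      have : w + Finsupp.single i 1 + ∑ i, g i = w + ∑ i, g i + Finsupp.single i 1 := by abel
      rw [this]
      gcongr
    · obtain ⟨w, g', hg', e1, e2⟩ := replace hK g hg hij h2
      refine ⟨f, g', hf, hg', ?_⟩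
      rw [e2]
      rw [e1] at hx
      have h4 : ∑ i, f i + w + Finsupp.single j 1 ≤ y + Finsupp.single j 1 := by
        rw [add_assoc]
        exact hx
      have h5 := le_of_add_le_add_right h4
      rw [← add_assoc]
      gcongr

/-- the truncated sums -/
def TT (k M : ℕ) (J K : Set E) (α β : ℕ) : Set E :=
  {x : E | (∀ j, k ≤ j → x j = 0) ∧ x ∈ ms J K α β ∧ x.degree ≤ (α + β) * M}

/-- the difference sets -/
def DD (k : ℕ) (J K : Set E) (p q : ℕ) : Set E :=
  {x : E | (∀ j, k ≤ j → x j = 0) ∧ x ∈ ms J K p q ∧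
    ¬ (1 ≤ p ∧ x ∈ dl (ms J K (p - 1) (q + 1)))}

theorem TT_fin (k M : ℕ) (J K : Set E) (α β : ℕ) : (TT k M J K α β).Finite :=
  (box k ((α + β) * M)).1.subset fun x hx => ⟨hx.1, hx.2.2⟩

theorem relA {d k M : ℕ} {J K : Set E} (hk : k ≤ d)
    (hM : ∀ α β : ℕ, ∀ x : E, (∀ j, d ≤ j → x j = 0) → (α + β) * M ≤ x.degree → x ∈ ms J K α β)
    (α β : ℕ) :
    hh k J K α β + (TT k M J K α β).ncard = (TT k M Set.univ Set.univ α β).ncard := by
  have h1 : TT k M Set.univ Set.univ α β = co k (ms J K α β) ∪ TT k M J K α β := by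
    ext x
    constructor
    · rintro ⟨hx, -, hd⟩
      by_cases h : x ∈ ms J K α β
      · exact Or.inr ⟨hx, h, hd⟩
      · exact Or.inl ⟨hx, h⟩
    · have huniv : x ∈ ms Set.univ Set.univ α β := by
        rw [ms_of_zero (Set.mem_univ _) (Set.mem_univ _)]
        exact Set.mem_univ _
      rintro (⟨hx, h⟩ | ⟨hx, -, hd⟩)
      · refine ⟨hx, huniv, ?_⟩
        by_contra hcon
        push Not at hcon
        exact h (hM α β x (fun j hj => hx j (hk.trans hj)) hcon.le)
      · exact ⟨hx, huniv, hd⟩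
  have h2 : Disjoint (co k (ms J K α β)) (TT k M J K α β) := by
    rw [Set.disjoint_iff]
    rintro x ⟨⟨-, h⟩, ⟨-, h', -⟩⟩
    exact h h'
  have h3 : (co k (ms J K α β)).Finite := by
    refine (TT_fin k M Set.univ Set.univ α β).subset ?_
    rw [h1]
    exact Set.subset_union_left
  rw [h1, Set.ncard_union_eq h2 h3 (TT_fin k M J K α β)]
  rfl

theorem not_mem_ms {J K : Set E} (h0 : (0 : E) ∉ J) {α β : ℕ} (hα : 1 ≤ α) : (0 : E) ∉ ms J K α β := by
  rintro ⟨f, g, hf, hg, hx⟩
  apply h0
  have h2 : f ⟨0, hα⟩ ≤ 0 := by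
    refine le_trans ?_ hx
    refine le_trans ?_ (le_add_of_nonneg_right zero_le)
    exact Finset.single_le_sum (f := f) (fun _ _ => zero_le) (Finset.mem_univ _)
  have h3 : f ⟨0, hα⟩ = 0 := le_antisymm h2 zero_le
  rw [← h3]
  exact hf _

theorem relD (hgreedy : S_GREEDY) {d k : ℕ} {J K : Set E} (h : IsPair d J K) (hk : k ≤ d)
    (hfin : ∀ k α β : ℕ, k ≤ d → (co k (ms J K α β)).Finite) {α : ℕ} (hα : 1 ≤ α) (β : ℕ) :
    (DD k J K (α + 1) β).ncard + hh k J K (α + 1) β = ∑ i ∈ range (k + 1), hh i J K α (β + 1) := by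
  have h1 := hgreedy (ms J K α (β + 1)) k (ms_up J K α (β + 1)) (ms_ss h.ssJ h.ssK α (β + 1))
    (not_mem_ms h.zero hα) (hfin k α (β + 1) hk)
  have h2 : co k (dl (ms J K α (β + 1))) = DD k J K (α + 1) β ∪ co k (ms J K (α + 1) β) := by
    ext x
    constructor
    · rintro ⟨hx, h'⟩
      by_cases h3 : x ∈ ms J K (α + 1) β
      · refine Or.inl ⟨hx, h3, ?_⟩
        rintro ⟨-, h4⟩
        rw [Nat.add_sub_cancel] at h4
        exact h' h4
      · exact Or.inr ⟨hx, h3⟩
    · rintro (⟨hx, h3, h4⟩ | ⟨hx, h3⟩)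
      · refine ⟨hx, fun h5 => h4 ⟨by omega, ?_⟩⟩
        rw [Nat.add_sub_cancel]
        exact h5
      · refine ⟨hx, fun h5 => h3 ?_⟩
        obtain ⟨y, ⟨f, g, hf, hg, hy⟩, i, hi⟩ := h5
        have hid : i < d := by
          by_contra hcon
          push Not at hcon
          have h6 := hi i
          rw [hx i (hk.trans hcon), Finsupp.add_apply, Finsupp.single_eq_same] at h6
          omega
        refine ⟨Fin.snoc (α := fun _ => E) f (g (Fin.last β) + Finsupp.single i 1),
          fun l => g (Fin.castSucc l), ?_, fun l => hg _, ?_⟩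
        · intro l
          refine Fin.lastCases ?_ (fun l => ?_) l
          · rw [Fin.snoc_last]
            exact h.del _ (hg _) i hid
          · rw [Fin.snoc_castSucc]
            exact hf l
        · rw [Fin.sum_univ_castSucc]
          simp only [Fin.snoc_last, Fin.snoc_castSucc]
          refine le_trans ?_ hi
          rw [Fin.sum_univ_castSucc] at hy
          have : ∑ l, f l + (g (Fin.last β) + Finsupp.single i 1) + ∑ l : Fin β, g (Fin.castSucc l) =
              ∑ l, f l + (∑ l : Fin β, g (Fin.castSucc l) + g (Fin.last β)) + Finsupp.single i 1 := by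
            abel
          rw [this]
          gcongr
  have h3 : Disjoint (DD k J K (α + 1) β) (co k (ms J K (α + 1) β)) := by
    rw [Set.disjoint_iff]
    rintro x ⟨⟨-, h', -⟩, ⟨-, h⟩⟩
    exact h h'
  have h5 : (co k (dl (ms J K α (β + 1)))).Finite := by
    -- contained in a finite set: shift down or zero
    have hsub : co k (dl (ms J K α (β + 1))) ⊆
        {0} ∪ ⋃ j ∈ range k, (fun x : E => x + Finsupp.single j 1) '' co k (ms J K α (β + 1)) := by
      rintro x ⟨hx, h'⟩
      by_cases hx0 : x = 0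
      · exact Or.inl hx0
      · obtain ⟨j, hj⟩ : ∃ j, x j ≠ 0 := by
          by_contra hcon
          push Not at hcon
          exact hx0 (Finsupp.ext hcon)
        have hjk : j < k := by
          by_contra hcon
          push Not at hcon
          exact hj (hx j hcon)
        right
        simp only [Set.mem_iUnion, Finset.mem_range]
        have hle : Finsupp.single j 1 ≤ x := by
          rw [Finsupp.single_le_iff]
          omega
        refine ⟨j, hjk, x - Finsupp.single j 1, ⟨fun m hm => ?_, fun h6 => h' ?_⟩, ?_⟩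
        · rw [Finsupp.tsub_apply, hx m hm, Nat.zero_sub]
        · exact ⟨_, h6, j, by rw [tsub_add_cancel_of_le hle]⟩
        · exact tsub_add_cancel_of_le hle
    refine Set.Finite.subset ?_ hsub
    refine (Set.finite_singleton 0).union ?_
    exact Set.Finite.biUnion (Finset.finite_toSet _) fun j _ => (hfin k α (β + 1) hk).image _
  have h6 : (DD k J K (α + 1) β).Finite := h5.subset (by rw [h2]; exact Set.subset_union_left)
  rw [h2, Set.ncard_union_eq h3 h6 (hfin k (α + 1) β hk)] at h1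
  exact h1

theorem newt_of (hT : S_T) (hD : S_D) (hgreedy : S_GREEDY) (hgrow : S_GROW) : S_NEWT := by
  classical
  intro d J K h
  obtain ⟨M, hM1, hM2, hM3⟩ := hgrow d J K h.upJ h.upK h.fin h.finK
  -- a common N
  have hNT : ∀ k, ∃ N₀, k ≤ d → ∀ N, N₀ ≤ N → ∃ (L : ℕ) (γ : ℕ → ℕ → ℕ), ∀ α β : ℕ,
      (TT k M J K (N + α) (N + β)).ncard =
        ∑ a ∈ range L, ∑ b ∈ range L, γ a b * (α.choose a * β.choose b) := by
    intro k
    by_cases hk : k ≤ d
    · obtain ⟨N₀, hN₀⟩ := hT d k M J K h.upJ h.upK hM1 hk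
      exact ⟨N₀, fun _ => hN₀⟩
    · exact ⟨0, fun h' => absurd h' hk⟩
  have hNA : ∀ k, ∃ N₀, k ≤ d → ∀ N, N₀ ≤ N → ∃ (L : ℕ) (γ : ℕ → ℕ → ℕ), ∀ α β : ℕ,
      (TT k M Set.univ Set.univ (N + α) (N + β)).ncard =
        ∑ a ∈ range L, ∑ b ∈ range L, γ a b * (α.choose a * β.choose b) := by
    intro k
    by_cases hk : k ≤ d
    · obtain ⟨N₀, hN₀⟩ := hT d k M Set.univ Set.univ isUpperSet_univ isUpperSet_univ
        (fun x _ _ => ⟨Set.mem_univ _, Set.mem_univ _⟩) hk
      exact ⟨N₀, fun _ => hN₀⟩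
    · exact ⟨0, fun h' => absurd h' hk⟩
  have hND : ∀ k, ∃ N₀, k ≤ d → ∀ N, N₀ ≤ N → ∃ (L : ℕ) (γ : ℕ → ℕ → ℕ), ∀ α β : ℕ,
      (DD k J K (N + α) (N + β)).ncard =
        ∑ a ∈ range L, ∑ b ∈ range L, γ a b * (α.choose a * β.choose b) := by
    intro k
    by_cases hk : k ≤ d
    · obtain ⟨N₀, hN₀⟩ := hD d k J K h hk
      exact ⟨N₀, fun _ => hN₀⟩
    · exact ⟨0, fun h' => absurd h' hk⟩
  choose nT hnT using hNT
  choose nA hnA using hNA
  choose nD hnD using hND
  obtain ⟨N, hN⟩ : ∃ N, N = 1 + ∑ k ∈ range (d + 1), (nT k + nA k + nD k) := ⟨_, rfl⟩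
  have hNk : ∀ k, k ≤ d → nT k ≤ N ∧ nA k ≤ N ∧ nD k ≤ N := by
    intro k hk
    have h1 : nT k + nA k + nD k ≤ ∑ k ∈ range (d + 1), (nT k + nA k + nD k) :=
      Finset.single_le_sum (f := fun k => nT k + nA k + nD k) (fun _ _ => Nat.zero_le _)
        (Finset.mem_range.2 (by omega))
    omega
  have hN1 : 1 ≤ N := by omega
  -- Newton coefficients for the natural expansions
  have conv : ∀ (F : ℕ → ℕ → ℕ) (L : ℕ) (γ : ℕ → ℕ → ℕ), (∀ α β : ℕ, F α β =
      ∑ a ∈ range L, ∑ b ∈ range L, γ a b * (α.choose a * β.choose b)) →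
      Nw (fun α β => (F α β : ℤ)) (fun a b => if a < L ∧ b < L then (γ a b : ℤ) else 0) := by
    intro F L γ hF
    refine Nw.of_bdd (L := L) (fun a b hab => ?_) fun α β => ?_
    · rw [if_neg]
      omega
    · beta_reduce
      rw [hF α β]
      push_cast
      refine Finset.sum_congr rfl fun a ha => Finset.sum_congr rfl fun b hb => ?_
      rw [Finset.mem_range] at ha hb
      rw [if_pos ⟨ha, hb⟩]
  have hexp : ∀ k, ∃ (gA gT gD : ℕ → ℕ → ℤ), k ≤ d →
      Nw (fun α β => ((TT k M Set.univ Set.univ (N + α) (N + β)).ncard : ℤ)) gA ∧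
      Nw (fun α β => ((TT k M J K (N + α) (N + β)).ncard : ℤ)) gT ∧
      Nw (fun α β => ((DD k J K (N + α) (N + β)).ncard : ℤ)) gD ∧
      (∀ a b, k < a + b → gA a b = 0) ∧ (∀ a b, k < a + b → gT a b = 0) ∧
      (∀ a b, 0 ≤ gD a b) := by
    intro k
    by_cases hk : k ≤ d
    · obtain ⟨h1, h2, h3⟩ := hNk k hk
      obtain ⟨LT, γT, hγT⟩ := hnT k hk N h1
      obtain ⟨LA, γA, hγA⟩ := hnA k hk N h2
      obtain ⟨LD, γD, hγD⟩ := hnD k hk N h3
      have hbA : ∀ n : ℕ, (TT k M Set.univ Set.univ (N + n) (N + n)).ncard ≤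
          (2 * N * M + M + 1) ^ k * (n + n + 1) ^ k := by
        intro n
        have hsub : TT k M Set.univ Set.univ (N + n) (N + n) ⊆
            {x : E | (∀ j, k ≤ j → x j = 0) ∧ x.degree ≤ (N + n + (N + n)) * M} :=
          fun x hx => ⟨hx.1, hx.2.2⟩
        refine (Set.ncard_le_ncard hsub (box k _).1).trans
          ((box k ((N + n + (N + n)) * M)).2.trans ?_)
        rw [← mul_pow]
        apply Nat.pow_le_pow_left
        nlinarith [Nat.zero_le (N * M * n), Nat.zero_le (M * n), Nat.zero_le (n)]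
      have hbT : ∀ n : ℕ, (TT k M J K (N + n) (N + n)).ncard ≤
          (2 * N * M + M + 1) ^ k * (n + n + 1) ^ k := by
        intro n
        refine le_trans ?_ (hbA n)
        have := relA hk hM2 (N + n) (N + n)
        omega
      refine ⟨fun a b => if a < LA ∧ b < LA then (γA a b : ℤ) else 0,
        fun a b => if a < LT ∧ b < LT then (γT a b : ℤ) else 0,
        fun a b => if a < LD ∧ b < LD then (γD a b : ℤ) else 0,
        fun _ => ⟨conv _ LA γA hγA, conv _ LT γT hγT, conv _ LD γD hγD, ?_, ?_, ?_⟩⟩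
      · intro a b hab
        beta_reduce
        split_ifs with hL
        · have := growth (γ := γA) (L := LA) (C := (2 * N * M + M + 1) ^ k) (k := k)
            (fun n => by rw [← hγA n n]; exact hbA n) hL.1 hL.2 hab
          rw [this, Nat.cast_zero]
        · rfl
      · intro a b hab
        beta_reduce
        split_ifs with hL
        · have := growth (γ := γT) (L := LT) (C := (2 * N * M + M + 1) ^ k) (k := k)
            (fun n => by rw [← hγT n n]; exact hbT n) hL.1 hL.2 hab
          rw [this, Nat.cast_zero]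
        · rfl
      · intro a b
        beta_reduce
        split_ifs
        · exact Nat.cast_nonneg _
        · exact le_rfl
    · exact ⟨fun _ _ => 0, fun _ _ => 0, fun _ _ => 0, fun h' => absurd h' hk⟩
  choose gA gT gD hg using hexp
  obtain ⟨γ, hγ⟩ : ∃ γ : ℕ → ℕ → ℕ → ℤ, γ = fun k a b => if k < a + b then 0 else gA k a b - gT k a b :=
    ⟨_, rfl⟩
  have hγ0 : ∀ k a b, k < a + b → γ k a b = 0 := by
    intro k a b hab
    rw [hγ]
    exact if_pos hab
  have hγN : ∀ k, k ≤ d → Nw (fun α β => (hh k J K (N + α) (N + β) : ℤ)) (γ k) := by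
    intro k hk
    obtain ⟨h1, h2, -, h4, h5, -⟩ := hg k hk
    have h6 := h1.sub h2
    have h7 : γ k = fun a b => gA k a b - gT k a b := by
      funext a b
      rw [hγ]
      beta_reduce
      split_ifs with hab
      · rw [h4 a b hab, h5 a b hab, sub_zero]
      · rfl
    rw [h7]
    intro α β
    have h8 := h6 α β
    beta_reduce at h8 ⊢
    rw [← h8]
    have h9 := relA hk hM2 (N + α) (N + β)
    have h10 : (hh k J K (N + α) (N + β) : ℤ) + ((TT k M J K (N + α) (N + β)).ncard : ℤ) =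
      ((TT k M Set.univ Set.univ (N + α) (N + β)).ncard : ℤ) := by exact_mod_cast h9
    linarith
  refine ⟨N, γ, hγ0, ?_, ?_, ?_⟩
  · intro k hk α β
    exact (hγN k hk).to_bdd (hγ0 k) α β
  · intro k a b hk hab
    obtain ⟨-, -, h3, -, -, h6⟩ := hg k hk
    -- the relation
    have hrel : ∀ α β : ℕ, ((DD k J K (N + (α + 1)) (N + β)).ncard : ℤ) =
        ∑ i ∈ range (k + 1), (hh i J K (N + α) (N + (β + 1)) : ℤ) -
          (hh k J K (N + (α + 1)) (N + β) : ℤ) := by
      intro α β
      have h7 := relD hgreedy h hk (fun k α β hk => (hM3 k α β hk).1) (α := N + α) (by omega) (N + β)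
      have h8 : ((DD k J K (N + α + 1) (N + β)).ncard : ℤ) + (hh k J K (N + α + 1) (N + β) : ℤ) =
          ∑ i ∈ range (k + 1), (hh i J K (N + α) (N + β + 1) : ℤ) := by exact_mod_cast h7
      have e1 : N + (α + 1) = N + α + 1 := by ring
      have e2 : N + (β + 1) = N + β + 1 := by ring
      rw [e1, e2]
      linarith
    have hL := h3.shift1
    have hR1 : Nw (fun α β => ∑ i ∈ range (k + 1), (hh i J K (N + α) (N + (β + 1)) : ℤ))
        (fun a b => ∑ i ∈ range (k + 1), (γ i a b + γ i a (b + 1))) :=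
      Nw.sum (F := fun i α β => (hh i J K (N + α) (N + (β + 1)) : ℤ))
        (g := fun i a b => γ i a b + γ i a (b + 1)) (range (k + 1)) fun i hi =>
        (hγN i (by rw [Finset.mem_range] at hi; omega)).shift2
    have hR := hR1.sub (hγN k hk).shift1
    have hR' : Nw (fun α β => ((DD k J K (N + (α + 1)) (N + β)).ncard : ℤ))
        (fun a b => ∑ i ∈ range (k + 1), (γ i a b + γ i a (b + 1)) - (γ k a b + γ k (a + 1) b)) := by
      intro α β
      have h7 := hR α β
      beta_reduce at h7 ⊢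
      rw [hrel α β]
      exact h7
    have h8 := hL.uniq hR' a b
    beta_reduce at h8
    have h9 : ∑ i ∈ range (k + 1), (γ i a b + γ i a (b + 1)) =
        γ (k - 1) a b + (γ k a b + γ k a (b + 1)) := by
      rw [Finset.sum_range_succ]
      congr 1
      have hk1 : k = (k - 1) + 1 := by omega
      rw [hk1, Finset.sum_range_succ, Nat.add_sub_cancel]
      rw [Finset.sum_eq_zero]
      · rw [hγ0 (k - 1) a (b + 1) (by omega)]
        ring
      · intro i hi
        rw [Finset.mem_range] at hi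
        rw [hγ0 i a b (by omega), hγ0 i a (b + 1) (by omega), add_zero]
    rw [h9] at h8
    have h10 := h6 a b
    have h11 := h6 (a + 1) b
    linarith
  · have h1 := (hγN 0 (Nat.zero_le d)) 0 0
    simp only [add_zero, zero_add, Finset.sum_range_one, Nat.choose_self, Nat.cast_one, mul_one] at h1
    rw [← h1]
    have h2 : co 0 (ms J K N N) = {0} := by
      ext x
      constructor
      · rintro ⟨hx, -⟩
        rw [Set.mem_singleton_iff]
        ext j
        exact hx j (Nat.zero_le j)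
      · intro hx
        rw [Set.mem_singleton_iff] at hx
        subst hx
        exact ⟨fun j _ => rfl, not_mem_ms h.zero hN1⟩
    unfold hh
    rw [h2, Set.ncard_singleton, Nat.cast_one]

end Pool.Agent.H195L
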