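import Pool.Agent.H195_lech.Main

/-!
# Stirling refinement of Lech's inequality (MP_eae75b_ag): the pair lemma from Newton expansions
-/

set_option autoImplicit false

namespace Pool.Agent.H195L

open Finset Filter Topology
open scoped BigOperators

theorem co_subset {k : ℕ} {A B : Set E} (h : ∀ x : E, (∀ j, k ≤ j → x j = 0) → x ∈ A → x ∈ B) :
    co k B ⊆ co k A := fun x hx => ⟨hx.1, fun h' => hx.2 (h x hx.1 h')⟩

theorem ms_drop {J K : Set E} {α β : ℕ} {x : E} (h : x ∈ ms J K α β) : x ∈ ms J J α 0 := by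
  obtain ⟨f, g, hf, hg, hx⟩ := h
  refine ⟨f, fun i => i.elim0, hf, fun i => i.elim0, ?_⟩
  rw [Fin.sum_univ_zero, add_zero]
  exact (le_add_of_nonneg_right zero_le).trans hx

theorem ms_dropK {J K : Set E} {α β : ℕ} {x : E} (h : x ∈ ms J K α β) : x ∈ ms K K β 0 := by
  obtain ⟨f, g, hf, hg, hx⟩ := h
  refine ⟨g, fun i => i.elim0, hg, fun i => i.elim0, ?_⟩
  rw [Fin.sum_univ_zero, add_zero]
  exact (le_add_of_nonneg_left zero_le).trans hx

theorem ms_split {J K : Set E} (hJK : J ⊆ K) {α β : ℕ} {x : E} (h : x ∈ ms J J (α + β) 0) :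
    x ∈ ms J K α β := by
  obtain ⟨f, g, hf, hg, hx⟩ := h
  refine ⟨fun i => f (Fin.castAdd β i), fun i => f (Fin.natAdd α i), fun i => hf _,
    fun i => hJK (hf _), ?_⟩
  rw [← Fin.sum_univ_add f]
  exact (le_add_of_nonneg_right zero_le).trans hx

theorem ms_toK {K J : Set E} {β : ℕ} {x : E} (h : x ∈ ms K K β 0) : x ∈ ms J K 0 β := by
  obtain ⟨f, g, hf, hg, hx⟩ := h
  refine ⟨fun i => i.elim0, f, fun i => i.elim0, hf, ?_⟩
  rw [Fin.sum_univ_zero, zero_add]
  exact (le_add_of_nonneg_right zero_le).trans hx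

theorem ms_step {d : ℕ} {J K : Set E} (h : IsPair d J K) (h0 : (0 : E) ∉ K) {α β : ℕ} {x : E}
    (hx0 : ∀ j, d ≤ j → x j = 0) (hx : x ∈ ms J K α (β + 2)) : x ∈ ms J K (α + 1) β := by
  obtain ⟨f, g, hf, hg, hx⟩ := hx
  obtain ⟨u, hu⟩ : ∃ u, u = g (Fin.last (β + 1)) := ⟨_, rfl⟩
  obtain ⟨v, hv⟩ : ∃ v, v = g (Fin.castSucc (Fin.last β)) := ⟨_, rfl⟩
  have hsum : ∑ i, g i = ∑ i : Fin β, g (Fin.castSucc (Fin.castSucc i)) + v + u := by
    rw [Fin.sum_univ_castSucc, Fin.sum_univ_castSucc, hu, hv]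
  have hu0 : u ≠ 0 := fun h' => h0 (h' ▸ hu ▸ hg _)
  obtain ⟨i, hi⟩ : ∃ i, u i ≠ 0 := by
    by_contra hcon
    push Not at hcon
    exact hu0 (Finsupp.ext hcon)
  have hux : u ≤ x := by
    refine le_trans ?_ hx
    rw [hsum]
    refine le_trans ?_ (le_add_of_nonneg_left zero_le)
    exact le_add_of_nonneg_left zero_le
  have hid : i < d := by
    by_contra hcon
    push Not at hcon
    have h1 := hux i
    rw [hx0 i hcon] at h1
    omega
  have hsi : Finsupp.single i 1 ≤ u := by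
    rw [Finsupp.single_le_iff]
    omega
  refine ⟨Fin.snoc (α := fun _ => E) f (v + Finsupp.single i 1),
    fun i => g (Fin.castSucc (Fin.castSucc i)), ?_, fun i => hg _, ?_⟩
  · intro j
    refine Fin.lastCases ?_ (fun j => ?_) j
    · rw [Fin.snoc_last]
      exact h.del v (hv ▸ hg _) i hid
    · rw [Fin.snoc_castSucc]
      exact hf j
  · rw [Fin.sum_univ_castSucc]
    simp only [Fin.snoc_last, Fin.snoc_castSucc]
    refine le_trans ?_ hx
    rw [hsum]
    have : ∑ i, f i + (v + Finsupp.single i 1) + ∑ i : Fin β, g (Fin.castSucc (Fin.castSucc i)) =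
        ∑ i, f i + (∑ i : Fin β, g (Fin.castSucc (Fin.castSucc i)) + v + Finsupp.single i 1) := by
      abel
    rw [this]
    gcongr

theorem ms_steps {d : ℕ} {J K : Set E} (h : IsPair d J K) (h0 : (0 : E) ∉ K) {x : E}
    (hx0 : ∀ j, d ≤ j → x j = 0) (N : ℕ) : ∀ α β : ℕ, x ∈ ms J K α (β + 2 * N) →
      x ∈ ms J K (α + N) β := by
  induction N with
  | zero => intro α β hx; simpa using hx
  | succ N ih =>
    intro α β hx
    have h1 : x ∈ ms J K α (β + 2 * N + 2) := by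
      have : β + 2 * N + 2 = β + 2 * (N + 1) := by ring
      rw [this]
      exact hx
    have h2 := ih (α + 1) β (ms_step h h0 hx0 h1)
    have : α + 1 + N = α + (N + 1) := by ring
    rw [this] at h2
    exact h2

theorem ms_zeroK {J K : Set E} (h0 : (0 : E) ∈ K) (α β : ℕ) : ms J K α β = ms J K α 0 := by
  ext x
  constructor
  · rintro ⟨f, g, hf, hg, hx⟩
    refine ⟨f, fun i => i.elim0, hf, fun i => i.elim0, ?_⟩
    rw [Fin.sum_univ_zero, add_zero]
    exact (le_add_of_nonneg_right zero_le).trans hx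
  · rintro ⟨f, g, hf, hg, hx⟩
    refine ⟨f, fun _ => 0, hf, fun _ => h0, ?_⟩
    rw [Finset.sum_const_zero, add_zero]
    exact (le_add_of_nonneg_right zero_le).trans hx

/-- sandwich -/
theorem sandwich (k m : ℕ) (u v : ℕ → ℕ) (L : ℝ)
    (hv : Tendsto (fun n : ℕ => (k.factorial : ℝ) * (v n : ℝ) / (n : ℝ) ^ k) atTop (𝓝 L))
    (h1 : ∀ n, u n ≤ v n) (h2 : ∀ n, v n ≤ u (n + m)) :
    Tendsto (fun n : ℕ => (k.factorial : ℝ) * (u n : ℝ) / (n : ℝ) ^ k) atTop (𝓝 L) := by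
  rw [← tendsto_add_atTop_iff_nat (f := fun n : ℕ => (k.factorial : ℝ) * (u n : ℝ) / (n : ℝ) ^ k) m]
  have hup : Tendsto (fun n : ℕ => (k.factorial : ℝ) * (v (n + m) : ℝ) / ((n + m : ℕ) : ℝ) ^ k) atTop
      (𝓝 L) :=
    (tendsto_add_atTop_iff_nat (f := fun n : ℕ => (k.factorial : ℝ) * (v n : ℝ) / (n : ℝ) ^ k) m).2 hv
  have hr : Tendsto (fun N : ℕ => ((N : ℝ) / ((N + m : ℕ) : ℝ)) ^ k) atTop (𝓝 (1 ^ k)) := by
    apply Tendsto.pow
    have h3 : Tendsto (fun N : ℕ => (1 + (m : ℝ) / (N : ℝ))⁻¹) atTop (𝓝 ((1 + 0 : ℝ)⁻¹)) := by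
      apply Tendsto.inv₀
      · exact tendsto_const_nhds.add (tendsto_const_div_atTop_nhds_zero_nat (m : ℝ))
      · norm_num
    rw [add_zero, inv_one] at h3
    refine h3.congr' ?_
    filter_upwards [eventually_gt_atTop 0] with N hN
    have : (N : ℝ) ≠ 0 := by exact_mod_cast hN.ne'
    have h6 : ((N + m : ℕ) : ℝ) ≠ 0 := by
      have : 0 < N + m := by omega
      exact_mod_cast this.ne'
    push_cast at h6 ⊢
    field_simp
  have hlow : Tendsto (fun n : ℕ => (k.factorial : ℝ) * (v n : ℝ) / ((n + m : ℕ) : ℝ) ^ k) atTop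
      (𝓝 L) := by
    have h4 := hv.mul hr
    rw [one_pow, mul_one] at h4
    refine h4.congr' ?_
    filter_upwards [eventually_gt_atTop 0] with N hN
    have h5 : (N : ℝ) ≠ 0 := by exact_mod_cast hN.ne'
    have h6 : ((N + m : ℕ) : ℝ) ≠ 0 := by
      have : 0 < N + m := by omega
      exact_mod_cast this.ne'
    rw [div_pow]
    field_simp
  refine tendsto_of_tendsto_of_tendsto_of_le_of_le hlow hup ?_ ?_
  · intro n
    have : (v n : ℝ) ≤ (u (n + m) : ℝ) := by exact_mod_cast h2 n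
    show (k.factorial : ℝ) * (v n : ℝ) / ((n + m : ℕ) : ℝ) ^ k ≤
      (k.factorial : ℝ) * (u (n + m) : ℝ) / ((n + m : ℕ) : ℝ) ^ k
    gcongr
  · intro n
    have : (u (n + m) : ℝ) ≤ (v (n + m) : ℝ) := by exact_mod_cast h1 (n + m)
    show (k.factorial : ℝ) * (u (n + m) : ℝ) / ((n + m : ℕ) : ℝ) ^ k ≤
      (k.factorial : ℝ) * (v (n + m) : ℝ) / ((n + m : ℕ) : ℝ) ^ k
    gcongr

theorem IsPair.finK {d : ℕ} {J K : Set E} (h : IsPair d J K) : (co d K).Finite :=
  h.fin.subset (co_subset fun _ _ hx => h.sub hx)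

theorem pair_of (hnewt : S_NEWT) (h1 : S_ASY1) (h2 : S_ASY2) (hgrow : S_GROW) : S_PAIR := by
  intro d J K h
  obtain ⟨N, γ, hγ0, hγ1, hγ2, hγ3⟩ := hnewt d J K h
  obtain ⟨M, -, -, hM⟩ := hgrow d J K h.upJ h.upK h.fin h.finK
  obtain ⟨MJ, -, -, hMJ⟩ := hgrow d J J h.upJ h.upJ h.fin h.fin
  obtain ⟨MK, -, -, hMK⟩ := hgrow d K K h.upK h.upK h.finK h.finK
  refine ⟨fun a b => (γ (a + b) a b : ℝ), ?_, ?_, ?_, ?_⟩
  · intro a b hab
    have h3 := hγ2 (a + b + 1) a b hab rfl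
    have e1 : a + (b + 1) = a + b + 1 := by ring
    have e2 : a + 1 + b = a + b + 1 := by ring
    beta_reduce
    rw [e1, e2]
    rw [Nat.add_sub_cancel] at h3
    exact_mod_cast h3
  · intro k hk
    show IsMu k J (γ (k + 0) k 0 : ℝ)
    rw [add_zero]
    obtain ⟨h3, -⟩ := h2 k N (hh k J K) (γ k) (fun a b hab => hγ0 k a b hab) (hγ1 k hk)
    refine sandwich k N (fun n => hh k J J n 0) (fun n => hh k J K n N) _ h3 ?_ ?_
    · intro n
      exact Set.ncard_le_ncard (co_subset fun x _ hx => ms_drop hx) (hM k n N hk).1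
    · intro n
      exact Set.ncard_le_ncard (co_subset fun x _ hx => ms_split h.sub hx) (hMJ k (n + N) 0 hk).1
  · intro k hk1 hk
    show IsMu k K (γ (0 + k) 0 k : ℝ)
    rw [zero_add]
    obtain ⟨-, h3⟩ := h2 k N (hh k J K) (γ k) (fun a b hab => hγ0 k a b hab) (hγ1 k hk)
    by_cases h0 : (0 : E) ∈ K
    · have h4 : ∀ n, hh k J K N n = hh k J K N 0 := by
        intro n
        unfold hh
        rw [ms_zeroK h0 N n]
      simp only [h4] at h3
      have h5 : Tendsto (fun n : ℕ => (k.factorial : ℝ) * (hh k J K N 0 : ℝ) / (n : ℝ) ^ k) atTop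
          (𝓝 0) := by
        apply Tendsto.div_atTop tendsto_const_nhds
        exact (tendsto_pow_atTop (by omega)).comp tendsto_natCast_atTop_atTop
      rw [tendsto_nhds_unique h3 h5]
      exact isMu_of_zero h0 k
    · refine sandwich k (2 * N) (fun n => hh k K K n 0) (fun n => hh k J K N n) _ h3 ?_ ?_
      · intro n
        exact Set.ncard_le_ncard (co_subset fun x _ hx => ms_dropK hx) (hM k N n hk).1
      · intro n
        refine Set.ncard_le_ncard (co_subset fun x hx0 hx => ?_) (hMK k (n + 2 * N) 0 hk).1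
        have h4 := ms_steps h h0 (fun j hj => hx0 j (hk.trans hj)) N 0 n (ms_toK hx)
        rw [zero_add] at h4
        exact h4
  · have h3 := h1 d N ((M + 1) ^ d) (hh d J K) (γ d) (fun a b hab => hγ0 d a b hab)
      (hγ1 d le_rfl) (fun α β => by
        refine ((hM d α β le_rfl).2).trans ?_
        rw [← mul_pow]
        apply Nat.pow_le_pow_left
        nlinarith)
    have h4 : ∑ ab ∈ antidiagonal d, (γ (ab.1 + ab.2) ab.1 ab.2 : ℝ) =
        ∑ ab ∈ antidiagonal d, (γ d ab.1 ab.2 : ℝ) := by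
      refine Finset.sum_congr rfl fun ab hab => ?_
      rw [mem_antidiagonal.1 hab]
    beta_reduce
    rw [h4]
    exact h3

end Pool.Agent.H195L
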