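import Mathlib

/-!
# Stirling refinement of Lech's inequality (MP_eae75b_ag): definitions and statements of the pieces
-/

set_option autoImplicit false

namespace Pool.Agent.H195L

open Finset Filter Topology
open scoped BigOperators

/-- exponent vectors, variables indexed by `ℕ` -/
abbrev E : Type := ℕ →₀ ℕ

/-- vectors supported in `[0,k)` and not in `G` -/
def co (k : ℕ) (G : Set E) : Set E := {x | (∀ j, k ≤ j → x j = 0) ∧ x ∉ G}

/-- strongly stable: mass may be moved to smaller indices -/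
def SS (G : Set E) : Prop :=
  ∀ (y : E) (i j : ℕ), i < j → y + Finsupp.single j 1 ∈ G → y + Finsupp.single i 1 ∈ G

/-- `α J + β K`, upward closed -/
def ms (J K : Set E) (α β : ℕ) : Set E :=
  {x | ∃ (f : Fin α → E) (g : Fin β → E), (∀ i, f i ∈ J) ∧ (∀ i, g i ∈ K) ∧
    ∑ i, f i + ∑ i, g i ≤ x}

/-- `Δ + B`, upward closed, `Δ` the set of nonzero vectors -/
def dl (B : Set E) : Set E := {x | ∃ y ∈ B, ∃ i, y + Finsupp.single i 1 ≤ x}

/-- the number of vectors supported in `[0,k)` outside `α J + β K` -/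
noncomputable def hh (k : ℕ) (J K : Set E) (α β : ℕ) : ℕ := (co k (ms J K α β)).ncard

/-- `e` is the multiplicity of `G ∩ ℕ^k` -/
def IsMu (k : ℕ) (G : Set E) (e : ℝ) : Prop :=
  Tendsto (fun N : ℕ => (k.factorial : ℝ) * (hh k G G N 0 : ℝ) / (N : ℝ) ^ k) atTop (𝓝 e)

/-- the hypotheses on a pair of consecutive slices -/
structure IsPair (d : ℕ) (J K : Set E) : Prop where
  upJ : IsUpperSet J
  upK : IsUpperSet K
  ssJ : SS J
  ssK : SS K
  sub : J ⊆ K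
  del : ∀ x ∈ K, ∀ i, i < d → x + Finsupp.single i 1 ∈ J
  fin : (co d J).Finite
  zero : (0 : E) ∉ J

/-! ### combinatorial part -/

/-- Newton expansions for a pair: `hh k J K (N+α) (N+β)` is a combination of products of binomial
coefficients of total degree at most `k`, and the top coefficients satisfy an inequality. -/
def S_NEWT : Prop := ∀ (d : ℕ) (J K : Set E), IsPair d J K →
  ∃ (N : ℕ) (γ : ℕ → ℕ → ℕ → ℤ),
    (∀ k a b, k < a + b → γ k a b = 0) ∧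
    (∀ k, k ≤ d → ∀ α β : ℕ, (hh k J K (N + α) (N + β) : ℤ) =
      ∑ a ∈ range (k + 1), ∑ b ∈ range (k + 1), γ k a b * ((α.choose a : ℤ) * (β.choose b : ℤ))) ∧
    (∀ k a b, k ≤ d → a + b + 1 = k → 0 ≤ γ k a (b + 1) - γ k (a + 1) b + γ (k - 1) a b) ∧
    γ 0 0 0 = 1

/-- asymptotic form of the pair lemma -/
def S_PAIR : Prop := ∀ (d : ℕ) (J K : Set E), IsPair d J K →
  ∃ c : ℕ → ℕ → ℝ,
    (∀ a b, a + b + 1 ≤ d → 0 ≤ c a (b + 1) - c (a + 1) b + c a b) ∧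
    (∀ k, k ≤ d → IsMu k J (c k 0)) ∧
    (∀ k, 1 ≤ k → k ≤ d → IsMu k K (c 0 k)) ∧
    Tendsto (fun N : ℕ => ((d + 1).factorial : ℝ) *
      (∑ s ∈ range N, (hh d J K (N - s) s : ℝ)) / (N : ℝ) ^ (d + 1)) atTop
      (𝓝 (∑ ab ∈ antidiagonal d, c ab.1 ab.2))

/-- the slice of `G` at height `t` in direction `d` -/
def slice (d t : ℕ) (G : Set E) : Set E := {x | x + Finsupp.single d t ∈ G}

/-- the slicing inequality -/
def S_M1 : Prop := ∀ (d T : ℕ) (G : Set E), IsUpperSet G → (co (d + 1) G).Finite →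
  Finsupp.single d T ∈ G → ∀ N : ℕ,
    hh (d + 1) G G N 0 ≤ ∑ t ∈ range T, ∑ s ∈ range N,
      hh d (slice d t G) (slice d (t + 1) G) (N - s) s

/-- the algebraic identity -/
def S_ALG : Prop := ∀ (d : ℕ) (c : ℕ → ℕ → ℝ),
  (∀ a b, a + b + 1 ≤ d → 0 ≤ c a (b + 1) - c (a + 1) b + c a b) →
  ∑ ab ∈ antidiagonal d, c ab.1 ab.2 +
    ∑ k ∈ Icc 1 d, ((ascPochhammer ℕ (d + 1)).coeff k : ℝ) * (c k 0 - c 0 k) ≤
    (d + 1 : ℝ) * ∑ k ∈ range (d + 1), ((ascPochhammer ℕ d).coeff k : ℝ) * c k 0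

/-- **Theorem M**: the inequality for strongly stable sets -/
def S_MAIN : Prop := ∀ (n : ℕ) (G : Set E), IsUpperSet G → SS G → (co n G).Finite →
  ∃ e : ℕ → ℝ, (∀ k, k ≤ n → IsMu k G (e k)) ∧
    ∑ k ∈ range (n + 1), ((ascPochhammer ℕ n).coeff k : ℝ) * e k ≤
      (n.factorial : ℝ) * ((co n G).ncard : ℝ)

/-! ### algebraic part -/

/-- exchange property of the generic exponent set (larger indices are less significant) -/
def Exch {n : ℕ} (G : Set (Fin n →₀ ℕ)) : Prop :=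
  ∀ a ∈ G, ∀ p q : Fin n, p < q →
    a - Finsupp.single p (a p) + Finsupp.single q (a p) ∈ G

/-- `a` is the leading (lexicographically smallest) exponent of `F` -/
def Lead {n : ℕ} {K : Type} [CommSemiring K] (F : MvPolynomial (Fin n) K) (a : Fin n →₀ ℕ) : Prop :=
  MvPolynomial.coeff a F ≠ 0 ∧ ∀ b, toLex b < toLex a → MvPolynomial.coeff b F = 0

/-- the linear change of variables -/
noncomputable def chg {n : ℕ} {K : Type} [CommSemiring K] (γ : Fin n → Fin n → K) :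
    MvPolynomial (Fin n) K →ₐ[K] MvPolynomial (Fin n) K :=
  MvPolynomial.aeval fun j => ∑ t, MvPolynomial.C (γ j t) * MvPolynomial.X t

/-- `N G` for a set of exponents -/
def pw {n : ℕ} (G : Set (Fin n →₀ ℕ)) (N : ℕ) : Set (Fin n →₀ ℕ) :=
  {a | ∃ f : Fin N → (Fin n →₀ ℕ), (∀ l, f l ∈ G) ∧ ∑ l, f l ≤ a}

/-- generic initial exponents -/
def S_GIN : Prop := ∀ (K : Type) [Field K] (n M : ℕ) (I : Ideal (MvPolynomial (Fin n) K)),
  (∀ a : Fin n →₀ ℕ, M ≤ a.degree → MvPolynomial.monomial a (1 : K) ∈ I) →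
  ∃ G : Set (Fin n →₀ ℕ), IsUpperSet G ∧ Exch G ∧ Gᶜ.Finite ∧
    Gᶜ.ncard ≤ Module.finrank K (MvPolynomial (Fin n) K ⧸ I) ∧
    ∃ Q : MvPolynomial (Fin n × Fin n) K, Q ≠ 0 ∧
      ∀ γ : Fin n → Fin n → K, MvPolynomial.eval (fun p => γ p.1 p.2) Q ≠ 0 →
        ∀ a ∈ G, ∃ F : MvPolynomial (Fin n) K, Lead F a ∧ chg γ F ∈ I

/-- the length bound -/
def S_LEN : Prop := ∀ (K : Type) [Field K] (n M : ℕ) (I : Ideal (MvPowerSeries (Fin n) K)),
  (∀ a : Fin n →₀ ℕ, M ≤ a.degree → MvPowerSeries.monomial a (1 : K) ∈ I) →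
  ∀ (γ : Fin n → Fin n → K), Matrix.det (Matrix.of γ) ≠ 0 →
  ∀ G : Set (Fin n →₀ ℕ), IsUpperSet G → Gᶜ.Finite →
    (∀ a ∈ G, ∃ F : MvPolynomial (Fin n) K, Lead F a ∧
      ((chg γ F : MvPolynomial (Fin n) K) : MvPowerSeries (Fin n) K) ∈ I) →
    ∀ i N : ℕ, i ≤ n →
      Module.length (MvPowerSeries (Fin n) K) (MvPowerSeries (Fin n) K ⧸
        (I ^ N ⊔ Ideal.span {f : MvPowerSeries (Fin n) K | ∃ j : Fin n, j.val < i ∧
          f = ∑ t : Fin n, γ j t • (MvPowerSeries.X t : MvPowerSeries (Fin n) K)})) ≤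
      (({a : Fin n →₀ ℕ | (∀ j : Fin n, j.val < i → a j = 0) ∧ a ∉ pw G N}.ncard : ℕ) : ℕ∞)

/-- comparison of lengths -/
def S_FIN : Prop := ∀ (K : Type) [Field K] (n M : ℕ) (I : Ideal (MvPowerSeries (Fin n) K)),
  (∀ a : Fin n →₀ ℕ, M ≤ a.degree → MvPowerSeries.monomial a (1 : K) ∈ I) →
  Module.finrank K (MvPolynomial (Fin n) K ⧸
      I.comap (MvPolynomial.coeToMvPowerSeries.ringHom : MvPolynomial (Fin n) K →+* _)) ≤
    (Module.length (MvPowerSeries (Fin n) K) (MvPowerSeries (Fin n) K ⧸ I)).toNat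

/-- integral closure of the exponent set -/
def S_CLO : Prop := ∀ (n : ℕ) (G : Set (Fin n →₀ ℕ)), IsUpperSet G → Exch G → Gᶜ.Finite →
  ∃ B : Set E, IsUpperSet B ∧ SS B ∧ (co n B).Finite ∧ (co n B).ncard ≤ Gᶜ.ncard ∧
    ∃ c : ℕ, ∀ i N : ℕ, i ≤ n →
      {a : Fin n →₀ ℕ | (∀ j : Fin n, j.val < i → a j = 0) ∧ a ∉ pw G N}.ncard ≤
        hh (n - i) B B (N + c) 0

end Pool.Agent.H195L
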