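import Pool.Agent.H195_lech.Spec

/-!
# Stirling refinement of Lech's inequality (MP_eae75b_ag): statements of the smaller pieces
-/

set_option autoImplicit false

namespace Pool.Agent.H195L

open Finset Filter Topology
open scoped BigOperators

/-! ### combinatorial part -/

/-- eventually a combination of products of binomial coefficients, with natural coefficients -/
def NN (h : ℕ → ℕ → ℕ) : Prop := ∃ N₀ : ℕ, ∀ N, N₀ ≤ N → ∃ (L : ℕ) (γ : ℕ → ℕ → ℕ),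
  ∀ α β : ℕ, h (N + α) (N + β) =
    ∑ a ∈ range L, ∑ b ∈ range L, γ a b * (α.choose a * β.choose b)

/-- counting outside an upper set -/
def S_STAN : Prop := ∀ (ι₁ ι₂ : Type) [Fintype ι₁] [Fintype ι₂] (U : Set (ι₁ ⊕ ι₂ → ℕ)),
  IsUpperSet U →
  NN fun p q => {a : ι₁ ⊕ ι₂ → ℕ | ∑ i, a (Sum.inl i) = p ∧ ∑ i, a (Sum.inr i) = q ∧ a ∉ U}.ncard

/-- counting an image outside a bad set -/
def S_CNT : Prop := ∀ (ι₁ ι₂ : Type) [Fintype ι₁] [Fintype ι₂]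
  (val : (ι₁ ⊕ ι₂ → ℕ) →+ E) (Bad : ℕ → ℕ → Set E),
  (∀ p q x a, x ∈ Bad p q →
    x + val a ∈ Bad (p + ∑ i, a (Sum.inl i)) (q + ∑ i, a (Sum.inr i))) →
  NN fun p q => {x : E | (∃ a : ι₁ ⊕ ι₂ → ℕ, ∑ i, a (Sum.inl i) = p ∧ ∑ i, a (Sum.inr i) = q ∧
    val a = x) ∧ x ∉ Bad p q}.ncard

/-- counting in `Δ + B` -/
def S_GREEDY : Prop := ∀ (B : Set E) (k : ℕ), IsUpperSet B → SS B → (0 : E) ∉ B →
  (co k B).Finite → (co k (dl B)).ncard = ∑ i ∈ range (k + 1), (co i B).ncard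

/-- finiteness and growth -/
def S_GROW : Prop := ∀ (d : ℕ) (J K : Set E), IsUpperSet J → IsUpperSet K →
  (co d J).Finite → (co d K).Finite →
  ∃ M : ℕ, (∀ x : E, (∀ j, d ≤ j → x j = 0) → M ≤ x.degree → x ∈ J ∧ x ∈ K) ∧
    (∀ α β : ℕ, ∀ x : E, (∀ j, d ≤ j → x j = 0) → (α + β) * M ≤ x.degree → x ∈ ms J K α β) ∧
    (∀ k α β : ℕ, k ≤ d → (co k (ms J K α β)).Finite ∧ hh k J K α β ≤ ((α + β) * M + 1) ^ k)

/-- the truncated sums -/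
def S_T : Prop := ∀ (d k M : ℕ) (J K : Set E), IsUpperSet J → IsUpperSet K →
  (∀ x : E, (∀ j, d ≤ j → x j = 0) → M ≤ x.degree → x ∈ J ∧ x ∈ K) → k ≤ d →
  NN fun α β => {x : E | (∀ j, k ≤ j → x j = 0) ∧ x ∈ ms J K α β ∧
    x.degree ≤ (α + β) * M}.ncard

/-- the difference -/
def S_D : Prop := ∀ (d k : ℕ) (J K : Set E), IsPair d J K → k ≤ d →
  NN fun p q => {x : E | (∀ j, k ≤ j → x j = 0) ∧ x ∈ ms J K p q ∧
    ¬ (1 ≤ p ∧ x ∈ dl (ms J K (p - 1) (q + 1)))}.ncard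

/-- asymptotics of the antidiagonal sums -/
def S_ASY1 : Prop := ∀ (k N C : ℕ) (h : ℕ → ℕ → ℕ) (γ : ℕ → ℕ → ℤ),
  (∀ a b, k < a + b → γ a b = 0) →
  (∀ α β : ℕ, (h (N + α) (N + β) : ℤ) =
      ∑ a ∈ range (k + 1), ∑ b ∈ range (k + 1), γ a b * ((α.choose a : ℤ) * (β.choose b : ℤ))) →
  (∀ α β : ℕ, h α β ≤ C * (α + β + 1) ^ k) →
  Tendsto (fun n : ℕ => ((k + 1).factorial : ℝ) *
      (∑ s ∈ range n, (h (n - s) s : ℝ)) / (n : ℝ) ^ (k + 1)) atTop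
      (𝓝 (∑ ab ∈ antidiagonal k, (γ ab.1 ab.2 : ℝ)))

/-- asymptotics in one direction -/
def S_ASY2 : Prop := ∀ (k N : ℕ) (h : ℕ → ℕ → ℕ) (γ : ℕ → ℕ → ℤ),
  (∀ a b, k < a + b → γ a b = 0) →
  (∀ α β : ℕ, (h (N + α) (N + β) : ℤ) =
      ∑ a ∈ range (k + 1), ∑ b ∈ range (k + 1), γ a b * ((α.choose a : ℤ) * (β.choose b : ℤ))) →
  Tendsto (fun n : ℕ => (k.factorial : ℝ) * (h n N : ℝ) / (n : ℝ) ^ k) atTop (𝓝 (γ k 0 : ℝ)) ∧
  Tendsto (fun n : ℕ => (k.factorial : ℝ) * (h N n : ℝ) / (n : ℝ) ^ k) atTop (𝓝 (γ 0 k : ℝ))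

/-! ### algebraic part -/

/-- the coefficient ring of the generic coordinates -/
abbrev CC (K : Type) [Field K] (n : ℕ) : Type := MvPolynomial (Fin n × Fin n) K

/-- `{F(y) | F(c x) ∈ I}`, `c` the generic matrix -/
noncomputable def gideal (K : Type) [Field K] (n : ℕ) (I : Ideal (MvPolynomial (Fin n) K)) :
    Ideal (MvPolynomial (Fin n) (CC K n)) :=
  (I.map (MvPolynomial.map (MvPolynomial.C : K →+* CC K n))).comap
    (chg (K := CC K n) fun j t => MvPolynomial.X (j, t)).toRingHom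

/-- generic initial exponents -/
def gexp (K : Type) [Field K] (n : ℕ) (I : Ideal (MvPolynomial (Fin n) K)) :
    Set (Fin n →₀ ℕ) := {a | ∃ F ∈ gideal K n I, Lead F a}

/-- exchange property -/
def S_GA : Prop := ∀ (K : Type) [Field K] (n : ℕ) (I : Ideal (MvPolynomial (Fin n) K)),
  Exch (gexp K n I)

/-- counting -/
def S_GB : Prop := ∀ (K : Type) [Field K] (n M : ℕ) (I : Ideal (MvPolynomial (Fin n) K)),
  (∀ a : Fin n →₀ ℕ, M ≤ a.degree → MvPolynomial.monomial a (1 : K) ∈ I) →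
  (gexp K n I)ᶜ.Finite ∧
    (gexp K n I)ᶜ.ncard ≤ Module.finrank K (MvPolynomial (Fin n) K ⧸ I)

/-- specialisation -/
def S_GC : Prop := ∀ (K : Type) [Field K] (n M : ℕ) (I : Ideal (MvPolynomial (Fin n) K)),
  (∀ a : Fin n →₀ ℕ, M ≤ a.degree → MvPolynomial.monomial a (1 : K) ∈ I) →
  IsUpperSet (gexp K n I) ∧
    ∃ Q : MvPolynomial (Fin n × Fin n) K, Q ≠ 0 ∧
      ∀ γ : Fin n → Fin n → K, MvPolynomial.eval (fun p => γ p.1 p.2) Q ≠ 0 →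
        ∀ a ∈ gexp K n I, ∃ F : MvPolynomial (Fin n) K, Lead F a ∧ chg γ F ∈ I

theorem gin_of (hA : S_GA) (hB : S_GB) (hC : S_GC) : S_GIN := by
  intro K _ n M I hI
  obtain ⟨h1, h2⟩ := hB K n M I hI
  obtain ⟨h3, Q, h4, h5⟩ := hC K n M I hI
  exact ⟨gexp K n I, h3, hA K n I, h1, h2, Q, h4, h5⟩

end Pool.Agent.H195L
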